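import Pool.Agent.Q282.PA.Ord

set_option autoImplicit false
set_option linter.unusedSectionVars false
set_option linter.unusedVariables false

/-! # The exceptional divisor of the blowing-up of the origin, for ideals generated by forms -/

namespace Pool.Agent.Q282.PA

open MvPowerSeries Pool.Agent.W574.SM Pool.Agent.W574.LM Pool.Agent.W574.HS Pool.Agent.TH192.DT
  Pool.Agent.H628R4.TP Pool.Agent.TH187.SA Pool.Agent.Y231.RF Pool.Agent.Y228.RR

theorem aeval_mul_of_hom {σ R S : Type} [Fintype σ] [CommRing R] [CommRing S] [Algebra R S]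
    (g : MvPolynomial σ R) (d : ℕ) (h : g.IsHomogeneous d) (r : S) (η : σ → S) :
    MvPolynomial.aeval (fun i => r * η i) g = r ^ d * MvPolynomial.aeval η g := by
  rw [MvPolynomial.aeval_def, MvPolynomial.aeval_def, MvPolynomial.eval₂_eq',
    MvPolynomial.eval₂_eq', Finset.mul_sum]
  refine Finset.sum_congr rfl fun m hm => ?_
  have h1 : ∑ i, m i = d := by
    have h2 := h (MvPolynomial.mem_support_iff.1 hm)
    rw [← h2]
    simp [Finsupp.weight_apply, Finsupp.sum_fintype]
  simp only [mul_pow]
  rw [Finset.prod_mul_distrib, Finset.prod_pow_eq_pow_sum, h1]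
  ring

variable {σ T : Type} [Fintype σ] [DecidableEq σ] [Fintype T] [DecidableEq T] {κ : T → Type}
  [∀ t, Fintype (κ t)] [∀ t, DecidableEq (κ t)]

/-- the direction, in formal coordinates -/
noncomputable def dir (z : σ) (v : σ → ℂ) (i : σ) : MvPowerSeries σ ℂ :=
  MvPowerSeries.C (v i) + if i = z then 0 else X i

/-- the chart of the blowing-up of the origin -/
noncomputable def bl (z : σ) (v : σ → ℂ) (i : σ) : MvPowerSeries σ ℂ := X z * dir z v i

theorem cc_dir (z : σ) (v : σ → ℂ) (i : σ) : constantCoeff (dir z v i) = v i := by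
  unfold dir
  split_ifs <;> simp

theorem cc_aeval (η : σ → MvPowerSeries σ ℂ) (v : σ → ℂ) (h : ∀ i, constantCoeff (η i) = v i)
    (g : MvPolynomial σ ℂ) : constantCoeff (MvPolynomial.aeval η g) = MvPolynomial.eval v g := by
  induction g using MvPolynomial.induction_on with
  | C c =>
    rw [MvPolynomial.aeval_C, MvPolynomial.eval_C]
    exact constantCoeff_C c
  | add p q hp hq => rw [map_add, map_add, map_add, hp, hq]
  | mul_X p k hp => rw [map_mul, map_mul, map_mul, hp, MvPolynomial.aeval_X,
      MvPolynomial.eval_X, h]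

theorem pd_dir (z : σ) (v : σ → ℂ) (s i : σ) :
    pderiv ℂ s (dir z v i) = if s = i ∧ i ≠ z then 1 else 0 := by
  unfold dir
  rw [map_add, pderiv_C, zero_add]
  by_cases hi : i = z
  · rw [if_pos hi, map_zero, if_neg (by tauto)]
  · rw [if_neg hi]
    by_cases hs : s = i
    · subst hs
      rw [pderiv_X_self, if_pos ⟨rfl, hi⟩]
    · rw [pderiv_X_of_ne (Ne.symm hs), if_neg (by tauto)]

theorem det_bl (z : σ) (v : σ → ℂ) (hv : v z = 1) :
    (Matrix.of fun t i => pderiv ℂ t (bl z v i)).det = X z ^ (Fintype.card σ - 1) := by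
  have hz : dir z v z = 1 := by
    unfold dir
    rw [hv, if_pos rfl, add_zero, map_one]
  have h1 : ∀ t i, pderiv ℂ t (bl z v i) =
      (if t = z then dir z v i else 0) + X z * (if t = i ∧ i ≠ z then 1 else 0) := by
    intro t i
    unfold bl
    rw [Derivation.leibniz, smul_eq_mul, smul_eq_mul, pd_dir]
    by_cases ht : t = z
    · subst ht
      rw [pderiv_X_self, if_pos rfl]
      ring
    · rw [pderiv_X_of_ne (Ne.symm ht), if_neg ht]
      ring
  set D : Matrix σ σ (MvPowerSeries σ ℂ) :=
    Matrix.diagonal fun i => if i = z then 1 else X z with hD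
  set u : σ → MvPowerSeries σ ℂ := fun i => if i = z then 0 else dir z v i with hu
  have h2 : (Matrix.of fun t i => pderiv ℂ t (bl z v i)) = D.updateRow z (D z + u) := by
    ext1 t i
    rw [Matrix.of_apply, h1]
    by_cases ht : t = z
    · subst ht
      rw [Matrix.updateRow_self, if_pos rfl, Pi.add_apply, hD, Matrix.diagonal_apply, hu]
      by_cases hi : i = t
      · subst hi
        simp [hz]
      · simp [hi, Ne.symm hi]
    · rw [Matrix.updateRow_ne ht, if_neg ht, hD, Matrix.diagonal_apply]
      by_cases hi : t = i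
      · subst hi
        simp [ht]
      · simp [hi]
  have h3 : (D.updateRow z u).det = 0 := by
    refine Matrix.det_eq_zero_of_column_eq_zero z fun t => ?_
    by_cases ht : t = z
    · subst ht
      rw [Matrix.updateRow_self, hu]
      simp
    · rw [Matrix.updateRow_ne ht, hD, Matrix.diagonal_apply, if_neg ht]
  rw [h2, Matrix.det_updateRow_add, h3, add_zero, Matrix.updateRow_eq_self, hD,
    Matrix.det_diagonal]
  rw [Finset.prod_ite, Finset.prod_const_one, one_mul, Finset.prod_const,
    Finset.filter_ne', Finset.card_erase_of_mem (Finset.mem_univ z), Finset.card_univ]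

/-- **The chart.** -/
noncomputable def coneChart (g : (t : T) → κ t → MvPolynomial σ ℂ) (d : T → ℕ)
    (hd : ∀ t j, (g t j).IsHomogeneous (d t)) (z : σ) (v : σ → ℂ) (hv : v z = 1)
    (j0 : (t : T) → κ t) (hj : ∀ t, MvPolynomial.eval v (g t (j0 t)) ≠ 0) : Chart g where
  z := z
  ξ := bl z v
  k := Fintype.card σ - 1
  m := d
  j0 := j0
  jacobian := ⟨1, by rw [map_one]; exact one_ne_zero, by rw [mul_one]; exact det_bl z v hv⟩
  divides := fun t j => ⟨MvPolynomial.aeval (dir z v) (g t j),
    aeval_mul_of_hom (g t j) (d t) (hd t j) (X z) (dir z v)⟩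
  attained := fun t => ⟨MvPolynomial.aeval (dir z v) (g t (j0 t)), by
    rw [cc_aeval _ v (cc_dir z v)]
    exact hj t, aeval_mul_of_hom (g t (j0 t)) (d t) (hd t (j0 t)) (X z) (dir z v)⟩

/-- **The exceptional divisor is a Rees divisor** if one of the families contains forms with a
nonzero Jacobian determinant. -/
theorem coneChart_rees (g : (t : T) → κ t → MvPolynomial σ ℂ) (d : T → ℕ)
    (hd : ∀ t j, (g t j).IsHomogeneous (d t)) (z : σ) (v : σ → ℂ) (hv : v z = 1)
    (j0 : (t : T) → κ t) (hj : ∀ t, MvPolynomial.eval v (g t (j0 t)) ≠ 0) (A : T → Prop)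
    (t0 : T) (ht0 : A t0) (hd0 : 0 < d t0) (e : σ → κ t0) (he : j0 t0 = e z)
    (hJ : (Matrix.of fun i k => MvPolynomial.eval v
      (MvPolynomial.pderiv k (g t0 (e i)))).det ≠ 0) :
    (coneChart g d hd z v hv j0 hj).IsRees A := by
  classical
  set γ : σ → ℂ := fun i => MvPolynomial.eval v (g t0 (e i)) with hγ
  set G : σ → MvPowerSeries σ ℂ := fun i => MvPolynomial.aeval (dir z v) (g t0 (e i)) with hG
  have hγz : γ z ≠ 0 := by
    have := hj t0
    rw [he] at this
    exact this
  have hcG : ∀ i, constantCoeff (G i) = γ i := fun i => cc_aeval _ v (cc_dir z v) _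
  obtain ⟨Gi, hGi⟩ : ∃ Gi : MvPowerSeries σ ℂ, G z * Gi = 1 := by
    have h1 : IsUnit (G z) := by
      rw [MvPowerSeries.isUnit_iff_constantCoeff, hcG]
      exact isUnit_iff_ne_zero.2 hγz
    exact h1.exists_right_inv
  set w : σ → MvPowerSeries σ ℂ := fun t => if t = z then X z else
    (G t - MvPowerSeries.C (γ t / γ z) * G z) * Gi with hw
  have hwz : w z = X z := by rw [hw]; simp
  have hwt : ∀ t, t ≠ z → G z * w t = G t - MvPowerSeries.C (γ t / γ z) * G z := by
    intro t ht
    rw [hw]
    simp only [if_neg ht]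
    rw [mul_comm, mul_assoc, mul_comm Gi, hGi, mul_one]
  have hw0 : ∀ t, constantCoeff (w t) = 0 := by
    intro t
    by_cases ht : t = z
    · rw [ht, hwz]
      simp
    · have h1 := congrArg constantCoeff (hwt t ht)
      rw [map_mul, map_sub, map_mul, hcG, hcG, constantCoeff_C] at h1
      have h2 : γ t - γ t / γ z * γ z = 0 := by
        field_simp
        ring
      rw [h2] at h1
      exact (mul_eq_zero.1 h1).resolve_left hγz
  have hpG : ∀ s i, s ≠ z → constantCoeff (pderiv ℂ s (G i)) =
      MvPolynomial.eval v (MvPolynomial.pderiv s (g t0 (e i))) := by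
    intro s i hs
    rw [hG]
    simp only
    rw [pderiv_aeval, map_sum, Finset.sum_eq_single s]
    · rw [map_mul, cc_aeval _ v (cc_dir z v), pd_dir, if_pos ⟨rfl, hs⟩, map_one, mul_one]
    · intro k _ hk
      rw [pd_dir, if_neg (fun h => hk h.1.symm), mul_zero, map_zero]
    · intro h
      exact absurd (Finset.mem_univ s) h
  have hW : ∀ s t, s ≠ z → t ≠ z → γ z * constantCoeff (pderiv ℂ s (w t)) =
      MvPolynomial.eval v (MvPolynomial.pderiv s (g t0 (e t))) -
        γ t / γ z * MvPolynomial.eval v (MvPolynomial.pderiv s (g t0 (e z))) := by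
    intro s t hs ht
    have h1 := congrArg (fun F => constantCoeff (pderiv ℂ s F)) (hwt t ht)
    simp only [map_sub, Derivation.leibniz, smul_eq_mul, map_add, map_mul, pderiv_C, mul_zero,
      add_zero, hw0, zero_mul, constantCoeff_C, hcG] at h1
    rw [hpG s t hs, hpG s z hs] at h1
    exact h1
  have heuler : ∀ i, ∑ k, v k * MvPolynomial.eval v (MvPolynomial.pderiv k (g t0 (e i))) =
      d t0 * γ i := by
    intro i
    have h1 := congrArg (MvPolynomial.eval v) (hd t0 (e i)).sum_X_mul_pderiv
    rw [map_sum] at h1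
    simp only [map_mul, MvPolynomial.eval_X, nsmul_eq_mul, map_natCast] at h1
    exact h1
  refine ⟨w, hwz, hw0, ?_, ?_⟩
  · intro hdet
    obtain ⟨y, hy0, hy⟩ := Matrix.exists_vecMul_eq_zero_iff.2 hdet
    apply hy0
    have hyt : ∀ t, ∑ s, y s * constantCoeff (pderiv ℂ s (w t)) = 0 := fun t => congrFun hy t
    have hyz : y z = 0 := by
      have h1 := hyt z
      rw [hwz, Finset.sum_eq_single z] at h1
      · rw [pderiv_X_self, map_one, mul_one] at h1
        exact h1
      · intro s _ hs
        rw [pderiv_X_of_ne (Ne.symm hs), map_zero, mul_zero]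
      · intro h
        exact absurd (Finset.mem_univ z) h
    set L : ℂ := ∑ s, y s * MvPolynomial.eval v (MvPolynomial.pderiv s (g t0 (e z))) with hL
    have h2 : ∀ t, ∑ s, y s * MvPolynomial.eval v (MvPolynomial.pderiv s (g t0 (e t))) =
        γ t / γ z * L := by
      intro t
      by_cases ht : t = z
      · subst ht
        rw [div_self hγz, one_mul]
      · have h3 := congrArg (fun c => γ z * c) (hyt t)
        simp only [mul_zero, Finset.mul_sum] at h3
        rw [hL, Finset.mul_sum, ← sub_eq_zero, ← Finset.sum_sub_distrib, ← h3]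
        refine Finset.sum_congr rfl fun s _ => ?_
        by_cases hs : s = z
        · rw [hs, hyz]
          ring
        · have h4 := hW s t hs ht
          linear_combination (-(y s)) * h4
    have hd1 : (d t0 : ℂ) ≠ 0 := Nat.cast_ne_zero.2 hd0.ne'
    set l : ℂ := L / (γ z * d t0) with hl
    have h5 : y - l • v = 0 := by
      by_contra hne
      refine hJ ?_
      refine Matrix.exists_mulVec_eq_zero_iff.1 ⟨y - l • v, hne, ?_⟩
      funext i
      change ∑ k, MvPolynomial.eval v (MvPolynomial.pderiv k (g t0 (e i))) * (y - l • v) k = 0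
      have h6 : ∑ k, MvPolynomial.eval v (MvPolynomial.pderiv k (g t0 (e i))) * (y - l • v) k =
          (∑ s, y s * MvPolynomial.eval v (MvPolynomial.pderiv s (g t0 (e i)))) -
          l * ∑ k, v k * MvPolynomial.eval v (MvPolynomial.pderiv k (g t0 (e i))) := by
        rw [Finset.mul_sum, ← Finset.sum_sub_distrib]
        refine Finset.sum_congr rfl fun k _ => ?_
        simp only [Pi.sub_apply, Pi.smul_apply, smul_eq_mul]
        ring
      rw [h6, h2, heuler, hl]
      field_simp
      ring
    have h7 : l = 0 := by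
      have h8 := congrFun h5 z
      simp only [Pi.sub_apply, Pi.smul_apply, smul_eq_mul, Pi.zero_apply, hv, hyz] at h8
      linear_combination -h8
    rw [h7, zero_smul, sub_zero] at h5
    exact h5
  · intro t ht
    right
    refine ⟨t0, ht0, fun j => (if j = e t then 1 else 0) - (if j = e z then γ t / γ z else 0), ?_⟩
    have h1 : ∀ i, MvPolynomial.aeval (bl z v) (g t0 (e i)) = X z ^ d t0 * G i := fun i =>
      aeval_mul_of_hom (g t0 (e i)) (d t0) (hd t0 (e i)) (X z) (dir z v)
    change ∑ j, _ • MvPolynomial.aeval (bl z v) (g t0 j) =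
      MvPolynomial.aeval (bl z v) (g t0 (j0 t0)) * w t
    simp only [sub_smul, ite_smul, one_smul, zero_smul]
    rw [Finset.sum_sub_distrib, Finset.sum_ite_eq', Finset.sum_ite_eq',
      if_pos (Finset.mem_univ _), if_pos (Finset.mem_univ _), he, h1, h1, mul_assoc, hwt t ht]
    rw [MvPowerSeries.smul_eq_C_mul]
    ring

end Pool.Agent.Q282.PA
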