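import Mathlib

set_option autoImplicit false
set_option linter.unusedSectionVars false
set_option linter.unusedVariables false

/-! # The Jacobian determinant of forms without common zeros -/

namespace Pool.Agent.Q282.PA.Jac

open MvPolynomial

variable {σ κ : Type} [Fintype σ] [DecidableEq σ] [Fintype κ] [DecidableEq κ]

/-- the ring generated by the forms -/
noncomputable abbrev Rg (G : κ → MvPolynomial σ ℂ) : Subalgebra ℂ (MvPolynomial σ ℂ) :=
  Algebra.adjoin ℂ (Set.range G)

theorem mem_Rg (G : κ → MvPolynomial σ ℂ) (j : κ) : G j ∈ Rg G :=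
  Algebra.subset_adjoin ⟨j, rfl⟩

theorem deg_sum (m : σ →₀ ℕ) : m.degree = ∑ i, m i := by
  rw [Finsupp.degree_eq_sum]

/-- the module generated by the monomials of small degree -/
noncomputable def Sm (G : κ → MvPolynomial σ ℂ) (B : ℕ) : Submodule (Rg G) (MvPolynomial σ ℂ) :=
  Submodule.span (Rg G) ((fun m : σ →₀ ℕ => monomial m (1 : ℂ)) '' {m | m.degree < B})

theorem smul_mem_Sm (G : κ → MvPolynomial σ ℂ) (B : ℕ) (j : κ) (f : MvPolynomial σ ℂ)
    (hf : f ∈ Sm G B) : f * G j ∈ Sm G B := by
  have h1 := (Sm G B).smul_mem (⟨G j, mem_Rg G j⟩ : Rg G) hf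
  rw [Subalgebra.smul_def, smul_eq_mul, mul_comm] at h1
  exact h1

theorem csmul_mem_Sm (G : κ → MvPolynomial σ ℂ) (B : ℕ) (c : ℂ) (f : MvPolynomial σ ℂ)
    (hf : f ∈ Sm G B) : C c * f ∈ Sm G B := by
  have h1 := (Sm G B).smul_mem (⟨C c, (Rg G).algebraMap_mem c⟩ : Rg G) hf
  rw [Subalgebra.smul_def, smul_eq_mul] at h1
  exact h1

theorem mono_mem (G : κ → MvPolynomial σ ℂ) (d : ℕ) (hd0 : 0 < d)
    (hd : ∀ j, (G j).IsHomogeneous d) (M : σ → ℕ) [Nonempty σ]
    (hM : ∀ i, (X i : MvPolynomial σ ℂ) ^ M i ∈ Ideal.span (Set.range G)) (n : ℕ) :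
    ∀ m : σ →₀ ℕ, m.degree = n → monomial m (1 : ℂ) ∈ Sm G (∑ i, M i + 1) := by
  induction n using Nat.strong_induction_on with
  | _ n ih =>
    intro m hm
    by_cases hn : n < ∑ i, M i + 1
    · exact Submodule.subset_span ⟨m, by rw [Set.mem_ofPred_eq, hm]; exact hn, rfl⟩
    · obtain ⟨i, hi⟩ : ∃ i, M i ≤ m i := by
        by_contra hcon
        push Not at hcon
        have h1 : ∑ i, m i ≤ ∑ i, M i := Finset.sum_le_sum fun i _ => (hcon i).le
        rw [← deg_sum, hm] at h1
        omega
      have hmem : monomial m (1 : ℂ) ∈ Ideal.span (Set.range G) := by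
        have h2 : monomial m (1 : ℂ) = monomial (m - Finsupp.single i (M i)) 1 * X i ^ M i := by
          rw [X_pow_eq_monomial, monomial_mul, one_mul, tsub_add_cancel_of_le]
          rw [Finsupp.single_le_iff]
          exact hi
        rw [h2]
        exact Ideal.mul_mem_left _ _ (hM i)
      obtain ⟨c, hc⟩ := (Ideal.mem_span_range_iff_exists_fun).1 hmem
      have h3 : homogeneousComponent n (monomial m (1 : ℂ)) = monomial m (1 : ℂ) := by
        rw [homogeneousComponent_of_mem (n := n) (isHomogeneous_monomial (1 : ℂ) hm), if_pos rfl]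
      rw [← h3, ← hc, map_sum]
      refine Submodule.sum_mem _ fun j _ => ?_
      have h4 : c j * G j = ∑ m' ∈ (c j).support, monomial m' (coeff m' (c j)) * G j := by
        rw [← Finset.sum_mul, support_sum_monomial_coeff]
      rw [h4, map_sum]
      refine Submodule.sum_mem _ fun m' _ => ?_
      have h5 : (monomial m' (coeff m' (c j)) * G j).IsHomogeneous (m'.degree + d) :=
        (isHomogeneous_monomial _ rfl).mul (hd j)
      rw [homogeneousComponent_of_mem h5]
      split_ifs with h6
      · refine smul_mem_Sm G _ j _ ?_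
        have h7 : monomial m' (coeff m' (c j)) = C (coeff m' (c j)) * monomial m' (1 : ℂ) := by
          rw [C_mul_monomial, mul_one]
        rw [h7]
        exact csmul_mem_Sm G _ _ _ (ih m'.degree (by omega) m' rfl)
      · exact Submodule.zero_mem _

theorem finite_small (B : ℕ) : {m : σ →₀ ℕ | m.degree < B}.Finite := by
  refine (Set.finite_Icc (0 : σ →₀ ℕ) (Finsupp.equivFunOnFinite.symm fun _ => B)).subset ?_
  intro m hm
  refine ⟨bot_le, fun i => ?_⟩
  have h1 : m i ≤ ∑ i, m i :=
    Finset.single_le_sum (f := fun i => m i) (fun _ _ => Nat.zero_le _) (Finset.mem_univ i)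
  rw [← deg_sum] at h1
  exact h1.trans (le_of_lt hm)

theorem finite_ring (G : κ → MvPolynomial σ ℂ) (d : ℕ) (hd0 : 0 < d)
    (hd : ∀ j, (G j).IsHomogeneous d) (M : σ → ℕ) [Nonempty σ]
    (hM : ∀ i, (X i : MvPolynomial σ ℂ) ^ M i ∈ Ideal.span (Set.range G)) :
    Module.Finite (Rg G) (MvPolynomial σ ℂ) := by
  have htop : Sm G (∑ i, M i + 1) = ⊤ := by
    rw [eq_top_iff]
    intro f _
    rw [f.as_sum]
    refine Submodule.sum_mem _ fun m _ => ?_
    have h7 : monomial m (coeff m f) = C (coeff m f) * monomial m (1 : ℂ) := by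
      rw [C_mul_monomial, mul_one]
    rw [h7]
    exact csmul_mem_Sm G _ _ _ (mono_mem G d hd0 hd M hM _ m rfl)
  refine ⟨?_⟩
  rw [← htop]
  exact Submodule.fg_span ((finite_small _).image _)

/-- **Vanishing of derivations.** -/
theorem der_zero (G : κ → MvPolynomial σ ℂ) [Module.Finite (Rg G) (MvPolynomial σ ℂ)]
    (W : σ → MvPolynomial σ ℂ) (hW : ∀ j, ∑ k, W k * pderiv k (G j) = 0) (i : σ) : W i = 0 := by
  classical
  let D0 : Derivation ℂ (MvPolynomial σ ℂ) (MvPolynomial σ ℂ) := mkDerivation ℂ W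
  have hD0 : ∀ f, D0 f = ∑ k, W k * pderiv k f := by
    let D1 : Derivation ℂ (MvPolynomial σ ℂ) (MvPolynomial σ ℂ) :=
      Derivation.mk' (∑ k, (LinearMap.mulLeft ℂ (W k)).comp (pderiv k).toLinearMap) (by
        intro a b
        have h0 : ∀ f : MvPolynomial σ ℂ, (∑ k, (LinearMap.mulLeft ℂ (W k)).comp
            (pderiv k).toLinearMap) f = ∑ k, W k * pderiv k f := by
          intro f
          rw [LinearMap.sum_apply]
          rfl
        rw [h0, h0, h0, smul_eq_mul, smul_eq_mul, Finset.mul_sum, Finset.mul_sum,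
          ← Finset.sum_add_distrib]
        refine Finset.sum_congr rfl fun k _ => ?_
        rw [Derivation.leibniz, smul_eq_mul, smul_eq_mul]
        ring)
    have hD1 : ∀ f, D1 f = ∑ k, W k * pderiv k f := by
      intro f
      change (∑ k, (LinearMap.mulLeft ℂ (W k)).comp (pderiv k).toLinearMap) f = _
      simp [LinearMap.sum_apply]
    have h1 : D0 = D1 := by
      refine derivation_ext fun k => ?_
      rw [hD1, mkDerivation_X]
      simp [pderiv_X, Pi.single_apply]
    intro f
    rw [h1, hD1]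
  have hA : ∀ c : Rg G, D0 (c : MvPolynomial σ ℂ) = 0 := by
    rintro ⟨c, hc⟩
    refine Algebra.adjoin_induction (p := fun c _ => D0 c = 0) ?_ ?_ ?_ ?_ hc
    · rintro _ ⟨j, rfl⟩
      rw [hD0]
      exact hW j
    · intro r
      exact D0.map_algebraMap r
    · intro x y _ _ hx hy
      rw [map_add, hx, hy, add_zero]
    · intro x y _ _ hx hy
      rw [Derivation.leibniz, hx, hy, smul_zero, smul_zero, add_zero]
  let D' : Derivation (Rg G) (MvPolynomial σ ℂ) (MvPolynomial σ ℂ) :=
    Derivation.mk' ⟨⟨fun f => D0 f, fun a b => map_add D0 a b⟩, fun c f => by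
      change D0 (c • f) = c • D0 f
      rw [Subalgebra.smul_def, Subalgebra.smul_def, smul_eq_mul, Derivation.leibniz, hA c,
        smul_zero, add_zero]⟩ (fun a b => D0.leibniz a b)
  have hint : IsIntegral (Rg G) (X i : MvPolynomial σ ℂ) := Algebra.IsIntegral.isIntegral _
  have hex : ∃ n : ℕ, ∃ P : Polynomial (Rg G), P ≠ 0 ∧ P.natDegree = n ∧
      Polynomial.aeval (X i : MvPolynomial σ ℂ) P = 0 := by
    obtain ⟨P, hP, h0⟩ := hint
    exact ⟨P.natDegree, P, hP.ne_zero, rfl, h0⟩
  obtain ⟨P, hP, hdeg, h0⟩ := Nat.find_spec hex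
  have hmin := fun m (hm : m < Nat.find hex) => Nat.find_min hex hm
  have hpos : P.natDegree ≠ 0 := by
    intro hz
    rw [Polynomial.eq_C_of_natDegree_eq_zero hz, Polynomial.aeval_C] at h0
    apply hP
    rw [Polynomial.eq_C_of_natDegree_eq_zero hz]
    have h1 : P.coeff 0 = 0 := by
      apply Subtype.ext
      exact h0
    rw [h1, Polynomial.C_0]
  have hP' : Polynomial.derivative P ≠ 0 := fun h =>
    hpos (Polynomial.derivative_eq_zero.1 h)
  have hne : Polynomial.aeval (X i : MvPolynomial σ ℂ) (Polynomial.derivative P) ≠ 0 := by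
    intro h
    exact hmin _ (by rw [← hdeg]; exact Polynomial.natDegree_derivative_lt hpos)
      ⟨_, hP', rfl, h⟩
  have h2 := D'.map_aeval P (X i)
  rw [h0, map_zero] at h2
  have h3 : D' (X i) = W i := by
    change D0 (X i) = W i
    exact mkDerivation_X ℂ W i
  rw [h3, smul_eq_mul] at h2
  exact (mul_eq_zero.1 h2.symm).resolve_left hne

/-- **Forms without common zeros have a nonzero Jacobian determinant.** -/
theorem jac (G : κ → MvPolynomial σ ℂ) (d : ℕ) (hd0 : 0 < d)
    (hd : ∀ j, (G j).IsHomogeneous d) [Nonempty σ]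
    (hM : ∀ i, ∃ M, (X i : MvPolynomial σ ℂ) ^ M ∈ Ideal.span (Set.range G)) :
    ∃ e : σ → κ, (Matrix.of fun i k => pderiv k (G (e i))).det ≠ 0 := by
  classical
  choose M hM using hM
  have hfin := finite_ring G d hd0 hd M hM
  let K := FractionRing (MvPolynomial σ ℂ)
  let r : κ → σ → K := fun j k => algebraMap (MvPolynomial σ ℂ) K (pderiv k (G j))
  by_cases htop : Submodule.span K (Set.range r) = ⊤
  · obtain ⟨f, hf1, hf2, hf3⟩ := Submodule.exists_fun_fin_finrank_span_eq K (Set.range r)
    have hcard : Module.finrank K (Submodule.span K (Set.range r)) = Fintype.card σ := by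
      rw [htop, finrank_top, Module.finrank_fintype_fun_eq_card]
    choose e0 he0 using hf1
    let E : σ ≃ Fin (Module.finrank K (Submodule.span K (Set.range r))) :=
      (Fintype.equivFin σ).trans (finCongr hcard.symm)
    refine ⟨fun i => e0 (E i), fun h => ?_⟩
    have hli : LinearIndependent K (fun i => f (E i)) := hf3.comp E E.injective
    have hrow : (fun i => f (E i)) = (Matrix.of fun i k =>
        algebraMap (MvPolynomial σ ℂ) K (pderiv k (G (e0 (E i))))).row := by
      funext i k
      rw [← he0 (E i)]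
      rfl
    rw [hrow, Matrix.linearIndependent_rows_iff_isUnit, Matrix.isUnit_iff_isUnit_det] at hli
    apply hli.ne_zero
    have h1 : (Matrix.of fun i k => algebraMap (MvPolynomial σ ℂ) K
        (pderiv k (G (e0 (E i))))) = (algebraMap (MvPolynomial σ ℂ) K).mapMatrix
        (Matrix.of fun i k => pderiv k (G (e0 (E i)))) := rfl
    rw [h1, ← RingHom.map_det, h, map_zero]
  · exfalso
    obtain ⟨f, hf0, hf⟩ := Submodule.exists_le_ker_of_lt_top _ (lt_top_iff_ne_top.2 htop)
    let w : σ → K := fun k => f (Pi.single k 1)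
    have hfw : ∀ x : σ → K, f x = ∑ k, x k * w k := by
      intro x
      conv_lhs => rw [← Finset.univ_sum_single x]
      rw [map_sum]
      refine Finset.sum_congr rfl fun k _ => ?_
      have : Pi.single k (x k) = x k • (Pi.single k 1 : σ → K) := by
        rw [← Pi.single_smul, smul_eq_mul, mul_one]
      rw [this, map_smul, smul_eq_mul]
    obtain ⟨b, hb⟩ := IsLocalization.exist_integer_multiples_of_finite
      (nonZeroDivisors (MvPolynomial σ ℂ)) w
    choose W hW using hb
    have hW' : ∀ k, algebraMap (MvPolynomial σ ℂ) K (W k) =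
        algebraMap (MvPolynomial σ ℂ) K (b : MvPolynomial σ ℂ) * w k := by
      intro k
      rw [hW k]
      exact Algebra.smul_def _ _
    have hinj : Function.Injective (algebraMap (MvPolynomial σ ℂ) K) :=
      IsFractionRing.injective _ _
    have h1 : ∀ j, ∑ k, W k * pderiv k (G j) = 0 := by
      intro j
      apply hinj
      rw [map_sum, map_zero]
      have h2 : f (r j) = 0 := hf (Submodule.subset_span ⟨j, rfl⟩)
      rw [hfw] at h2
      have h3 := congrArg (fun c => algebraMap (MvPolynomial σ ℂ) K (b : MvPolynomial σ ℂ) * c) h2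
      simp only [mul_zero, Finset.mul_sum] at h3
      rw [← h3]
      refine Finset.sum_congr rfl fun k _ => ?_
      rw [map_mul, hW']
      ring
    have h4 : ∀ k, w k = 0 := by
      intro k
      have h5 := hW' k
      rw [der_zero G W h1 k, map_zero] at h5
      refine (mul_eq_zero.1 h5.symm).resolve_left ?_
      intro h6
      have h7 : (b : MvPolynomial σ ℂ) = 0 := hinj (by rw [h6, map_zero])
      exact nonZeroDivisors.ne_zero b.2 h7
    apply hf0
    refine LinearMap.ext fun x => ?_
    rw [hfw x]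
    simp only [h4, mul_zero, Finset.sum_const_zero]
    rfl

end Pool.Agent.Q282.PA.Jac
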