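import Pool.Agent.Q282.PA.ConeMain
import Pool.Agent.Q282.PA.Jac

set_option autoImplicit false
set_option linter.unusedSectionVars false
set_option linter.unusedVariables false

/-! # The strong monodromy conjecture for forms over ideals generated by forms without common zeros -/

namespace Pool.Agent.Q282.PA

open MeasureTheory Pool.Agent.W427.SMC Pool.Agent.TH192.PA Pool.Agent.TH187.SA
  Pool.Agent.TH192.DT MvPolynomial Pool.Agent.H628R4.TP Pool.Agent.Y228.RR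
open scoped ENNReal NNReal

variable {σ T : Type} [Fintype σ] [DecidableEq σ] [Fintype T] [DecidableEq T] {κ : T → Type}
  [∀ t, Fintype (κ t)] [∀ t, DecidableEq (κ t)]

theorem gC_ne (g : (t : T) → κ t → MvPolynomial σ ℤ) (hg : ∀ t, ∃ j, g t j ≠ 0) (t : T) :
    ∃ j, gC g t j ≠ 0 := by
  obtain ⟨j, hj⟩ := hg t
  refine ⟨j, fun h => hj ?_⟩
  have h1 : map (Int.castRingHom ℂ) (g t j) = map (Int.castRingHom ℂ) 0 := by
    rw [map_zero]
    exact h
  exact map_injective (Int.castRingHom ℂ) (RingHom.injective_int _) h1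

theorem gC_hom (g : (t : T) → κ t → MvPolynomial σ ℤ) (d : T → ℕ)
    (hd : ∀ t j, (g t j).IsHomogeneous (d t)) (t : T) (j : κ t) :
    (gC g t j).IsHomogeneous (d t) := (hd t j).map _

theorem gC_prim (g : (t : T) → κ t → MvPolynomial σ ℤ) (a : T → ℕ) (h : Primary g a) (t : T)
    (ht : 0 < a t) (i : σ) :
    ∃ M, (X i : MvPolynomial σ ℂ) ^ M ∈ Ideal.span (Set.range (gC g t)) := by
  obtain ⟨D, M, hD, hM⟩ := h t ht i
  refine ⟨M, ?_⟩
  obtain ⟨c, hc⟩ := (Ideal.mem_span_range_iff_exists_fun).1 hM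
  have h1 := congrArg (map (Int.castRingHom ℂ)) hc
  rw [map_sum, map_mul, map_pow, map_C, map_X] at h1
  have hD' : (D : ℂ) ≠ 0 := by exact_mod_cast hD
  have h2 : (X i : MvPolynomial σ ℂ) ^ M =
      C ((D : ℂ)⁻¹) * ∑ j, map (Int.castRingHom ℂ) (c j * g t j) := by
    rw [h1, ← mul_assoc, eq_intCast, ← C_mul, inv_mul_cancel₀ hD', C_1, one_mul]
  rw [h2]
  refine Ideal.mul_mem_left _ _ (Ideal.sum_mem _ fun j _ => ?_)
  rw [map_mul]
  exact Ideal.mul_mem_left _ _ (Ideal.subset_span ⟨j, rfl⟩)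

/-- **The origin gives a root.** -/
theorem cone_rees [Nonempty σ] (g : (t : T) → κ t → MvPolynomial σ ℤ)
    (hg : ∀ t, ∃ j, g t j ≠ 0) (d : T → ℕ) (hd : ∀ t j, (g t j).IsHomogeneous (d t)) (a : T → ℕ)
    (h : Primary g a) (hN : 0 < ∑ t, a t * d t) :
    FromRees (gC g) a 1 (Fintype.card σ) (∑ t, a t * d t) := by
  obtain ⟨t0, _, ht0⟩ := Finset.exists_ne_zero_of_sum_ne_zero hN.ne'
  have ha : a t0 ≠ 0 := left_ne_zero_of_mul ht0
  have hd0 : 0 < d t0 := Nat.pos_of_ne_zero (right_ne_zero_of_mul ht0)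
  obtain ⟨e, he⟩ := Jac.jac (gC g t0) (d t0) hd0 (gC_hom g d hd t0)
    (gC_prim g a h t0 (Nat.pos_of_ne_zero ha))
  exact fromRees_cone (gC g) d (gC_hom g d hd) (gC_ne g hg) a t0 ha hd0 e he

/-- **The strong monodromy conjecture** for forms over ideals generated by forms without common
zeros. -/
theorem cone_strong [Nonempty σ] (g : (t : T) → κ t → MvPolynomial σ ℤ)
    (hg : ∀ t, ∃ j, g t j ≠ 0) (d : T → ℕ) (hd : ∀ t j, (g t j).IsHomogeneous (d t)) (a : T → ℕ)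
    (h : Primary g a) :
    ∃ N : ℕ, ∀ (q : ℕ) [Fact q.Prime], N < q → ∀ Z : ℂ → ℂ,
      IsContinuation Z (igusaZeta q (formG g a)) →
      ∀ s₀ : ℂ, meromorphicOrderAt Z s₀ < 0 → ∀ b : Polynomial ℂ,
        IsBFunction (MvPolynomial.map (Int.castRingHom ℂ) (formG g a)) b →
        b.eval (s₀.re : ℂ) = 0 := by
  obtain ⟨N0, hN0⟩ := large g a h
  refine ⟨N0, fun q _ hq Z hZ s₀ hs₀ b hb => ?_⟩
  have h1 := lt_of_le_of_lt (cone_poles q g (fun t => ⟨(hg t).choose⟩) d hd a (hN0 q hq) Z hZ s₀)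
    hs₀
  have h2 : 0 < Nat.card {x // 0 < mulO a d x ∧
      s₀.re = -((nuO σ T x : ℝ) / mulO a d x)} := by
    by_contra hcon
    have h3 : Nat.card {x // 0 < mulO a d x ∧
      s₀.re = -((nuO σ T x : ℝ) / mulO a d x)} = 0 := by omega
    rw [h3] at h1
    simp at h1
  obtain ⟨⟨x, hx, hs⟩⟩ := (Nat.card_pos_iff.1 h2).1
  rw [hs]
  rcases x with _ | t
  · exact rees_eval g a b hb (Fintype.card σ) (∑ t, a t * d t) hx (cone_rees g hg d hd a h hx)
  · have h4 := strict_eval g hg a b hb t hx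
    have h5 : ((nuO σ T (some t) : ℕ) : ℝ) = 1 := by
      change ((1 : ℕ) : ℝ) = 1
      exact Nat.cast_one
    rw [h5]
    exact h4

end Pool.Agent.Q282.PA
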