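import Pool.Agent.Q282.PA.ConeChart

set_option autoImplicit false
set_option linter.unusedSectionVars false
set_option linter.unusedVariables false

/-! # The zeta function of ideals generated by forms without common zeros -/

namespace Pool.Agent.Q282.PA

open MeasureTheory Pool.Agent.W427.SMC Pool.Agent.TH192.PA Pool.Agent.TH187.SA
  Pool.Agent.TH192.DT MvPolynomial Pool.Agent.H628R4.TP Pool.Agent.Y228.RR
open scoped ENNReal NNReal

attribute [local instance] msZ bsZ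

variable {σ T : Type} [Fintype σ] [DecidableEq σ] [Fintype T] [DecidableEq T] {κ : T → Type}
  [∀ t, Fintype (κ t)] [∀ t, DecidableEq (κ t)]

variable (q : ℕ) [Fact q.Prime]

theorem mx_smul (g : (t : T) → κ t → MvPolynomial σ ℤ) (d : T → ℕ)
    (hd : ∀ t j, (g t j).IsHomogeneous (d t)) (t : T) (z : σ → ℤ_[q]) :
    mx q g t (fun i => (q : ℤ_[q]) * z i) = ‖(q : ℤ_[q])‖₊ ^ d t * mx q g t z := by
  unfold mx
  rw [NNReal.mul_finset_sup]
  refine Finset.sup_congr rfl fun j _ => ?_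
  rw [aeval_mul_of_hom (g t j) (d t) (hd t j), nnnorm_mul, nnnorm_pow]

theorem mx_le (g : (t : T) → κ t → MvPolynomial σ ℤ) (t : T) (x : σ → ℤ_[q]) :
    mx q g t x ≤ 1 := Finset.sup_le fun j _ => PadicInt.norm_le_one _

theorem mx_prim (g : (t : T) → κ t → MvPolynomial σ ℤ) (t : T) (x : σ → ℤ_[q]) (i : σ) (D : ℤ)
    (M : ℕ) (h : C D * X i ^ M ∈ Ideal.span (Set.range (g t))) (hD : ¬ (q : ℤ) ∣ D)
    (hx : ‖x i‖ = 1) : mx q g t x = 1 := by
  refine le_antisymm (mx_le q g t x) ?_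
  by_contra hlt
  rw [not_le] at hlt
  have h1 : ∀ j, (q : ℤ_[q]) ∣ aeval x (g t j) := by
    intro j
    rw [← PadicInt.norm_lt_one_iff_dvd]
    have h2 : ‖aeval x (g t j)‖₊ ≤ mx q g t x :=
      Finset.le_sup (f := fun j => ‖aeval x (g t j)‖₊) (Finset.mem_univ j)
    exact_mod_cast lt_of_le_of_lt h2 hlt
  obtain ⟨c, hc⟩ := (Ideal.mem_span_range_iff_exists_fun).1 h
  have h2 : (q : ℤ_[q]) ∣ (D : ℤ_[q]) * x i ^ M := by
    have h3 := congrArg (aeval x) hc
    rw [map_sum, map_mul, map_pow, aeval_X, aeval_C] at h3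
    have h4 : (algebraMap ℤ ℤ_[q]) D = (D : ℤ_[q]) := rfl
    rw [h4] at h3
    rw [← h3]
    refine Finset.dvd_sum fun j _ => ?_
    rw [map_mul]
    exact (h1 j).mul_left _
  rw [← PadicInt.norm_lt_one_iff_dvd] at h2
  obtain ⟨u, hu⟩ := unit_of_not_dvd q D hD
  have h5 : ‖(D : ℤ_[q])‖ = 1 := by
    rw [← PadicInt.isUnit_iff]
    exact IsUnit.of_mul_eq_one u (by rw [mul_comm]; exact hu)
  rw [norm_mul, norm_pow, h5, hx, one_pow, one_mul] at h2
  exact lt_irrefl _ h2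

/-- the condition: a multiple of a power of each variable is in the ideals -/
def Primary (g : (t : T) → κ t → MvPolynomial σ ℤ) (a : T → ℕ) : Prop :=
  ∀ t, 0 < a t → ∀ i, ∃ (D : ℤ) (M : ℕ), D ≠ 0 ∧ C D * X i ^ M ∈ Ideal.span (Set.range (g t))

/-- the integral of the ideals -/
noncomputable def JI (g : (t : T) → κ t → MvPolynomial σ ℤ) (a : T → ℕ) (s : ℝ) : ℝ≥0∞ :=
  ∫⁻ x, ∏ t, ((mx q g t x : ℝ≥0) : ℝ≥0∞) ^ ((a t : ℝ) * s) ∂(hm q σ)

theorem JI_le (g : (t : T) → κ t → MvPolynomial σ ℤ) (a : T → ℕ) (s : ℝ) (hs : 0 ≤ s) :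
    JI q g a s ≤ 1 := by
  unfold JI
  refine (lintegral_mono (g := fun _ => (1 : ℝ≥0∞)) fun x => ?_).trans ?_
  · refine Finset.prod_le_one' fun t _ => ?_
    refine ENNReal.rpow_le_one ?_ (by positivity)
    exact_mod_cast mx_le q g t x
  · simp

theorem large (g : (t : T) → κ t → MvPolynomial σ ℤ) (a : T → ℕ) (h : Primary g a) :
    ∃ N0 : ℕ, ∀ q : ℕ, N0 < q → ∀ t, 0 < a t → ∀ i, ∃ (D : ℤ) (M : ℕ), ¬ (q : ℤ) ∣ D ∧
      C D * X i ^ M ∈ Ideal.span (Set.range (g t)) := by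
  classical
  choose! D M hD using h
  refine ⟨∑ t, ∑ i, (D t i).natAbs, fun q hq t ht i => ⟨D t i, M t i, fun hdvd => ?_,
    (hD t ht i).2⟩⟩
  have h1 : q ≤ (D t i).natAbs := by
    have h2 : (q : ℤ).natAbs ∣ (D t i).natAbs := Int.natAbs_dvd_natAbs.2 hdvd
    rw [Int.natAbs_natCast] at h2
    exact Nat.le_of_dvd (Int.natAbs_pos.2 (hD t ht i).1) h2
  have h3 : (D t i).natAbs ≤ ∑ t, ∑ i, (D t i).natAbs :=
    (Finset.single_le_sum (f := fun i => (D t i).natAbs) (fun _ _ => Nat.zero_le _)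
      (Finset.mem_univ i)).trans
    (Finset.single_le_sum (f := fun t => ∑ i, (D t i).natAbs) (fun _ _ => Nat.zero_le _)
      (Finset.mem_univ t))
  omega

/-- **The recursion** for forms without common zeros. -/
theorem JI_step (g : (t : T) → κ t → MvPolynomial σ ℤ) (d : T → ℕ)
    (hd : ∀ t j, (g t j).IsHomogeneous (d t)) (a : T → ℕ)
    (hp : ∀ t, 0 < a t → ∀ i, ∃ (D : ℤ) (M : ℕ), ¬ (q : ℤ) ∣ D ∧
      C D * X i ^ M ∈ Ideal.span (Set.range (g t))) (s : ℝ) (hs : 0 < s) :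
    JI q g a s = ((q : ℝ≥0∞)⁻¹) ^ Fintype.card σ *
      (Tt q s ^ (∑ t, a t * d t) * JI q g a s + ((q ^ Fintype.card σ - 1 : ℕ) : ℝ≥0∞)) := by
  classical
  have hne : NeZero q := ⟨(Fact.out : q.Prime).ne_zero⟩
  have hmeas : Measurable fun x : σ → ℤ_[q] =>
      ∏ t, ((mx q g t x : ℝ≥0) : ℝ≥0∞) ^ ((a t : ℝ) * s) := by
    refine Finset.measurable_prod _ fun t _ => ?_
    exact ((mx_cont q g t).measurable.coe_nnreal_ennreal).pow_const _
  conv_lhs => unfold JI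
  rw [lintegral_smV q _ hmeas]
  unfold smV
  rw [← Finset.mul_sum]
  congr 1
  rw [← Finset.add_sum_erase Finset.univ _ (Finset.mem_univ (0 : σ → ZMod q))]
  congr 1
  · have h1 : ∀ z : σ → ℤ_[q], (∏ t, ((mx q g t (fun i =>
        (((0 : σ → ZMod q) i).val : ℤ_[q]) + (q : ℤ_[q]) * z i) : ℝ≥0) : ℝ≥0∞) ^ ((a t : ℝ) * s)) =
        Tt q s ^ (∑ t, a t * d t) * ∏ t, ((mx q g t z : ℝ≥0) : ℝ≥0∞) ^ ((a t : ℝ) * s) := by
      intro z
      have h2 : (fun i => (((0 : σ → ZMod q) i).val : ℤ_[q]) + (q : ℤ_[q]) * z i) =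
          fun i => (q : ℤ_[q]) * z i := by
        funext i
        rw [Pi.zero_apply, ZMod.val_zero, Nat.cast_zero, zero_add]
      rw [h2, ← Finset.prod_pow_eq_pow_sum, ← Finset.prod_mul_distrib]
      refine Finset.prod_congr rfl fun t _ => ?_
      rw [mx_smul q g d hd, ENNReal.coe_mul, ENNReal.mul_rpow_of_nonneg _ _ (by positivity),
        ENNReal.coe_pow, ← ENNReal.rpow_natCast_mul]
      congr 1
      rw [← norm_q q s hs.le]
      congr 1
      push_cast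
      ring
    rw [lintegral_congr h1, lintegral_const_mul _ hmeas]
    rfl
  · have h1 : ∀ w ∈ Finset.univ.erase (0 : σ → ZMod q), (∫⁻ z : σ → ℤ_[q],
        (∏ t, ((mx q g t (fun i => ((w i).val : ℤ_[q]) + (q : ℤ_[q]) * z i) : ℝ≥0) : ℝ≥0∞) ^
          ((a t : ℝ) * s)) ∂(hm q σ)) = 1 := by
      intro w hw
      have hw0 : w ≠ 0 := (Finset.mem_erase.1 hw).1
      obtain ⟨i, hi⟩ : ∃ i, w i ≠ 0 := by
        by_contra hcon
        push Not at hcon
        exact hw0 (funext hcon)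
      have h2 : ∀ z : σ → ℤ_[q], (∏ t, ((mx q g t (fun i =>
          ((w i).val : ℤ_[q]) + (q : ℤ_[q]) * z i) : ℝ≥0) : ℝ≥0∞) ^ ((a t : ℝ) * s)) = 1 := by
        intro z
        refine Finset.prod_eq_one fun t _ => ?_
        rcases Nat.eq_zero_or_pos (a t) with ha | ha
        · rw [ha, Nat.cast_zero, zero_mul, ENNReal.rpow_zero]
        · obtain ⟨D, M, hD, hM⟩ := hp t ha i
          have h3 : mx q g t (fun i => ((w i).val : ℤ_[q]) + (q : ℤ_[q]) * z i) = 1 := by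
            refine mx_prim q g t _ i D M hM hD ?_
            apply norm_of_toZMod
            have h4 := toZMod_pt q w z i
            unfold pt at h4
            rw [h4]
            exact hi
          rw [h3, ENNReal.coe_one, ENNReal.one_rpow]
      rw [lintegral_congr h2]
      simp
    rw [Finset.sum_congr rfl h1, Finset.sum_const, Finset.card_erase_of_mem (Finset.mem_univ _),
      nsmul_eq_mul, mul_one, Finset.card_univ, Fintype.card_fun, ZMod.card]

/-- the value -/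
theorem JI_real (g : (t : T) → κ t → MvPolynomial σ ℤ) (d : T → ℕ)
    (hd : ∀ t j, (g t j).IsHomogeneous (d t)) (a : T → ℕ)
    (hp : ∀ t, 0 < a t → ∀ i, ∃ (D : ℤ) (M : ℕ), ¬ (q : ℤ) ∣ D ∧
      C D * X i ^ M ∈ Ideal.span (Set.range (g t))) (s : ℝ) (hs : 0 < s) :
    ((q : ℝ) ^ Fintype.card σ - tr' q s ^ (∑ t, a t * d t)) * (JI q g a s).toReal =
      ((q ^ Fintype.card σ - 1 : ℕ) : ℝ) := by
  have hq0 : (q : ℝ) ≠ 0 := by exact_mod_cast (Fact.out : q.Prime).ne_zero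
  have h1 := congrArg ENNReal.toReal (JI_step q g d hd a hp s hs)
  have hJ : JI q g a s ≠ ⊤ := ((JI_le q g a s hs.le).trans_lt ENNReal.one_lt_top).ne
  have hT : Tt q s ≠ ⊤ := ENNReal.ofReal_ne_top
  rw [ENNReal.toReal_mul, ENNReal.toReal_add (ENNReal.mul_ne_top (ENNReal.pow_ne_top hT) hJ)
    (ENNReal.natCast_ne_top _), ENNReal.toReal_mul, ENNReal.toReal_pow, ENNReal.toReal_pow,
    ENNReal.toReal_inv, ENNReal.toReal_natCast, ENNReal.toReal_natCast, Tt_toReal] at h1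
  have h2 : (q : ℝ) ^ Fintype.card σ * ((q : ℝ)⁻¹) ^ Fintype.card σ = 1 := by
    rw [← mul_pow, mul_inv_cancel₀ hq0, one_pow]
  set J := (JI q g a s).toReal
  have h3 : (q : ℝ) ^ Fintype.card σ * J = tr' q s ^ (∑ t, a t * d t) * J +
      ((q ^ Fintype.card σ - 1 : ℕ) : ℝ) := by
    conv_lhs => rw [h1]
    rw [← mul_assoc, h2, one_mul]
  linear_combination h3

end Pool.Agent.Q282.PA
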