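import Pool.Agent.Q282.PA.ConeInt

set_option autoImplicit false
set_option linter.unusedSectionVars false
set_option linter.unusedVariables false

/-! # Poles and roots for ideals generated by forms without common zeros -/

namespace Pool.Agent.Q282.PA

open MeasureTheory Pool.Agent.W427.SMC Pool.Agent.TH192.PA Pool.Agent.TH187.SA
  Pool.Agent.TH192.DT MvPolynomial Pool.Agent.H628R4.TP Pool.Agent.Y228.RR
open scoped ENNReal NNReal

variable {σ T : Type} [Fintype σ] [DecidableEq σ] [Fintype T] [DecidableEq T] {κ : T → Type}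
  [∀ t, Fintype (κ t)] [∀ t, DecidableEq (κ t)]

theorem eval_scale (G : MvPolynomial σ ℂ) (d : ℕ) (h : G.IsHomogeneous d) (c : ℂ) (v : σ → ℂ) :
    eval (fun i => c * v i) G = c ^ d * eval v G := by
  have h1 := aeval_mul_of_hom G d h c v
  have h2 : ∀ w : σ → ℂ, aeval w G = eval w G := fun w => by
    rw [aeval_def, eval₂_eq_eval_map, Algebra.algebraMap_self, map_id]
  rwa [h2, h2] at h1

/-- **The exceptional divisor of the origin.** -/
theorem fromRees_cone [Nonempty σ] (g : (t : T) → κ t → MvPolynomial σ ℂ) (d : T → ℕ)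
    (hd : ∀ t j, (g t j).IsHomogeneous (d t)) (hg : ∀ t, ∃ j, g t j ≠ 0) (a : T → ℕ) (t0 : T)
    (ht0 : a t0 ≠ 0) (hd0 : 0 < d t0) (e : σ → κ t0)
    (hJ : (Matrix.of fun i k => pderiv k (g t0 (e i))).det ≠ 0) :
    FromRees g a 1 (Fintype.card σ) (∑ t, a t * d t) := by
  classical
  choose jt hjt using hg
  set J : MvPolynomial σ ℂ := (Matrix.of fun i k => pderiv k (g t0 (e i))).det with hJd
  obtain ⟨v, hv⟩ : ∃ v : σ → ℂ, eval v ((∏ i, X i) * J * ∏ t, g t (jt t)) ≠ 0 := by
    by_contra hcon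
    push Not at hcon
    have h1 : (∏ i, (X i : MvPolynomial σ ℂ)) * J * ∏ t, g t (jt t) = 0 :=
      MvPolynomial.funext fun v => by rw [hcon v, map_zero]
    refine absurd h1 (mul_ne_zero (mul_ne_zero ?_ hJ) ?_)
    · exact Finset.prod_ne_zero_iff.2 fun i _ => X_ne_zero i
    · exact Finset.prod_ne_zero_iff.2 fun t _ => hjt t
  rw [map_mul, map_mul, map_prod, map_prod] at hv
  have hv1 : ∀ i, v i ≠ 0 := by
    intro i
    have := Finset.prod_ne_zero_iff.1 (left_ne_zero_of_mul (left_ne_zero_of_mul hv)) i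
      (Finset.mem_univ i)
    rwa [eval_X] at this
  have hv2 : eval v J ≠ 0 := right_ne_zero_of_mul (left_ne_zero_of_mul hv)
  have hv3 : ∀ t, eval v (g t (jt t)) ≠ 0 := fun t =>
    Finset.prod_ne_zero_iff.1 (right_ne_zero_of_mul hv) t (Finset.mem_univ t)
  have hv2' : (Matrix.of fun i k => eval v (pderiv k (g t0 (e i)))).det ≠ 0 := by
    intro h
    apply hv2
    rw [hJd, RingHom.map_det]
    exact h
  have heuler : ∀ i, ∑ k, v k * eval v (pderiv k (g t0 (e i))) =
      d t0 * eval v (g t0 (e i)) := by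
    intro i
    have h1 := congrArg (MvPolynomial.eval v) (hd t0 (e i)).sum_X_mul_pderiv
    rw [map_sum] at h1
    simp only [map_mul, MvPolynomial.eval_X, nsmul_eq_mul, map_natCast] at h1
    exact h1
  obtain ⟨z, hz⟩ : ∃ z, eval v (g t0 (e z)) ≠ 0 := by
    by_contra hcon
    push Not at hcon
    apply hv2'
    refine Matrix.exists_mulVec_eq_zero_iff.1 ⟨v, ?_, ?_⟩
    · intro h
      exact hv1 (Classical.arbitrary σ) (congrFun h _)
    · funext i
      change ∑ k, eval v (pderiv k (g t0 (e i))) * v k = 0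
      have h1 := heuler i
      rw [hcon i, mul_zero] at h1
      rw [← h1]
      exact Finset.sum_congr rfl fun k _ => mul_comm _ _
  have hc : (v z)⁻¹ ≠ 0 := inv_ne_zero (hv1 z)
  set v' : σ → ℂ := fun i => (v z)⁻¹ * v i with hv'
  have hv'z : v' z = 1 := inv_mul_cancel₀ (hv1 z)
  have hj : ∀ t, eval v' (g t (Function.update jt t0 (e z) t)) ≠ 0 := by
    intro t
    by_cases ht : t = t0
    · subst ht
      rw [Function.update_self, hv', eval_scale _ _ (hd t (e z))]
      exact mul_ne_zero (pow_ne_zero _ hc) hz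
    · rw [Function.update_of_ne ht, hv', eval_scale _ _ (hd t (jt t))]
      exact mul_ne_zero (pow_ne_zero _ hc) (hv3 t)
  have hJ' : (Matrix.of fun i k => eval v' (pderiv k (g t0 (e i)))).det ≠ 0 := by
    have h1 : (Matrix.of fun i k => eval v' (pderiv k (g t0 (e i)))) =
        ((v z)⁻¹ ^ (d t0 - 1)) • (Matrix.of fun i k => eval v (pderiv k (g t0 (e i)))) := by
      ext i k
      rw [Matrix.smul_apply, Matrix.of_apply, Matrix.of_apply, hv',
        eval_scale _ _ ((hd t0 (e i)).pderiv), smul_eq_mul]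
    rw [h1, Matrix.det_smul]
    exact mul_ne_zero (pow_ne_zero _ (pow_ne_zero _ hc)) hv2'
  have hE := coneChart_rees g d hd z v' hv'z (Function.update jt t0 (e z)) hj
    (fun t => a t ≠ 0) t0 ht0 hd0 e (Function.update_self t0 (e z) jt) hJ'
  have hmul : (coneChart g d hd z v' hv'z (Function.update jt t0 (e z)) hj).mul a =
      ∑ t, a t * d t := rfl
  have hpos : 0 < ∑ t, a t * d t :=
    Finset.sum_pos' (fun t _ => Nat.zero_le _) ⟨t0, Finset.mem_univ t0,
      Nat.mul_pos (Nat.pos_of_ne_zero ht0) hd0⟩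
  have h1 := fromRees_self (a := a) (H := 1)
    (coneChart g d hd z v' hv'z (Function.update jt t0 (e z)) hj) hE
    (by rw [map_one, map_one]; exact one_ne_zero) (by rw [hmul]; exact hpos)
  rw [hmul] at h1
  have h2 : (coneChart g d hd z v' hv'z (Function.update jt t0 (e z)) hj).k + 1 =
      Fintype.card σ := by
    change Fintype.card σ - 1 + 1 = _
    have := Fintype.card_pos (α := σ)
    omega
  rwa [h2] at h1

section poles

attribute [local instance] msZ bsZ

variable (q : ℕ) [Fact q.Prime]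

/-- the numerical data -/
def nuO (σ T : Type) [Fintype σ] : Option T → ℕ
  | none => Fintype.card σ
  | some _ => 1

/-- the numerical data -/
def mulO (a d : T → ℕ) : Option T → ℕ
  | none => ∑ t, a t * d t
  | some t => a t

theorem cone_rel (g : (t : T) → κ t → MvPolynomial σ ℤ) (hκ : ∀ t, Nonempty (κ t)) (d : T → ℕ)
    (hd : ∀ t j, (g t j).IsHomogeneous (d t)) (a : T → ℕ)
    (hp : ∀ t, 0 < a t → ∀ i, ∃ (D : ℤ) (M : ℕ), ¬ (q : ℤ) ∣ D ∧
      C D * X i ^ M ∈ Ideal.span (Set.range (g t))) (s : ℝ) (hs : 0 < s) :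
    (Rc q (nuO σ T) (mulO a d)).eval (pw q s) * igusaZeta q (formG g a) s =
      (Polynomial.C ((∏ _t : T, ((q : ℂ) - 1)) * ((q ^ Fintype.card σ - 1 : ℕ) : ℂ))).eval
        (pw q s) := by
  have h1 := real_rel q g hκ a s hs
  rw [idealsZeta_eq q g a s hs] at h1
  have h2 := congrArg (fun r : ℝ => (r : ℂ)) (JI_real q g d hd a hp s hs)
  simp only [Complex.ofReal_mul, Complex.ofReal_sub, Complex.ofReal_pow,
    Complex.ofReal_natCast] at h2
  have h3 : (Rc q (nuO σ T) (mulO a d)).eval (pw q s) =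
      ((q : ℂ) ^ Fintype.card σ - (tr' q s : ℂ) ^ (∑ t, a t * d t)) *
        (Dp q a).eval (pw q s) := by
    unfold Rc Dp
    rw [Fintype.prod_option, Polynomial.eval_mul]
    congr 1
    · rw [Polynomial.eval_sub, Polynomial.eval_C, Polynomial.eval_pow, Polynomial.eval_X, pw_real]
      change ((q ^ Fintype.card σ : ℕ) : ℂ) - _ = _
      push_cast
      rfl
  rw [h3, Polynomial.eval_C, mul_assoc, h1, ← h2]
  unfold JI
  ring

theorem cone_poles [Nonempty σ] (g : (t : T) → κ t → MvPolynomial σ ℤ)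
    (hκ : ∀ t, Nonempty (κ t)) (d : T → ℕ)
    (hd : ∀ t j, (g t j).IsHomogeneous (d t)) (a : T → ℕ)
    (hp : ∀ t, 0 < a t → ∀ i, ∃ (D : ℤ) (M : ℕ), ¬ (q : ℤ) ∣ D ∧
      C D * X i ^ M ∈ Ideal.span (Set.range (g t))) (Z : ℂ → ℂ)
    (hZ : IsContinuation Z (igusaZeta q (formG g a))) (s0 : ℂ) :
    ((-(Nat.card {x // 0 < mulO a d x ∧ s0.re = -((nuO σ T x : ℝ) / mulO a d x)} : ℤ) : ℤ) :
      WithTop ℤ) ≤ meromorphicOrderAt Z s0 := by
  have hq1 : 1 < q := (Fact.out : q.Prime).one_lt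
  have hν : ∀ x : Option T, 0 < nuO σ T x := by
    rintro (_ | t)
    · exact Fintype.card_pos
    · exact one_pos
  have h1 := mero_bound q (Rc q (nuO σ T) (mulO a d)) _ (Rc_ne q hq1 _ _ hν) Z hZ.1
    (fun s hs => by rw [hZ.2 s (by simpa using hs)]; exact cone_rel q g hκ d hd a hp s hs) s0
  refine le_trans ?_ h1
  rw [WithTop.coe_le_coe, neg_le_neg_iff]
  have h2 := Rc_rm q hq1 (nuO σ T) (mulO a d) hν (pw q s0)
  rw [pw_norm] at h2
  exact_mod_cast h2

end poles

end Pool.Agent.Q282.PA
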