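import Pool.Agent.Q282.PA.Pol
import Pool.Agent.TH187.SA.Classes

set_option autoImplicit false
set_option linter.unusedSectionVars false
set_option linter.unusedVariables false

/-! # The zeta function of a form over products of linear ideals -/

namespace Pool.Agent.Q282.PA

open MeasureTheory Pool.Agent.W427.SMC Pool.Agent.TH192.PA Pool.Agent.TH187.SA
  Pool.Agent.TH192.DT MvPolynomial
open scoped ENNReal NNReal

attribute [local instance] msZ bsZ

section sup

theorem sup_pi {P : Type} [Fintype P] [DecidableEq P] {κ : P → Type} [∀ p, Fintype (κ p)]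
    [∀ p, DecidableEq (κ p)] (hκ : ∀ p, Nonempty (κ p)) (a : (p : P) → κ p → ℝ≥0) :
    (Finset.univ.sup fun j : (p : P) → κ p => ∏ p, a p (j p)) =
      ∏ p, Finset.univ.sup (a p) := by
  apply le_antisymm
  · refine Finset.sup_le fun j _ => ?_
    exact Finset.prod_le_prod' fun p _ => Finset.le_sup (Finset.mem_univ (j p))
  · have h : ∀ p, ∃ j0, Finset.univ.sup (a p) = a p j0 := by
      intro p
      have := hκ p
      obtain ⟨j0, _, h⟩ := Finset.exists_max_image Finset.univ (a p) Finset.univ_nonempty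
      exact ⟨j0, le_antisymm (Finset.sup_le fun j hj => h j hj) (Finset.le_sup (Finset.mem_univ _))⟩
    choose j0 hj0 using h
    simp only [hj0]
    exact Finset.le_sup (f := fun j : (p : P) → κ p => ∏ p, a p (j p)) (Finset.mem_univ j0)

end sup

variable {σ : Type} [Fintype σ] [DecidableEq σ] {S : Type} [Fintype S] [DecidableEq S]
  {κ : S → Type} [∀ s, Fintype (κ s)] [∀ s, DecidableEq (κ s)]
  {T : Type} [Fintype T] [DecidableEq T]

/-- The linear form with the integral coefficients `c`. -/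
noncomputable def linZ (c : σ → ℤ) : MvPolynomial σ ℤ := ∑ i, C (c i) * X i

/-- The products of the linear forms, `e s` of them from the family of index `s`. -/
noncomputable def arrGenZ (c : (s : S) → Matrix (κ s) σ ℤ) (e : S → ℕ)
    (j : (p : Σ s, Fin (e s)) → κ p.1) : MvPolynomial σ ℤ :=
  ∏ p, linZ (c p.1 (j p))

/-- The polynomial `∏ t, (∑_j y_{t,j} M_{t,j}(x)) ^ a t`. -/
noncomputable def formZ (c : (s : S) → Matrix (κ s) σ ℤ) (e : T → S → ℕ) (a : T → ℕ) :
    MvPolynomial ((Σ t, ((p : Σ s, Fin (e t s)) → κ p.1)) ⊕ σ) ℤ :=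
  ∏ t, (∑ j, X (Sum.inl ⟨t, j⟩) * rename Sum.inr (arrGenZ c (e t) j)) ^ a t

/-- complex coefficients -/
def cC (c : (s : S) → Matrix (κ s) σ ℤ) (s : S) (j : κ s) (i : σ) : ℂ := (c s j i : ℂ)

theorem map_linZ (c : σ → ℤ) :
    map (Int.castRingHom ℂ) (linZ c) = lin (fun i => (c i : ℂ)) := by
  unfold linZ lin
  rw [map_sum]
  refine Finset.sum_congr rfl fun i _ => ?_
  rw [map_mul, map_C, map_X]
  rfl

theorem map_arrGenZ (c : (s : S) → Matrix (κ s) σ ℤ) (e : S → ℕ)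
    (j : (p : Σ s, Fin (e s)) → κ p.1) :
    map (Int.castRingHom ℂ) (arrGenZ c e j) = arrGen (cC c) e j := by
  unfold arrGenZ arrGen prodFam
  rw [map_prod]
  refine Finset.prod_congr rfl fun p _ => ?_
  exact map_linZ _

theorem map_formZ' (c : (s : S) → Matrix (κ s) σ ℤ) (e : T → S → ℕ) (a : T → ℕ) :
    map (Int.castRingHom ℂ) (formZ c e a) = powProd a fun t => arrGen (cC c) (e t) := by
  unfold formZ powProd blockForm
  rw [map_prod]
  refine Finset.prod_congr rfl fun t _ => ?_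
  rw [map_pow, map_sum]
  congr 1
  refine Finset.sum_congr rfl fun j _ => ?_
  rw [map_mul, map_X, map_rename, map_arrGenZ]

variable (q : ℕ) [Fact q.Prime]

theorem aeval_linZ (c : (s : S) → Matrix (κ s) σ ℤ) (s : S) (j : κ s) (x : σ → ℤ_[q]) :
    aeval x (linZ (c s j)) = mv ℤ_[q] (c s) x j := by
  unfold linZ mv
  rw [map_sum]
  refine Finset.sum_congr rfl fun i _ => ?_
  rw [map_mul, aeval_C, aeval_X, eq_intCast]

theorem sup_arrGenZ (c : (s : S) → Matrix (κ s) σ ℤ) (hκ : ∀ s, Nonempty (κ s)) (e : S → ℕ)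
    (x : σ → ℤ_[q]) : (Finset.univ.sup fun j => ‖aeval x (arrGenZ c e j)‖₊) =
      ∏ s, dst q (c s) x ^ e s := by
  have h1 : ∀ j : (p : Σ s, Fin (e s)) → κ p.1, ‖aeval x (arrGenZ c e j)‖₊ =
      ∏ p : Σ s, Fin (e s), ‖mv ℤ_[q] (c p.1) x (j p)‖₊ := by
    intro j
    unfold arrGenZ
    rw [map_prod, nnnorm_prod]
    refine Finset.prod_congr rfl fun p _ => ?_
    rw [aeval_linZ]
  simp only [h1]
  rw [sup_pi (fun p => hκ p.1) (fun (p : Σ s, Fin (e s)) (j : κ p.1) => ‖mv ℤ_[q] (c p.1) x j‖₊),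
    Fintype.prod_sigma]
  refine Finset.prod_congr rfl fun s _ => ?_
  change (∏ _y : Fin (e s), dst q (c s) x) = _
  rw [Finset.prod_const, Finset.card_univ, Fintype.card_fin]

/-- the exponents -/
def nn (e : T → S → ℕ) (a : T → ℕ) (s : S) : ℕ := ∑ t, a t * e t s

/-- the indices which occur -/
def AA (e : T → S → ℕ) (a : T → ℕ) : Finset S := Finset.univ.filter fun s => nn e a s ≠ 0

theorem mem_AA (e : T → S → ℕ) (a : T → ℕ) (s : S) : s ∈ AA e a ↔ Occurs e a s := by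
  unfold AA nn Occurs
  rw [Finset.mem_filter]
  simp only [Finset.mem_univ, true_and, ne_eq, Finset.sum_eq_zero_iff, not_forall, mul_eq_zero,
    not_or]
  constructor
  · rintro ⟨t, h⟩
    exact ⟨t, by simpa using h⟩
  · rintro ⟨t, h⟩
    exact ⟨t, by simpa using h⟩

theorem prod_norms (c : (s : S) → Matrix (κ s) σ ℤ) (hκ : ∀ s, Nonempty (κ s)) (e : T → S → ℕ)
    (a : T → ℕ) (t' : ℝ) (ht : 0 ≤ t') (x : σ → ℤ_[q]) :
    ∏ t, ((Finset.univ.sup fun j => ‖aeval x (arrGenZ c (e t) j)‖₊ : ℝ≥0) : ℝ≥0∞) ^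
      ((a t : ℝ) * t') = FB q c (nn e a) t' (AA e a) x := by
  have h0 : ∀ (y : ℝ≥0∞) (m : ℕ), y ^ ((m : ℝ) * t') = (y ^ t') ^ m := by
    intro y m
    rw [mul_comm, ENNReal.rpow_mul, ENNReal.rpow_natCast]
  have h1 : FB q c (nn e a) t' (AA e a) x = FB q c (nn e a) t' Finset.univ x := by
    unfold FB
    refine Finset.prod_subset (Finset.subset_univ _) fun s _ hs => ?_
    have h2 : nn e a s = 0 := by
      by_contra h
      exact hs (Finset.mem_filter.2 ⟨Finset.mem_univ s, h⟩)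
    rw [h2, Nat.cast_zero, zero_mul, ENNReal.rpow_zero]
  rw [h1]
  unfold FB
  simp only [sup_arrGenZ q c hκ, h0]
  have h2 : ∀ t, (((∏ s, dst q (c s) x ^ e t s : ℝ≥0) : ℝ≥0∞) ^ t') ^ a t =
      ∏ s, (((dst q (c s) x : ℝ≥0) : ℝ≥0∞) ^ t') ^ (a t * e t s) := by
    intro t
    rw [ENNReal.ofNNReal_finsetProd, ← ENNReal.prod_rpow_of_nonneg ht, ← Finset.prod_pow]
    refine Finset.prod_congr rfl fun s _ => ?_
    rw [ENNReal.coe_pow, ← ENNReal.rpow_natCast_mul, h0, ← pow_mul, mul_comm]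
  simp only [h2]
  rw [Finset.prod_comm]
  refine Finset.prod_congr rfl fun s _ => ?_
  rw [Finset.prod_pow_eq_pow_sum]
  rfl


theorem aeval_formZ' (c : (s : S) → Matrix (κ s) σ ℤ) (e : T → S → ℕ) (a : T → ℕ)
    (z : (Σ t, ((p : Σ s, Fin (e t s)) → κ p.1)) ⊕ σ → ℤ_[q]) : aeval z (formZ c e a) =
      ∏ t, (∑ j, z (Sum.inl ⟨t, j⟩) * aeval (z ∘ Sum.inr) (arrGenZ c (e t) j)) ^ a t := by
  unfold formZ
  rw [map_prod]
  refine Finset.prod_congr rfl fun t _ => ?_
  rw [map_pow, map_sum]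
  congr 1
  refine Finset.sum_congr rfl fun j _ => ?_
  rw [map_mul, aeval_X, aeval_rename]

theorem aeval_cont {V : Type} [Fintype V] (F : MvPolynomial V ℤ) :
    Continuous fun z : V → ℤ_[q] => aeval z F := by
  have : (fun z : V → ℤ_[q] => aeval z F) =
      fun z => eval z (map (Int.castRingHom ℤ_[q]) F) := by
    funext z
    rw [aeval_def, eval_map]
    rfl
  rw [this]
  exact MvPolynomial.continuous_eval _

/-- **The zeta function of the form.** -/
theorem igusa_eq' (c : (s : S) → Matrix (κ s) σ ℤ) (hκ : ∀ s, Nonempty (κ s)) (e : T → S → ℕ)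
    (a : T → ℕ) (s : ℝ) (hs : 0 < s) :
    ∫⁻ z : (Σ t, ((p : Σ s, Fin (e t s)) → κ p.1)) ⊕ σ → ℤ_[q], tau q s (aeval z (formZ c e a))
        ∂(hm q ((Σ t, ((p : Σ s, Fin (e t s)) → κ p.1)) ⊕ σ)) =
      GB q c (nn e a) s (AA e a) * ∏ t, phi q ((a t : ℝ) * s) := by
  have hmz : Measurable fun z : (Σ t, ((p : Σ s, Fin (e t s)) → κ p.1)) ⊕ σ → ℤ_[q] =>
      tau q s (aeval z (formZ c e a)) := ((tau_cont q s hs.le).comp (aeval_cont q _)).measurable
  rw [lintegral_sum q _ hmz]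
  have h1 : ∀ x : σ → ℤ_[q], ∫⁻ y : (Σ t, ((p : Σ s, Fin (e t s)) → κ p.1)) → ℤ_[q],
      tau q s (aeval (Sum.elim y x) (formZ c e a)) ∂(hm q (Σ t, ((p : Σ s, Fin (e t s)) → κ p.1))) =
      FB q c (nn e a) s (AA e a) x * ∏ t, phi q ((a t : ℝ) * s) := by
    intro x
    have h2 := y_int q (fun t j => aeval x (arrGenZ c (e t) j))
      (fun t => ⟨fun p => (hκ p.1).some⟩) (fun t => (a t : ℝ) * s) (fun t => by positivity)
    rw [← prod_norms q c hκ e a s hs.le x, ← Finset.prod_mul_distrib]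
    refine Eq.trans (lintegral_congr fun y => ?_) h2
    rw [aeval_formZ', tau_prod]
    refine Finset.prod_congr rfl fun t _ => ?_
    rw [tau_pow']
    rfl
  have h3 : ∀ x : σ → ℤ_[q], ∫⁻ y : (Σ t, ((p : Σ s, Fin (e t s)) → κ p.1)) → ℤ_[q],
      (fun z : (Σ t, ((p : Σ s, Fin (e t s)) → κ p.1)) ⊕ σ → ℤ_[q] => tau q s (aeval z (formZ c e a)))
        (Sum.elim y x) ∂(hm q (Σ t, ((p : Σ s, Fin (e t s)) → κ p.1))) = _ := h1
  rw [lintegral_congr h3, lintegral_mul_const _ (FB_meas q c (nn e a) s (AA e a))]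
  rfl

/-- the common zeros of the families of index in `C` -/
noncomputable def flat (c : (s : S) → Matrix (κ s) σ ℤ) (C : Finset S) : Submodule ℂ (σ → ℂ) :=
  ker ℂ (rows c C)

/-- the index set of the irreducible flats -/
abbrev Ix (c : (s : S) → Matrix (κ s) σ ℤ) (e : T → S → ℕ) (a : T → ℕ) : Type :=
  {C : Finset S // C ∈ irrs c (AA e a) (AA e a)}

/-- the irreducible flats -/
noncomputable def Gx (c : (s : S) → Matrix (κ s) σ ℤ) (e : T → S → ℕ) (a : T → ℕ)
    (C : Ix c e a) : Submodule ℂ (σ → ℂ) := flat c C.1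

theorem zeros_cC (c : (s : S) → Matrix (κ s) σ ℤ) (s : S) : zeros (cC c s) = ker ℂ (c s) := by
  ext x
  rw [mem_zeros, mem_ker']
  constructor
  · intro h
    funext j
    exact h j
  · intro h j
    exact congrFun h j

/-- the multiplicities -/
theorem mul_Gx (c : (s : S) → Matrix (κ s) σ ℤ) (e : T → S → ℕ) (a : T → ℕ) (C : Ix c e a) :
    mulA (fun s => zeros (cC c s)) e a (Gx c e a) (Sum.inl C) = ∑ s ∈ C.1, nn e a s := by
  classical
  have hC := ((mem_irrs c _ _ _).1 C.2).1.1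
  change ∑ t, a t * mult (fun s => zeros (cC c s)) (e t) (Gx c e a C) = _
  have h1 : ∀ s, s ∉ C.1 → Gx c e a C ≤ zeros (cC c s) → nn e a s = 0 := by
    intro s hs hle
    by_contra h
    apply hs
    refine hC.2 s (Finset.mem_filter.2 ⟨Finset.mem_univ s, h⟩) ?_
    rw [← zeros_cC c s]
    exact hle
  have h2 : ∀ s ∈ C.1, Gx c e a C ≤ zeros (cC c s) := by
    intro s hs
    rw [zeros_cC]
    exact ker_rows_le c ℂ hs
  have h3 : ∑ s ∈ C.1, nn e a s = ∑ s, if Gx c e a C ≤ zeros (cC c s) then nn e a s else 0 := by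
    rw [← Finset.sum_filter]
    refine Finset.sum_subset (fun s hs => Finset.mem_filter.2 ⟨Finset.mem_univ s, h2 s hs⟩) ?_
    intro s hs hs'
    exact h1 s hs' (Finset.mem_filter.1 hs).2
  rw [h3]
  unfold mult nn
  simp only [Finset.mul_sum]
  rw [Finset.sum_comm]
  refine Finset.sum_congr rfl fun s _ => ?_
  by_cases h : Gx c e a C ≤ zeros (cC c s)
  · simp [h]
  · simp [h]


/-- **Rationality** of the zeta function. -/
theorem form_rat (c : (s : S) → Matrix (κ s) σ ℤ) (hκ : ∀ s, Nonempty (κ s))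
    (hc : ∀ s, ker ℂ (c s) ≠ ⊤) (e : T → S → ℕ) (a : T → ℕ) (hg : Good q c) :
    ∃ P : Polynomial ℂ, ∀ s : ℝ, 0 < s →
      (Rc q (nuA (Gx c e a) T) (mulA (fun s => zeros (cC c s)) e a (Gx c e a))).eval (pw q s) *
        igusaZeta q (formZ c e a) s = P.eval (pw q s) := by
  have hq0 : (q : ℂ) ≠ 0 := by exact_mod_cast (Fact.out : q.Prime).ne_zero
  obtain ⟨P, hP⟩ := rat_main q c (nn e a) hg (AA e a) (fun s _ => hc s) (AA e a)
    ⟨Finset.Subset.refl _, fun s hs _ => hs⟩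
  refine ⟨Polynomial.C (∏ C : Ix c e a, ((q ^ cod c C.1 : ℕ) : ℂ)) * P.map Complex.ofRealHom *
    Polynomial.C (∏ _t : T, ((q : ℂ) - 1)), fun s hs => ?_⟩
  rw [hm_igusa, igusa_eq' q c hκ e a s hs, ENNReal.toReal_mul, pw_real]
  set G : ℝ := (GB q c (nn e a) s (AA e a)).toReal with hG
  have h1 := congrArg (fun r : ℝ => (r : ℂ)) (hP s hs)
  have h2 : ((P.eval (tr' q s) : ℝ) : ℂ) = (P.map Complex.ofRealHom).eval ((tr' q s : ℝ) : ℂ) := by
    rw [Polynomial.eval_map]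
    exact (Polynomial.hom_eval₂ P (RingHom.id ℝ) Complex.ofRealHom (tr' q s)).symm ▸ rfl
  have h3 : (Rc q (nuA (Gx c e a) T) (mulA (fun s => zeros (cC c s)) e a (Gx c e a))).eval
      ((tr' q s : ℝ) : ℂ) =
      (∏ C : Ix c e a, (((q ^ cod c C.1 : ℕ) : ℂ) -
        (tr' q s : ℂ) ^ (∑ s ∈ C.1, nn e a s))) * ∏ t, ((q : ℂ) - (tr' q s : ℂ) ^ a t) := by
    unfold Rc
    rw [Fintype.prod_sum_type, Polynomial.eval_mul, Polynomial.eval_prod, Polynomial.eval_prod]
    congr 1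
    · refine Finset.prod_congr rfl fun C _ => ?_
      rw [Polynomial.eval_sub, Polynomial.eval_C, Polynomial.eval_pow, Polynomial.eval_X, mul_Gx]
      rfl
    · refine Finset.prod_congr rfl fun t _ => ?_
      rw [Polynomial.eval_sub, Polynomial.eval_C, Polynomial.eval_pow, Polynomial.eval_X]
      change ((q ^ 1 : ℕ) : ℂ) - _ = _
      rw [pow_one]
      rfl
  have h4 : (((den q c (nn e a) (AA e a) (AA e a)).eval (tr' q s) : ℝ) : ℂ) *
      (∏ C : Ix c e a, ((q ^ cod c C.1 : ℕ) : ℂ)) =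
      ∏ C : Ix c e a, (((q ^ cod c C.1 : ℕ) : ℂ) - (tr' q s : ℂ) ^ (∑ s ∈ C.1, nn e a s)) := by
    unfold den
    rw [← Finset.prod_coe_sort, Polynomial.eval_prod, Complex.ofReal_prod,
      ← Finset.prod_mul_distrib]
    refine Finset.prod_congr rfl fun C _ => ?_
    unfold fac
    rw [Polynomial.eval_sub, Polynomial.eval_one, Polynomial.eval_mul, Polynomial.eval_C,
      Polynomial.eval_pow, Polynomial.eval_X]
    push_cast
    rw [inv_pow]
    have h5 : (q : ℂ) ^ cod c C.1 ≠ 0 := pow_ne_zero _ hq0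
    field_simp
  have h6 : (∏ t, ((q : ℂ) - (tr' q s : ℂ) ^ a t)) *
      (((∏ t, phi q ((a t : ℝ) * s)).toReal : ℝ) : ℂ) = ∏ _t : T, ((q : ℂ) - 1) := by
    rw [ENNReal.toReal_prod, Complex.ofReal_prod, ← Finset.prod_mul_distrib]
    refine Finset.prod_congr rfl fun t _ => ?_
    have h7 := phi_eq q ((a t : ℝ) * s) (by positivity)
    have h8 : (q : ℝ) ^ (-((a t : ℝ) * s)) = tr' q s ^ a t := tr'_nat q s (a t)
    rw [h8] at h7
    have h9 := congrArg (fun r : ℝ => (r : ℂ)) h7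
    simp only [Complex.ofReal_mul, Complex.ofReal_sub, Complex.ofReal_pow, Complex.ofReal_natCast,
      Complex.ofReal_one] at h9
    exact h9
  rw [h3, Polynomial.eval_mul, Polynomial.eval_mul, Polynomial.eval_C, Polynomial.eval_C, ← h2,
    ← hP s hs, ← h4, ← h6]
  push_cast
  ring

/-- **The orders of the poles of the zeta function.** -/
theorem form_poles (c : (s : S) → Matrix (κ s) σ ℤ) (hκ : ∀ s, Nonempty (κ s))
    (hc : ∀ s, ker ℂ (c s) ≠ ⊤) (e : T → S → ℕ) (a : T → ℕ) (hg : Good q c)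
    (g : ℂ → ℂ) (hm : MeromorphicOn g Set.univ)
    (h : ∀ s : ℂ, 0 < s.re → g s = igusaZeta q (formZ c e a) s)
    (hν : ∀ x, 0 < nuA (Gx c e a) T x) (s0 : ℂ) :
    ((-(Nat.card {x // 0 < mulA (fun s => zeros (cC c s)) e a (Gx c e a) x ∧
      s0.re = -((nuA (Gx c e a) T x : ℝ) / mulA (fun s => zeros (cC c s)) e a (Gx c e a) x)} : ℤ) :
        ℤ) : WithTop ℤ) ≤ meromorphicOrderAt g s0 := by
  obtain ⟨P, hP⟩ := form_rat q c hκ hc e a hg
  have hq1 : 1 < q := (Fact.out : q.Prime).one_lt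
  have h1 := mero_bound q (Rc q (nuA (Gx c e a) T) (mulA (fun s => zeros (cC c s)) e a (Gx c e a)))
    P (Rc_ne q hq1 _ _ hν) g hm
    (fun s hs => by rw [h s (by simpa using hs)]; exact hP s hs) s0
  refine le_trans ?_ h1
  rw [WithTop.coe_le_coe, neg_le_neg_iff]
  have h2 := Rc_rm q hq1 (nuA (Gx c e a) T)
    (mulA (fun s => zeros (cC c s)) e a (Gx c e a)) hν (pw q s0)
  rw [pw_norm] at h2
  exact_mod_cast h2

end Pool.Agent.Q282.PA
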