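import Pool.Agent.Q282.PA.Form
import Pool.Agent.Y228.RR.Top

set_option autoImplicit false
set_option linter.unusedSectionVars false
set_option linter.unusedVariables false

/-! # The zeta function of a form over arbitrary ideals and the zeta function of the ideals -/

namespace Pool.Agent.Q282.PA

open MeasureTheory Pool.Agent.W427.SMC Pool.Agent.TH192.PA Pool.Agent.TH187.SA
  Pool.Agent.TH192.DT MvPolynomial Pool.Agent.H628R4.TP Pool.Agent.Y228.RR
open scoped ENNReal NNReal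

/-- The integral `∫ ∏ t, (max_j |g t j (x)|) ^ (a t * s) dx` over `ℤ_q ^ σ`, Haar measure of mass one:
the zeta function of the ideals generated by the `g t j` with the exponents `a t`. -/
noncomputable def idealsZeta (q : ℕ) [Fact q.Prime] {σ T : Type} [Fintype σ] [Fintype T]
    {κ : T → Type} [∀ t, Fintype (κ t)] (g : (t : T) → κ t → MvPolynomial σ ℤ) (a : T → ℕ)
    (s : ℂ) : ℂ :=
  letI : MeasurableSpace (σ → ℤ_[q]) := borel _
  haveI : BorelSpace (σ → ℤ_[q]) := ⟨rfl⟩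
  ∫ x : σ → ℤ_[q], ∏ t, (((Finset.univ.sup fun j => ‖aeval x (g t j)‖₊ : ℝ≥0) : ℝ) : ℂ) ^
      ((a t : ℂ) * s)
    ∂(Measure.addHaarMeasure (⊤ : TopologicalSpace.PositiveCompacts (σ → ℤ_[q])))

variable {σ T : Type} [Fintype σ] [DecidableEq σ] [Fintype T] [DecidableEq T] {κ : T → Type}
  [∀ t, Fintype (κ t)] [∀ t, DecidableEq (κ t)]

/-- The polynomial `∏ t, (∑_j y_{t,j} g t j (x)) ^ a t`. -/
noncomputable def formG (g : (t : T) → κ t → MvPolynomial σ ℤ) (a : T → ℕ) :
    MvPolynomial ((Σ t, κ t) ⊕ σ) ℤ :=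
  ∏ t, (∑ j, X (Sum.inl ⟨t, j⟩) * rename Sum.inr (g t j)) ^ a t

/-- complex coefficients -/
noncomputable def gC (g : (t : T) → κ t → MvPolynomial σ ℤ) (t : T) (j : κ t) : MvPolynomial σ ℂ :=
  map (Int.castRingHom ℂ) (g t j)

theorem map_formG (g : (t : T) → κ t → MvPolynomial σ ℤ) (a : T → ℕ) :
    map (Int.castRingHom ℂ) (formG g a) = powProd a (gC g) := by
  unfold formG powProd blockForm
  rw [map_prod]
  refine Finset.prod_congr rfl fun t _ => ?_
  rw [map_pow, map_sum]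
  congr 1
  refine Finset.sum_congr rfl fun j _ => ?_
  rw [map_mul, map_X, map_rename]
  rfl

section real

attribute [local instance] msZ bsZ

variable (q : ℕ) [Fact q.Prime]

/-- the maximal norm -/
noncomputable def mx (g : (t : T) → κ t → MvPolynomial σ ℤ) (t : T) (x : σ → ℤ_[q]) : ℝ≥0 :=
  Finset.univ.sup fun j => ‖aeval x (g t j)‖₊

theorem mx_cont (g : (t : T) → κ t → MvPolynomial σ ℤ) (t : T) : Continuous (mx q g t) := by
  unfold mx
  refine Continuous.finset_sup_apply ?_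
  intro j _
  exact (aeval_cont q (g t j)).nnnorm

/-- the integrand -/
noncomputable def itg (g : (t : T) → κ t → MvPolynomial σ ℤ) (a : T → ℕ) (s : ℝ)
    (x : σ → ℤ_[q]) : ℝ := ∏ t, ((mx q g t x : ℝ≥0) : ℝ) ^ ((a t : ℝ) * s)

theorem itg_cont (g : (t : T) → κ t → MvPolynomial σ ℤ) (a : T → ℕ) (s : ℝ) (hs : 0 < s) :
    Continuous (itg q g a s) := by
  unfold itg
  refine continuous_finset_prod _ fun t _ => ?_
  exact (NNReal.continuous_coe.comp (mx_cont q g t)).rpow_const fun x => Or.inr (by positivity)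

theorem itg_nonneg (g : (t : T) → κ t → MvPolynomial σ ℤ) (a : T → ℕ) (s : ℝ) (x : σ → ℤ_[q]) :
    0 ≤ itg q g a s x := Finset.prod_nonneg fun t _ => Real.rpow_nonneg (NNReal.coe_nonneg _) _

theorem idealsZeta_eq (g : (t : T) → κ t → MvPolynomial σ ℤ) (a : T → ℕ) (s : ℝ) (hs : 0 < s) :
    idealsZeta q g a (s : ℂ) =
      ((∫⁻ x, ∏ t, ((mx q g t x : ℝ≥0) : ℝ≥0∞) ^ ((a t : ℝ) * s) ∂(hm q σ)).toReal : ℂ) := by
  unfold idealsZeta
  have hms : (borel (σ → ℤ_[q])) = MeasurableSpace.pi := (Pi.borelSpace).measurable_eq.symm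
  have key : ∀ (ms : MeasurableSpace (σ → ℤ_[q])) (_ : ms = MeasurableSpace.pi)
      (hb : @BorelSpace _ _ ms),
      (@integral _ _ _ _ ms (@Measure.addHaarMeasure _ _ _ _ ms hb
        (⊤ : TopologicalSpace.PositiveCompacts (σ → ℤ_[q])))
        (fun x => ∏ t, (((Finset.univ.sup fun j => ‖aeval x (g t j)‖₊ : ℝ≥0) : ℝ) : ℂ) ^
          ((a t : ℂ) * (s : ℂ)))) =
      ((∫⁻ x, ∏ t, ((mx q g t x : ℝ≥0) : ℝ≥0∞) ^ ((a t : ℝ) * s) ∂(hm q σ)).toReal : ℂ) := by
    intro ms h hb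
    subst h
    have h1 : (hm q σ) =
        Measure.addHaarMeasure (⊤ : TopologicalSpace.PositiveCompacts (σ → ℤ_[q])) := by
      have h2 := Measure.addHaarMeasure_unique (Measure.pi fun _ : σ => mu q)
        (⊤ : TopologicalSpace.PositiveCompacts (σ → ℤ_[q]))
      have : (Measure.pi fun _ : σ => mu q)
          ((⊤ : TopologicalSpace.PositiveCompacts (σ → ℤ_[q])) : Set (σ → ℤ_[q])) = 1 :=
        measure_univ
      rw [this, one_smul] at h2
      exact h2
    rw [← h1]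
    have h3 : ∀ x : σ → ℤ_[q],
        (∏ t, (((Finset.univ.sup fun j => ‖aeval x (g t j)‖₊ : ℝ≥0) : ℝ) : ℂ) ^
          ((a t : ℂ) * (s : ℂ))) = ((itg q g a s x : ℝ) : ℂ) := by
      intro x
      unfold itg
      rw [Complex.ofReal_prod]
      refine Finset.prod_congr rfl fun t _ => ?_
      rw [Complex.ofReal_cpow (NNReal.coe_nonneg _)]
      push_cast
      rfl
    simp only [h3]
    rw [integral_complex_ofReal]
    congr 1
    rw [integral_eq_lintegral_of_nonneg_ae]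
    · congr 1
      refine lintegral_congr fun x => ?_
      unfold itg
      rw [ENNReal.ofReal_prod_of_nonneg fun t _ => Real.rpow_nonneg (NNReal.coe_nonneg _) _]
      refine Finset.prod_congr rfl fun t _ => ?_
      rw [← ENNReal.ofReal_rpow_of_nonneg (NNReal.coe_nonneg _) (by positivity),
        ENNReal.ofReal_coe_nnreal]
    · exact Filter.Eventually.of_forall fun x => itg_nonneg q g a s x
    · exact (itg_cont q g a s hs).measurable.aestronglyMeasurable
  exact key (borel _) hms (@BorelSpace.mk _ _ (borel _) rfl)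

theorem aeval_formG (g : (t : T) → κ t → MvPolynomial σ ℤ) (a : T → ℕ)
    (z : (Σ t, κ t) ⊕ σ → ℤ_[q]) : aeval z (formG g a) =
      ∏ t, (∑ j, z (Sum.inl ⟨t, j⟩) * aeval (z ∘ Sum.inr) (g t j)) ^ a t := by
  unfold formG
  rw [map_prod]
  refine Finset.prod_congr rfl fun t _ => ?_
  rw [map_pow, map_sum]
  congr 1
  refine Finset.sum_congr rfl fun j _ => ?_
  rw [map_mul, aeval_X, aeval_rename]

/-- **The zeta function of the form.** -/
theorem igusa_formG (g : (t : T) → κ t → MvPolynomial σ ℤ) (hκ : ∀ t, Nonempty (κ t))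
    (a : T → ℕ) (s : ℝ) (hs : 0 < s) :
    ∫⁻ z : (Σ t, κ t) ⊕ σ → ℤ_[q], tau q s (aeval z (formG g a)) ∂(hm q ((Σ t, κ t) ⊕ σ)) =
      (∫⁻ x, ∏ t, ((mx q g t x : ℝ≥0) : ℝ≥0∞) ^ ((a t : ℝ) * s) ∂(hm q σ)) *
        ∏ t, phi q ((a t : ℝ) * s) := by
  have hmz : Measurable fun z : (Σ t, κ t) ⊕ σ → ℤ_[q] =>
      tau q s (aeval z (formG g a)) := ((tau_cont q s hs.le).comp (aeval_cont q _)).measurable
  rw [lintegral_sum q _ hmz]
  have h1 : ∀ x : σ → ℤ_[q], ∫⁻ y : (Σ t, κ t) → ℤ_[q],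
      tau q s (aeval (Sum.elim y x) (formG g a)) ∂(hm q (Σ t, κ t)) =
      (∏ t, ((mx q g t x : ℝ≥0) : ℝ≥0∞) ^ ((a t : ℝ) * s)) * ∏ t, phi q ((a t : ℝ) * s) := by
    intro x
    have h2 := y_int q (fun t j => aeval x (g t j)) hκ (fun t => (a t : ℝ) * s)
      (fun t => by positivity)
    rw [← Finset.prod_mul_distrib]
    refine Eq.trans (lintegral_congr fun y => ?_) h2
    rw [aeval_formG, tau_prod]
    refine Finset.prod_congr rfl fun t _ => ?_
    rw [tau_pow']
    rfl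
  have h3 : ∀ x : σ → ℤ_[q], ∫⁻ y : (Σ t, κ t) → ℤ_[q],
      (fun z : (Σ t, κ t) ⊕ σ → ℤ_[q] => tau q s (aeval z (formG g a)))
        (Sum.elim y x) ∂(hm q (Σ t, κ t)) = _ := h1
  have h4 : Measurable fun x : σ → ℤ_[q] =>
      ∏ t, ((mx q g t x : ℝ≥0) : ℝ≥0∞) ^ ((a t : ℝ) * s) := by
    refine Finset.measurable_prod _ fun t _ => ?_
    exact ((mx_cont q g t).measurable.coe_nnreal_ennreal).pow_const _
  rw [lintegral_congr h3, lintegral_mul_const _ h4]

/-- the denominator of the strict transforms -/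
noncomputable def Dp (a : T → ℕ) : Polynomial ℂ :=
  ∏ t, (Polynomial.C (((q ^ 1 : ℕ) : ℕ) : ℂ) - Polynomial.X ^ a t)

/-- the relation on the real axis -/
theorem real_rel (g : (t : T) → κ t → MvPolynomial σ ℤ) (hκ : ∀ t, Nonempty (κ t))
    (a : T → ℕ) (s : ℝ) (hs : 0 < s) :
    (Dp q a).eval (pw q s) * igusaZeta q (formG g a) s =
      (∏ _t : T, ((q : ℂ) - 1)) * idealsZeta q g a s := by
  rw [hm_igusa, igusa_formG q g hκ a s hs, ENNReal.toReal_mul, pw_real, idealsZeta_eq q g a s hs]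
  have h6 : (Dp q a).eval ((tr' q s : ℝ) : ℂ) *
      (((∏ t, phi q ((a t : ℝ) * s)).toReal : ℝ) : ℂ) = ∏ _t : T, ((q : ℂ) - 1) := by
    unfold Dp
    rw [Polynomial.eval_prod, ENNReal.toReal_prod, Complex.ofReal_prod, ← Finset.prod_mul_distrib]
    refine Finset.prod_congr rfl fun t _ => ?_
    have h7 := phi_eq q ((a t : ℝ) * s) (by positivity)
    have h8 : (q : ℝ) ^ (-((a t : ℝ) * s)) = tr' q s ^ a t := tr'_nat q s (a t)
    rw [h8] at h7
    have h9 := congrArg (fun r : ℝ => (r : ℂ)) h7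
    simp only [Complex.ofReal_mul, Complex.ofReal_sub, Complex.ofReal_pow, Complex.ofReal_natCast,
      Complex.ofReal_one] at h9
    rw [Polynomial.eval_sub, Polynomial.eval_C, Polynomial.eval_pow, Polynomial.eval_X, pow_one]
    exact h9
  rw [← h6]
  push_cast
  ring

end real

end Pool.Agent.Q282.PA
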