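import Mathlib

set_option autoImplicit false

/-! # Systems of linear forms with integral coefficients over all rings at once -/

namespace Pool.Agent.Q282.PA

open Matrix

/-- a `ℚ`-linear map `ℂ → ℚ` which fixes the integers -/
theorem exists_phi : ∃ φ : ℂ →ₗ[ℚ] ℚ, ∀ n : ℤ, φ n = n := by
  have hinj : LinearMap.ker (LinearMap.toSpanSingleton ℚ ℂ 1) = ⊥ := by
    rw [LinearMap.ker_eq_bot']
    intro x hx
    simpa using hx
  obtain ⟨φ, hφ⟩ := LinearMap.exists_leftInverse_of_injective _ hinj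
  refine ⟨φ, fun n => ?_⟩
  have := LinearMap.congr_fun hφ (n : ℚ)
  simpa using this

/-- clearing denominators -/
theorem exists_den {A : Type} [Fintype A] (f : A → ℚ) :
    ∃ D : ℤ, D ≠ 0 ∧ ∃ g : A → ℤ, ∀ a, (g a : ℚ) = D * f a := by
  classical
  refine ⟨∏ a, ((f a).den : ℤ), Finset.prod_ne_zero_iff.2 fun a _ => by
    exact_mod_cast (f a).den_nz, ?_⟩
  have h : ∀ a, ∃ k : ℤ, ∏ a, ((f a).den : ℤ) = (f a).den * k := fun a =>
    Finset.dvd_prod_of_mem (fun a => ((f a).den : ℤ)) (Finset.mem_univ a)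
  choose k hk using h
  refine ⟨fun a => k a * (f a).num, fun a => ?_⟩
  have h1 := congrArg (fun n : ℤ => (n : ℚ)) (hk a)
  rw [h1]
  push_cast
  have h2 : (f a) * (f a).den = (f a).num := Rat.mul_den_eq_num (f a)
  rw [← h2]
  ring

variable {R σ κ : Type} [Fintype R] [Fintype σ] [Fintype κ]

/-- The values of linear forms with integral coefficients at a vector over a ring. -/
def mv (K : Type) [CommRing K] {R : Type} (M : Matrix R σ ℤ) (x : σ → K) : R → K :=
  fun r => ∑ i, (M r i : K) * x i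

section

variable {K : Type} [CommRing K]

theorem mv_mul {R : Type} (M : Matrix R κ ℤ) (N : Matrix κ σ ℤ) (x : σ → K) :
    mv K (M * N) x = mv K M (mv K N x) := by
  funext r
  simp only [mv, Matrix.mul_apply, Int.cast_sum, Int.cast_mul, Finset.sum_mul, Finset.mul_sum]
  rw [Finset.sum_comm]
  refine Finset.sum_congr rfl fun i _ => Finset.sum_congr rfl fun j _ => ?_
  ring

theorem mv_smul {R : Type} (D : ℤ) (M : Matrix R σ ℤ) (x : σ → K) :
    mv K (D • M) x = (D : K) • mv K M x := by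
  funext r
  simp only [mv, Matrix.smul_apply, smul_eq_mul, Int.cast_mul, Pi.smul_apply, Finset.mul_sum]
  refine Finset.sum_congr rfl fun i _ => ?_
  ring

theorem mv_zero' {R : Type} (x : σ → K) : mv K (0 : Matrix R σ ℤ) x = 0 := by
  funext r
  simp [mv]

theorem mv_add {R : Type} (M : Matrix R σ ℤ) (x y : σ → K) :
    mv K M (x + y) = mv K M x + mv K M y := by
  funext r
  simp only [mv, Pi.add_apply, mul_add, Finset.sum_add_distrib]

theorem mv_csmul {R : Type} (M : Matrix R σ ℤ) (a : K) (x : σ → K) :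
    mv K M (a • x) = a • mv K M x := by
  funext r
  simp only [mv, Pi.smul_apply, smul_eq_mul, Finset.mul_sum]
  refine Finset.sum_congr rfl fun i _ => ?_
  ring

theorem mv_zero {R : Type} (M : Matrix R σ ℤ) : mv K M (0 : σ → K) = 0 := by
  funext r
  simp [mv]

theorem mv_neg {R : Type} (M : Matrix R σ ℤ) (x : σ → K) : mv K M (-x) = - mv K M x := by
  funext r
  simp [mv, Finset.sum_neg_distrib]

theorem mv_sub {R : Type} (M : Matrix R σ ℤ) (x y : σ → K) :
    mv K M (x - y) = mv K M x - mv K M y := by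
  rw [sub_eq_add_neg, mv_add, mv_neg, ← sub_eq_add_neg]

theorem mv_map {R L : Type} [CommRing L] (h : K →+* L) (M : Matrix R σ ℤ) (x : σ → K) (r : R) :
    h (mv K M x r) = mv L M (fun i => h (x i)) r := by
  simp only [mv, map_sum, map_mul, map_intCast]

/-- as a linear map -/
def mvL (K : Type) [CommRing K] {R : Type} (M : Matrix R σ ℤ) : (σ → K) →ₗ[K] (R → K) where
  toFun := mv K M
  map_add' := mv_add M
  map_smul' := mv_csmul M

end

/-- **Generalised inverses** with a denominator. -/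
theorem ginv (M : Matrix R σ ℤ) : ∃ D : ℤ, D ≠ 0 ∧ ∃ Q : Matrix σ R ℤ, M * Q * M = D • M := by
  classical
  obtain ⟨φ, hφ⟩ := exists_phi
  set f := mvL ℂ M with hf
  obtain ⟨r, hr⟩ := LinearMap.exists_rightInverse_of_surjective f.rangeRestrict
    (LinearMap.range_rangeRestrict f)
  obtain ⟨g, hg⟩ := LinearMap.exists_extend r
  have hfgf : ∀ x, f (g (f x)) = f x := by
    intro x
    have h1 : g (f x) = r (f.rangeRestrict x) := LinearMap.congr_fun hg (f.rangeRestrict x)
    have h2 := LinearMap.congr_fun hr (f.rangeRestrict x)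
    have h3 := congrArg Subtype.val h2
    rw [h1]
    exact h3
  -- entries of `g`
  set q : σ → R → ℂ := fun i p => g (Pi.single p 1) i with hq
  have hgx : ∀ (y : R → ℂ) i, g y i = ∑ p, y p * q i p := by
    intro y i
    have h1 := LinearMap.pi_apply_eq_sum_univ g y
    have h2 : ∀ p : R, (fun j => if p = j then (1 : ℂ) else 0) = Pi.single p 1 := by
      intro p
      funext j
      simp [Pi.single_apply, eq_comm]
    rw [h1, Finset.sum_apply]
    refine Finset.sum_congr rfl fun p _ => ?_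
    rw [Pi.smul_apply, smul_eq_mul, h2]
  have key : ∀ a j, ∑ i, ∑ p, (M a i : ℂ) * ((M p j : ℂ) * q i p) = (M a j : ℂ) := by
    intro a j
    have h1 := congrFun (hfgf (Pi.single j 1)) a
    have h2 : ∀ p, f (Pi.single j 1) p = (M p j : ℂ) := by
      intro p
      change ∑ i, (M p i : ℂ) * (Pi.single j 1 : σ → ℂ) i = _
      simp [Pi.single_apply]
    rw [h2] at h1
    rw [← h1]
    change _ = ∑ i, (M a i : ℂ) * g (f (Pi.single j 1)) i
    refine Finset.sum_congr rfl fun i _ => ?_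
    rw [hgx, Finset.mul_sum]
    refine Finset.sum_congr rfl fun p _ => ?_
    rw [h2]
  have hz : ∀ (n : ℤ) (z : ℂ), φ ((n : ℂ) * z) = n * φ z := by
    intro n z
    rw [← zsmul_eq_mul, map_zsmul, zsmul_eq_mul]
  have key2 : ∀ a j, ∑ i, ∑ p, (M a i : ℚ) * ((M p j : ℚ) * φ (q i p)) = (M a j : ℚ) := by
    intro a j
    have h1 := congrArg φ (key a j)
    rw [hφ, map_sum] at h1
    rw [← h1]
    refine Finset.sum_congr rfl fun i _ => ?_
    rw [map_sum]
    refine Finset.sum_congr rfl fun p _ => ?_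
    rw [hz, hz]
  obtain ⟨D, hD, Q, hQ⟩ := exists_den fun ip : σ × R => φ (q ip.1 ip.2)
  refine ⟨D, hD, Matrix.of fun i p => Q (i, p), ?_⟩
  ext a j
  have h1 : ((M * (Matrix.of fun i p => Q (i, p)) * M) a j : ℚ) = (D : ℚ) * M a j := by
    rw [← key2, Matrix.mul_assoc, Matrix.mul_apply, Finset.mul_sum, Int.cast_sum]
    refine Finset.sum_congr rfl fun i _ => ?_
    rw [Matrix.mul_apply, Finset.mul_sum, Finset.mul_sum, Int.cast_sum]
    refine Finset.sum_congr rfl fun p _ => ?_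
    rw [Int.cast_mul, Int.cast_mul, Matrix.of_apply, hQ]
    ring
  rw [Matrix.smul_apply, smul_eq_mul]
  exact_mod_cast h1

/-- the vectors killed by the forms -/
def ker (K : Type) [CommRing K] {R : Type} (M : Matrix R σ ℤ) : Submodule K (σ → K) :=
  LinearMap.ker (mvL K M)

theorem mem_ker' (K : Type) [CommRing K] {R : Type} (M : Matrix R σ ℤ) (x : σ → K) :
    x ∈ ker K M ↔ mv K M x = 0 := LinearMap.mem_ker

/-- **Splittings** with a denominator. -/
theorem split {R1 R2 : Type} (M1 : Matrix R1 σ ℤ) (M2 : Matrix R2 σ ℤ)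
    (h : ker ℂ M1 ⊔ ker ℂ M2 = ⊤) :
    ∃ D : ℤ, D ≠ 0 ∧ ∃ P : Matrix σ σ ℤ, M2 * P = 0 ∧ M1 * P = D • M1 := by
  classical
  obtain ⟨φ, hφ⟩ := exists_phi
  have hs : LinearMap.range ((ker ℂ M1).subtype.coprod (ker ℂ M2).subtype) = ⊤ := by
    rw [LinearMap.range_coprod, Submodule.range_subtype, Submodule.range_subtype, h]
  obtain ⟨r, hr⟩ := LinearMap.exists_rightInverse_of_surjective _ hs
  set g : (σ → ℂ) →ₗ[ℂ] (σ → ℂ) := (ker ℂ M2).subtype ∘ₗ LinearMap.snd ℂ _ _ ∘ₗ r with hg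
  have hg2 : ∀ x, mv ℂ M2 (g x) = 0 := fun x => (mem_ker' ℂ M2 _).1 (r x).2.2
  have hg1 : ∀ x, mv ℂ M1 (g x) = mv ℂ M1 x := by
    intro x
    have h1 : ((r x).1 : σ → ℂ) + g x = x := LinearMap.congr_fun hr x
    have h2 := (mem_ker' ℂ M1 _).1 (r x).1.2
    conv_rhs => rw [← h1, mv_add, h2, zero_add]
  set q : σ → σ → ℂ := fun i j => g (Pi.single j 1) i with hq
  have hz : ∀ (n : ℤ) (z : ℂ), φ ((n : ℂ) * z) = n * φ z := by
    intro n z
    rw [← zsmul_eq_mul, map_zsmul, zsmul_eq_mul]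
  have k2 : ∀ a j, ∑ i, (M2 a i : ℚ) * φ (q i j) = 0 := by
    intro a j
    have h1 := congrArg φ (congrFun (hg2 (Pi.single j 1)) a)
    simp only [Pi.zero_apply, map_zero] at h1
    rw [← h1, mv, map_sum]
    refine Finset.sum_congr rfl fun i _ => ?_
    rw [hz]
  have k1 : ∀ a j, ∑ i, (M1 a i : ℚ) * φ (q i j) = M1 a j := by
    intro a j
    have h1 := congrArg φ (congrFun (hg1 (Pi.single j 1)) a)
    have h2 : mv ℂ M1 (Pi.single j 1) a = (M1 a j : ℂ) := by
      simp [mv, Pi.single_apply]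
    rw [h2, hφ] at h1
    rw [← h1, mv, map_sum]
    refine Finset.sum_congr rfl fun i _ => ?_
    rw [hz]
  obtain ⟨D, hD, P, hP⟩ := exists_den fun ip : σ × σ => φ (q ip.1 ip.2)
  refine ⟨D, hD, Matrix.of fun i p => P (i, p), ?_, ?_⟩
  · ext a j
    have h1 : ((M2 * (Matrix.of fun i p => P (i, p))) a j : ℚ) = 0 := by
      rw [Matrix.mul_apply, Int.cast_sum]
      have h2 := congrArg (fun z => (D : ℚ) * z) (k2 a j)
      simp only [mul_zero, Finset.mul_sum] at h2
      rw [← h2]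
      refine Finset.sum_congr rfl fun i _ => ?_
      rw [Int.cast_mul, Matrix.of_apply, hP]
      ring
    exact_mod_cast h1
  · ext a j
    have h1 : ((M1 * (Matrix.of fun i p => P (i, p))) a j : ℚ) = D * M1 a j := by
      rw [Matrix.mul_apply, Int.cast_sum, ← k1 a j, Finset.mul_sum]
      refine Finset.sum_congr rfl fun i _ => ?_
      rw [Int.cast_mul, Matrix.of_apply, hP]
      ring
    rw [Matrix.smul_apply, smul_eq_mul]
    exact_mod_cast h1

/-- **Forms vanishing on the common zeros.** -/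
theorem vanish {R' : Type} (M : Matrix R σ ℤ) {D : ℤ} {Q : Matrix σ R ℤ} (hQ : M * Q * M = D • M)
    (N : Matrix R' σ ℤ) (h : ker ℂ M ≤ ker ℂ N) : N * Q * M = D • N := by
  classical
  ext a j
  have h1 : mv ℂ N ((D : ℂ) • (Pi.single j 1) - mv ℂ (Q * M) (Pi.single j 1)) = 0 := by
    refine (mem_ker' ℂ N _).1 (h ((mem_ker' ℂ M _).2 ?_))
    rw [mv_sub, mv_csmul, ← mv_mul, ← Matrix.mul_assoc, hQ, mv_smul, sub_self]
  rw [mv_sub, mv_csmul, ← mv_mul, ← Matrix.mul_assoc] at h1
  have h2 := congrFun h1 a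
  have h3 : ∀ (N : Matrix R' σ ℤ), mv ℂ N (Pi.single j 1) a = (N a j : ℂ) := by
    intro N
    simp [mv, Pi.single_apply]
  rw [Pi.sub_apply, Pi.smul_apply, h3, h3, Pi.zero_apply, sub_eq_zero, smul_eq_mul] at h2
  rw [Matrix.smul_apply, smul_eq_mul]
  exact_mod_cast h2.symm

section trace

/-- The trace of the projection on the kernel. -/
theorem trace_ker (K : Type) [Field K] [DecidableEq σ] (M : Matrix R σ ℤ) {D : ℤ}
    {Q : Matrix σ R ℤ} (hQ : M * Q * M = D • M) (hD : (D : K) ≠ 0) :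
    (D : K) * (Module.finrank K (ker K M) : K) =
      ((D * Fintype.card σ - (Q * M).trace : ℤ) : K) := by
  set P : (σ → K) →ₗ[K] (σ → K) := LinearMap.id - (D : K)⁻¹ • mvL K (Q * M) with hP
  have hMP : ∀ x, mv K M (P x) = 0 := by
    intro x
    change mv K M (x - (D : K)⁻¹ • mv K (Q * M) x) = 0
    rw [mv_sub, mv_csmul, ← mv_mul, ← Matrix.mul_assoc, hQ, mv_smul, smul_smul,
      inv_mul_cancel₀ hD, one_smul, sub_self]
  have hproj : LinearMap.IsProj (ker K M) P := by
    refine ⟨fun x => (mem_ker' K M _).2 (hMP x), fun x hx => ?_⟩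
    have h1 := (mem_ker' K M _).1 hx
    change x - (D : K)⁻¹ • mv K (Q * M) x = x
    rw [mv_mul, h1, mv_zero, smul_zero, sub_zero]
  have h1 := hproj.trace
  have h2 : mvL K (Q * M) = Matrix.toLin' ((Q * M).map (Int.cast : ℤ → K)) := by
    refine LinearMap.ext fun x => ?_
    funext i
    rfl
  rw [← h1, hP, map_sub, map_smul, h2, Matrix.trace_toLin'_eq, LinearMap.trace_id,
    Module.finrank_fintype_fun_eq_card, smul_eq_mul, mul_sub, ← mul_assoc, mul_inv_cancel₀ hD,
    one_mul]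
  have h3 : ((Q * M).map (Int.cast : ℤ → K)).trace = (((Q * M).trace : ℤ) : K) := by
    rw [Matrix.trace, Matrix.trace, Int.cast_sum]
    rfl
  rw [h3]
  push_cast
  ring

/-- **The number of zeros modulo `q`.** -/
theorem card_ker [DecidableEq σ] (M : Matrix R σ ℤ) {D : ℤ} {Q : Matrix σ R ℤ}
    (hQ : M * Q * M = D • M) (hD0 : D ≠ 0) (q : ℕ) [Fact q.Prime] (hD : ¬ (q : ℤ) ∣ D)
    (hq : Fintype.card σ < q) :
    Nat.card {w : σ → ZMod q // mv (ZMod q) M w = 0} =
      q ^ Module.finrank ℂ (ker ℂ M) := by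
  have hDC : (D : ℂ) ≠ 0 := by exact_mod_cast hD0
  have hDq : (D : ZMod q) ≠ 0 := by
    intro h
    exact hD ((ZMod.intCast_zmod_eq_zero_iff_dvd D q).1 h)
  have h1 := trace_ker ℂ M hQ hDC
  have h2 := trace_ker (ZMod q) M hQ hDq
  have h3 : D * (Module.finrank ℂ (ker ℂ M) : ℤ) = D * Fintype.card σ - (Q * M).trace := by
    exact_mod_cast h1
  rw [← h3, Int.cast_mul, Int.cast_natCast] at h2
  have h4 := mul_left_cancel₀ hDq h2
  have h5 : Module.finrank (ZMod q) (ker (ZMod q) M) = Module.finrank ℂ (ker ℂ M) := by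
    have h6 := (ZMod.natCast_eq_natCast_iff' _ _ q).1 h4
    have h7 : Module.finrank (ZMod q) (ker (ZMod q) M) ≤ Fintype.card σ := by
      have := (ker (ZMod q) M).finrank_le
      rwa [Module.finrank_fintype_fun_eq_card] at this
    have h8 : Module.finrank ℂ (ker ℂ M) ≤ Fintype.card σ := by
      have := (ker ℂ M).finrank_le
      rwa [Module.finrank_fintype_fun_eq_card] at this
    rwa [Nat.mod_eq_of_lt (by omega), Nat.mod_eq_of_lt (by omega)] at h6
  rw [← h5]
  have h6 := Module.natCard_eq_pow_finrank (K := ZMod q) (V := ker (ZMod q) M)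
  rw [Nat.card_zmod] at h6
  rw [← h6]
  exact Nat.card_congr (Equiv.refl _)

end trace

end Pool.Agent.Q282.PA
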