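import Pool.Agent.TH192.PA.Final
import Pool.Agent.Q282.PA.Lin

set_option autoImplicit false
set_option linter.unusedSectionVars false
set_option linter.unusedVariables false

/-! # Integrals of products of norms of systems of linear forms over `ℤ_q ^ σ` -/

namespace Pool.Agent.Q282.PA

open MeasureTheory Pool.Agent.W427.SMC Pool.Agent.TH192.PA
open scoped ENNReal NNReal

attribute [local instance] msZ bsZ

variable {σ : Type} [Fintype σ] [DecidableEq σ]

section one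

variable {R : Type} [Fintype R] (q : ℕ) [Fact q.Prime]

/-- The maximal norm of the forms at `x`. -/
noncomputable def dst (M : Matrix R σ ℤ) (x : σ → ℤ_[q]) : ℝ≥0 :=
  Finset.univ.sup fun j => ‖mv ℤ_[q] M x j‖₊

theorem mv_cont (M : Matrix R σ ℤ) : Continuous fun x : σ → ℤ_[q] => mv ℤ_[q] M x := by
  unfold mv
  fun_prop

theorem dst_cont (M : Matrix R σ ℤ) : Continuous (dst q M) := by
  unfold dst
  refine Continuous.finset_sup_apply fun j _ => ?_
  exact ((continuous_apply j).comp (mv_cont q M)).nnnorm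

theorem dst_le (M : Matrix R σ ℤ) (x : σ → ℤ_[q]) : dst q M x ≤ 1 :=
  Finset.sup_le fun j _ => PadicInt.norm_le_one _

/-- the point of the residue class of `w` with the coordinate `z` -/
noncomputable def pt (w : σ → ZMod q) (z : σ → ℤ_[q]) : σ → ℤ_[q] :=
  fun i => ((w i).val : ℤ_[q]) + (q : ℤ_[q]) * z i

theorem toZMod_pt (w : σ → ZMod q) (z : σ → ℤ_[q]) (i : σ) :
    PadicInt.toZMod (pt q w z i) = w i := by
  have hp : NeZero q := ⟨(Fact.out : q.Prime).ne_zero⟩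
  unfold pt
  rw [map_add, map_mul, map_natCast, map_natCast, ZMod.natCast_zmod_val, ZMod.natCast_self,
    zero_mul, add_zero]

theorem toZMod_mv (M : Matrix R σ ℤ) (w : σ → ZMod q) (z : σ → ℤ_[q]) (j : R) :
    PadicInt.toZMod (mv ℤ_[q] M (pt q w z) j) = mv (ZMod q) M w j := by
  rw [mv_map]
  simp only [toZMod_pt]

theorem norm_of_toZMod (x : ℤ_[q]) (h : PadicInt.toZMod x ≠ 0) : ‖x‖ = 1 := by
  rw [← PadicInt.isUnit_iff]
  by_contra hu
  apply h
  have h1 : x ∈ IsLocalRing.maximalIdeal ℤ_[q] := (IsLocalRing.mem_maximalIdeal x).2 hu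
  rwa [← PadicInt.ker_toZMod, RingHom.mem_ker] at h1

theorem dst_one (M : Matrix R σ ℤ) (w : σ → ZMod q) (hw : mv (ZMod q) M w ≠ 0)
    (z : σ → ℤ_[q]) : dst q M (pt q w z) = 1 := by
  obtain ⟨j, hj⟩ := Function.ne_iff.1 hw
  refine le_antisymm (dst_le q M _) ?_
  refine le_trans ?_ (Finset.le_sup (f := fun j => ‖mv ℤ_[q] M (pt q w z) j‖₊) (Finset.mem_univ j))
  have h1 : ‖mv ℤ_[q] M (pt q w z) j‖ = 1 := by
    apply norm_of_toZMod
    rw [toZMod_mv]
    exact hj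
  have h2 : ‖mv ℤ_[q] M (pt q w z) j‖₊ = 1 := NNReal.coe_injective h1
  rw [h2]

theorem dst_smul (M : Matrix R σ ℤ) (x y : σ → ℤ_[q]) (hx : mv ℤ_[q] M x = 0) :
    dst q M (x + (q : ℤ_[q]) • y) = ‖(q : ℤ_[q])‖₊ * dst q M y := by
  unfold dst
  rw [mv_add, hx, zero_add, mv_csmul, NNReal.mul_finset_sup]
  refine Finset.sup_congr rfl fun j _ => ?_
  rw [Pi.smul_apply, smul_eq_mul, nnnorm_mul]

theorem dst_add (M : Matrix R σ ℤ) (x y y' : σ → ℤ_[q]) (h : mv ℤ_[q] M y = mv ℤ_[q] M y') :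
    dst q M (x + y) = dst q M (x + y') := by
  unfold dst
  rw [mv_add, mv_add, h]

theorem unit_of_not_dvd (D : ℤ) (h : ¬ (q : ℤ) ∣ D) : ∃ u : ℤ_[q], u * D = 1 := by
  have h1 : IsUnit (D : ℤ_[q]) := by
    rw [PadicInt.isUnit_iff]
    apply norm_of_toZMod
    rw [map_intCast]
    intro h0
    exact h ((ZMod.intCast_zmod_eq_zero_iff_dvd D q).1 h0)
  obtain ⟨u, hu⟩ := h1.exists_left_inv
  exact ⟨u, hu⟩

/-- **Lifting zeros.** -/
theorem lift_zero (M : Matrix R σ ℤ) {D : ℤ} {Q : Matrix σ R ℤ} (hQ : M * Q * M = D • M)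
    (hD : ¬ (q : ℤ) ∣ D) (w : σ → ZMod q) (hw : mv (ZMod q) M w = 0) :
    ∃ x y0 : σ → ℤ_[q], mv ℤ_[q] M x = 0 ∧ ∀ z, pt q w z = x + (q : ℤ_[q]) • (y0 + z) := by
  obtain ⟨u, hu⟩ := unit_of_not_dvd q D hD
  have h1 : ∀ j, ∃ v, mv ℤ_[q] M (pt q w 0) j = (q : ℤ_[q]) * v := by
    intro j
    obtain ⟨v, hv⟩ := dvd_of_toZMod q (mv ℤ_[q] M (pt q w 0) j) (by
      rw [toZMod_mv, hw, Pi.zero_apply])
    exact ⟨v, hv⟩
  choose v hv using h1
  have hv' : mv ℤ_[q] M (pt q w 0) = (q : ℤ_[q]) • v := funext hv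
  set y0 := u • mv ℤ_[q] Q v with hy0
  refine ⟨pt q w 0 - (q : ℤ_[q]) • y0, y0, ?_, fun z => ?_⟩
  · have h2 : (q : ℤ_[q]) • y0 = u • mv ℤ_[q] (Q * M) (pt q w 0) := by
      rw [mv_mul, hv', mv_csmul, hy0, smul_comm]
    rw [h2, mv_sub, mv_csmul, ← mv_mul, ← Matrix.mul_assoc, hQ, mv_smul, smul_smul, hu, one_smul,
      sub_self]
  · funext i
    simp only [pt, Pi.add_apply, Pi.sub_apply, Pi.smul_apply, Pi.zero_apply, smul_eq_mul]
    ring

end one

section many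

variable {S : Type} [Fintype S] [DecidableEq S] {κ : S → Type} [∀ s, Fintype (κ s)]

/-- The forms of the families with index in `C`. -/
def rows (c : (s : S) → Matrix (κ s) σ ℤ) (C : Finset S) :
    Matrix (Σ s : {s // s ∈ C}, κ s.1) σ ℤ := fun p => c p.1.1 p.2

theorem mv_rows (c : (s : S) → Matrix (κ s) σ ℤ) (C : Finset S) (K : Type) [CommRing K]
    (x : σ → K) : mv K (rows c C) x = 0 ↔ ∀ s ∈ C, mv K (c s) x = 0 := by
  constructor
  · intro h s hs
    funext j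
    exact congrFun h ⟨⟨s, hs⟩, j⟩
  · intro h
    funext p
    exact congrFun (h p.1.1 p.1.2) p.2

variable (q : ℕ) [Fact q.Prime] (c : (s : S) → Matrix (κ s) σ ℤ) (n : S → ℕ)

/-- The product of the norms. -/
noncomputable def FB (t : ℝ) (B : Finset S) (x : σ → ℤ_[q]) : ℝ≥0∞ :=
  ∏ s ∈ B, ((dst q (c s) x : ℝ≥0) : ℝ≥0∞) ^ ((n s : ℝ) * t)

/-- The integral of the product of the norms. -/
noncomputable def GB (t : ℝ) (B : Finset S) : ℝ≥0∞ := ∫⁻ x, FB q c n t B x ∂(hm q σ)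

theorem FB_meas (t : ℝ) (B : Finset S) : Measurable (FB q c n t B) := by
  unfold FB
  refine Finset.measurable_prod _ fun s _ => ?_
  exact (measurable_coe_nnreal_ennreal.comp (dst_cont q (c s)).measurable).pow_const _

theorem FB_le (t : ℝ) (ht : 0 ≤ t) (B : Finset S) (x : σ → ℤ_[q]) : FB q c n t B x ≤ 1 := by
  unfold FB
  refine Finset.prod_le_one' fun s _ => ?_
  refine ENNReal.rpow_le_one ?_ (by positivity)
  exact_mod_cast dst_le q (c s) x

theorem GB_le (t : ℝ) (ht : 0 ≤ t) (B : Finset S) : GB q c n t B ≤ 1 := by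
  unfold GB
  refine (lintegral_mono (g := fun _ => (1 : ℝ≥0∞)) fun x => FB_le q c n t ht B x).trans ?_
  simp

/-- the indices of the families which vanish at `w` -/
def cl (B : Finset S) (w : σ → ZMod q) : Finset S := B.filter fun s => mv (ZMod q) (c s) w = 0

theorem cl_sub (B : Finset S) (w : σ → ZMod q) : cl q c B w ⊆ B := Finset.filter_subset _ _

theorem norm_q (t : ℝ) (ht : 0 ≤ t) (N : ℕ) :
    ((‖(q : ℤ_[q])‖₊ : ℝ≥0) : ℝ≥0∞) ^ ((N : ℝ) * t) = Tt q t ^ N := by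
  rw [← tau_eq q _ (by positivity), ← Tt_nat, tau_p]

theorem FB_pt (t : ℝ) (ht : 0 ≤ t) (B : Finset S) (w : σ → ZMod q) (x y0 : σ → ℤ_[q])
    (hx : mv ℤ_[q] (rows c (cl q c B w)) x = 0)
    (hpt : ∀ z, pt q w z = x + (q : ℤ_[q]) • (y0 + z)) (z : σ → ℤ_[q]) :
    FB q c n t B (pt q w z) =
      Tt q t ^ (∑ s ∈ cl q c B w, n s) * FB q c n t (cl q c B w) (y0 + z) := by
  have h1 : FB q c n t B (pt q w z) = FB q c n t (cl q c B w) (pt q w z) := by
    unfold FB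
    symm
    refine Finset.prod_subset (cl_sub q c B w) fun s hs hs' => ?_
    have h2 : mv (ZMod q) (c s) w ≠ 0 := by
      intro h
      exact hs' (Finset.mem_filter.2 ⟨hs, h⟩)
    rw [dst_one q (c s) w h2, ENNReal.coe_one, ENNReal.one_rpow]
  rw [h1]
  unfold FB
  rw [← Finset.prod_pow_eq_pow_sum, ← Finset.prod_mul_distrib]
  refine Finset.prod_congr rfl fun s hs => ?_
  rw [hpt, dst_smul q (c s) _ _ ((mv_rows c _ _ x).1 hx s hs), ENNReal.coe_mul,
    ENNReal.mul_rpow_of_nonneg _ _ (by positivity), norm_q q t ht]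

/-- **The recursion.** -/
theorem GB_step (t : ℝ) (ht : 0 ≤ t) (B : Finset S)
    (hgood : ∀ C, ∃ (D : ℤ) (Q : Matrix σ (Σ s : {s // s ∈ C}, κ s.1) ℤ),
      rows c C * Q * rows c C = D • rows c C ∧ ¬ (q : ℤ) ∣ D) :
    GB q c n t B = ∑ w : σ → ZMod q, ((q : ℝ≥0∞)⁻¹) ^ Fintype.card σ *
      (Tt q t ^ (∑ s ∈ cl q c B w, n s) * GB q c n t (cl q c B w)) := by
  conv_lhs => unfold GB
  rw [lintegral_smV q _ (FB_meas q c n t B)]
  unfold smV
  refine Finset.sum_congr rfl fun w _ => ?_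
  congr 1
  obtain ⟨D, Q, hQ, hD⟩ := hgood (cl q c B w)
  obtain ⟨x, y0, hx, hpt⟩ := lift_zero q (rows c (cl q c B w)) hQ hD w
    ((mv_rows c _ _ w).2 fun s hs => (Finset.mem_filter.1 hs).2)
  have h1 : ∀ z : σ → ℤ_[q], FB q c n t B (fun i => ((w i).val : ℤ_[q]) + (q : ℤ_[q]) * z i) =
      Tt q t ^ (∑ s ∈ cl q c B w, n s) * FB q c n t (cl q c B w) (y0 + z) :=
    fun z => FB_pt q c n t ht B w x y0 hx hpt z
  have hm1 : Measurable fun z => FB q c n t (cl q c B w) (y0 + z) :=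
    (FB_meas q c n t _).comp (measurable_const_add y0)
  rw [lintegral_congr h1, lintegral_const_mul _ hm1, lintegral_add_left_eq_self (μ := hm q σ)
    (fun z => FB q c n t (cl q c B w) z) y0]
  rfl

/-- **Independence.** -/
theorem GB_split (t : ℝ) (ht : 0 ≤ t) (C1 C2 : Finset S) (hd : Disjoint C1 C2) {D : ℤ}
    {P : Matrix σ σ ℤ} (h2 : rows c C2 * P = 0) (h1 : rows c C1 * P = D • rows c C1)
    (hD : ¬ (q : ℤ) ∣ D) : GB q c n t (C1 ∪ C2) = GB q c n t C1 * GB q c n t C2 := by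
  obtain ⟨u, hu⟩ := unit_of_not_dvd q D hD
  have e1 : ∀ y : σ → ℤ_[q], ∀ s ∈ C1, mv ℤ_[q] (c s) (u • mv ℤ_[q] P y) = mv ℤ_[q] (c s) y := by
    intro y s hs
    have h3 : mv ℤ_[q] (rows c C1) (u • mv ℤ_[q] P y - y) = 0 := by
      rw [mv_sub, mv_csmul, ← mv_mul, h1, mv_smul, smul_smul, hu, one_smul, sub_self]
    have h4 := (mv_rows c _ _ _).1 h3 s hs
    rw [mv_sub] at h4
    exact sub_eq_zero.1 h4
  have e2 : ∀ y : σ → ℤ_[q], ∀ s ∈ C2, mv ℤ_[q] (c s) (u • mv ℤ_[q] P y) = 0 := by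
    intro y s hs
    have h3 : mv ℤ_[q] (rows c C2) (u • mv ℤ_[q] P y) = 0 := by
      rw [mv_csmul, ← mv_mul, h2, mv_zero', smul_zero]
    exact (mv_rows c _ _ _).1 h3 s hs
  have hF : ∀ x, FB q c n t (C1 ∪ C2) x = FB q c n t C1 x * FB q c n t C2 x := by
    intro x
    unfold FB
    rw [Finset.prod_union hd]
  have k1 : ∀ x y : σ → ℤ_[q], FB q c n t C1 (x + u • mv ℤ_[q] P y) = FB q c n t C1 (x + y) := by
    intro x y
    unfold FB
    refine Finset.prod_congr rfl fun s hs => ?_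
    rw [dst_add q (c s) x _ _ (e1 y s hs)]
  have k2 : ∀ x y : σ → ℤ_[q], FB q c n t C2 (x + u • mv ℤ_[q] P y) = FB q c n t C2 x := by
    intro x y
    unfold FB
    refine Finset.prod_congr rfl fun s hs => ?_
    rw [dst_add q (c s) x _ 0 (by rw [e2 y s hs, mv_zero]), add_zero]
  have m1 := FB_meas q c n t C1
  have m2 := FB_meas q c n t C2
  have key : ∀ y : σ → ℤ_[q], GB q c n t (C1 ∪ C2) =
      ∫⁻ x, FB q c n t C1 (x + y) * FB q c n t C2 x ∂(hm q σ) := by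
    intro y
    unfold GB
    rw [← lintegral_add_right_eq_self (μ := hm q σ) (fun x => FB q c n t (C1 ∪ C2) x)
      (u • mv ℤ_[q] P y)]
    refine lintegral_congr fun x => ?_
    rw [hF, k1, k2]
  have h3 : GB q c n t (C1 ∪ C2) =
      ∫⁻ y, ∫⁻ x, FB q c n t C1 (x + y) * FB q c n t C2 x ∂(hm q σ) ∂(hm q σ) := by
    have h4 : ∀ y : σ → ℤ_[q], (∫⁻ x, FB q c n t C1 (x + y) * FB q c n t C2 x ∂(hm q σ)) =
        GB q c n t (C1 ∪ C2) := fun y => (key y).symm
    rw [lintegral_congr h4, lintegral_const, measure_univ, mul_one]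
  rw [h3, lintegral_lintegral_swap]
  · have h5 : ∀ x : σ → ℤ_[q], (∫⁻ y, FB q c n t C1 (x + y) * FB q c n t C2 x ∂(hm q σ)) =
        GB q c n t C1 * FB q c n t C2 x := by
      intro x
      have hm1 : Measurable fun y => FB q c n t C1 (x + y) := m1.comp (measurable_const_add x)
      rw [lintegral_mul_const _ hm1,
        lintegral_add_left_eq_self (μ := hm q σ) (fun y => FB q c n t C1 y) x]
      rfl
    rw [lintegral_congr h5, lintegral_const_mul _ m2]
    rfl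
  · refine Measurable.aemeasurable ?_
    exact (m1.comp (measurable_snd.add measurable_fst)).mul (m2.comp measurable_snd)

end many

end Pool.Agent.Q282.PA
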