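import Pool.Agent.Q282.PA.ConeFinal

set_option autoImplicit false
set_option linter.unusedSectionVars false
set_option linter.unusedVariables false

/-! # The factor of the strict transforms in the functional equation -/

namespace Pool.Agent.Q282.PA.Mu

open MvPolynomial Pool.Agent.W574.SM Pool.Agent.W574.HS Pool.Agent.W574.LM Pool.Agent.TH192.DT

section cl

variable {σ : Type}

/-- Families of polynomials of the form `f ^ (n - m) * ∑_k n ^ k G_k`, for large `n`. -/
def Cl (f : MvPolynomial σ ℂ) (Φ : ℕ → MvPolynomial σ ℂ) : Prop :=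
  ∃ (m n0 : ℕ) (G : Polynomial (MvPolynomial σ ℂ)), ∀ n, n0 ≤ n →
    f ^ m * Φ n = f ^ n * G.eval (n : MvPolynomial σ ℂ)

theorem Cl.congr {f : MvPolynomial σ ℂ} {Φ Ψ : ℕ → MvPolynomial σ ℂ} (h : Cl f Φ) (N : ℕ)
    (he : ∀ n, N ≤ n → Ψ n = Φ n) : Cl f Ψ := by
  obtain ⟨m, n0, G, hG⟩ := h
  exact ⟨m, max n0 N, G, fun n hn => by
    rw [he n (le_of_max_le_right hn), hG n (le_of_max_le_left hn)]⟩

theorem cl_zero (f : MvPolynomial σ ℂ) : Cl f fun _ => 0 :=
  ⟨0, 0, 0, fun n _ => by simp⟩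

theorem cl_add {f : MvPolynomial σ ℂ} {Φ Ψ : ℕ → MvPolynomial σ ℂ} (h1 : Cl f Φ) (h2 : Cl f Ψ) :
    Cl f fun n => Φ n + Ψ n := by
  obtain ⟨m1, n1, G1, h1⟩ := h1
  obtain ⟨m2, n2, G2, h2⟩ := h2
  refine ⟨m1 + m2, max n1 n2, Polynomial.C (f ^ m2) * G1 + Polynomial.C (f ^ m1) * G2,
    fun n hn => ?_⟩
  have e1 := h1 n (le_of_max_le_left hn)
  have e2 := h2 n (le_of_max_le_right hn)
  rw [Polynomial.eval_add, Polynomial.eval_mul, Polynomial.eval_mul, Polynomial.eval_C,
    Polynomial.eval_C, pow_add]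
  linear_combination f ^ m2 * e1 + f ^ m1 * e2

theorem cl_sum {f : MvPolynomial σ ℂ} {K : Type} (s : Finset K) (Φ : K → ℕ → MvPolynomial σ ℂ)
    (h : ∀ k ∈ s, Cl f (Φ k)) : Cl f fun n => ∑ k ∈ s, Φ k n := by
  classical
  induction s using Finset.induction_on with
  | empty => simpa using cl_zero f
  | insert k s hk ih =>
    have := cl_add (h k (Finset.mem_insert_self k s))
      (ih fun l hl => h l (Finset.mem_insert_of_mem hl))
    simpa only [Finset.sum_insert hk] using this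

theorem cl_mul {f : MvPolynomial σ ℂ} {Φ : ℕ → MvPolynomial σ ℂ} (h : Cl f Φ)
    (g : MvPolynomial σ ℂ) : Cl f fun n => g * Φ n := by
  obtain ⟨m, n0, G, h⟩ := h
  refine ⟨m, n0, Polynomial.C g * G, fun n hn => ?_⟩
  rw [Polynomial.eval_mul, Polynomial.eval_C]
  linear_combination g * h n hn

theorem cl_poly {f : MvPolynomial σ ℂ} {Φ : ℕ → MvPolynomial σ ℂ} (h : Cl f Φ)
    (P : Polynomial ℂ) : Cl f fun n => P.eval (n : ℂ) • Φ n := by
  obtain ⟨m, n0, G, h⟩ := h
  refine ⟨m, n0, P.map C * G, fun n hn => ?_⟩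
  have h1 : (P.map C).eval (n : MvPolynomial σ ℂ) = C (P.eval (n : ℂ)) := by
    rw [Polynomial.eval_map, ← map_natCast (C : ℂ →+* MvPolynomial σ ℂ) n]
    exact (Polynomial.hom_eval₂ P (RingHom.id ℂ) (C : ℂ →+* MvPolynomial σ ℂ) (n : ℂ)).symm ▸ rfl
  beta_reduce
  rw [Polynomial.eval_mul, h1, smul_eq_C_mul]
  linear_combination C (P.eval (n : ℂ)) * h n hn

theorem cl_pderiv {f : MvPolynomial σ ℂ} {Φ : ℕ → MvPolynomial σ ℂ} (h : Cl f Φ) (i : σ) :
    Cl f fun n => pderiv i (Φ n) := by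
  classical
  obtain ⟨m, n0, G, h⟩ := h
  set G' : Polynomial (MvPolynomial σ ℂ) :=
    ∑ k ∈ G.support, Polynomial.monomial k (pderiv i (G.coeff k)) with hG'
  have hd : ∀ n : ℕ, pderiv i (G.eval (n : MvPolynomial σ ℂ)) =
      G'.eval (n : MvPolynomial σ ℂ) := by
    intro n
    rw [hG', Polynomial.eval_finsetSum, Polynomial.eval_eq_sum, Polynomial.sum, map_sum]
    refine Finset.sum_congr rfl fun k _ => ?_
    rw [Polynomial.eval_monomial, Derivation.leibniz, smul_eq_mul, smul_eq_mul]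
    have h1 : pderiv i ((n : MvPolynomial σ ℂ) ^ k) = 0 := by
      rw [← Nat.cast_pow]
      exact Derivation.map_natCast _ _
    rw [h1, mul_zero, zero_add, mul_comm]
  refine ⟨m + 1, n0 + 1, Polynomial.X * Polynomial.C (pderiv i f) * G + Polynomial.C f * G' -
    Polynomial.C ((m : MvPolynomial σ ℂ) * pderiv i f) * G, fun n hn => ?_⟩
  have h1 := congrArg (pderiv i) (h n (by omega))
  rw [Derivation.leibniz, Derivation.leibniz, Derivation.leibniz_pow, Derivation.leibniz_pow, hd]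
    at h1
  simp only [smul_eq_mul, nsmul_eq_mul] at h1
  simp only [Polynomial.eval_sub, Polynomial.eval_add, Polynomial.eval_mul, Polynomial.eval_X,
    Polynomial.eval_C]
  have h2 := h n (by omega)
  have e1 : (m : MvPolynomial σ ℂ) * f * f ^ (m - 1) = m * f ^ m := by
    rcases Nat.eq_zero_or_pos m with hm | hm
    · rw [hm]; simp
    · rw [mul_assoc, mul_comm f, ← pow_succ, Nat.sub_add_cancel hm]
  have e2 : (n : MvPolynomial σ ℂ) * f * f ^ (n - 1) = n * f ^ n := by
    rw [mul_assoc, mul_comm f, ← pow_succ, Nat.sub_add_cancel (by omega)]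
  rw [pow_succ]
  linear_combination f * h1 - pderiv i f * Φ n * e1 +
    G.eval (n : MvPolynomial σ ℂ) * pderiv i f * e2 - (m : MvPolynomial σ ℂ) * pderiv i f * h2

/-- operators which preserve the class -/
def Good (f : MvPolynomial σ ℂ) (R : Module.End ℂ (MvPolynomial σ ℂ)) : Prop :=
  ∀ Φ : ℕ → MvPolynomial σ ℂ, Cl f Φ → Cl f fun n => R (Φ n)

theorem cl_weyl (R : weyl σ) {f : MvPolynomial σ ℂ} {Φ : ℕ → MvPolynomial σ ℂ} (h : Cl f Φ) :
    Cl f fun n => (R : Module.End ℂ (MvPolynomial σ ℂ)) (Φ n) := by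
  obtain ⟨R, hR⟩ := R
  have key : Good f R := by
    refine Algebra.adjoin_induction (p := fun R _ => Good f R) ?_ ?_ ?_ ?_ hR
    · rintro _ (⟨i, rfl⟩ | ⟨i, rfl⟩) Φ h
      · exact (cl_mul h (X i)).congr 0 fun n _ => rfl
      · exact (cl_pderiv h i).congr 0 fun n _ => rfl
    · intro r Φ h
      refine (cl_mul h (C r)).congr 0 fun n _ => ?_
      rw [Module.algebraMap_end_apply, smul_eq_C_mul]
    · intro R1 R2 _ _ h1 h2 Φ h
      exact (cl_add (h1 Φ h) (h2 Φ h)).congr 0 fun n _ => rfl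
    · intro R1 R2 _ _ h1 h2 Φ h
      exact (h1 _ (h2 Φ h)).congr 0 fun n _ => rfl
  exact key Φ h

theorem cl_eval {f : MvPolynomial σ ℂ} {Φ : ℕ → MvPolynomial σ ℂ} (h : Cl f Φ) (x : σ → ℂ)
    (hx : eval x f ≠ 0) : ∃ (n0 : ℕ) (Q : Polynomial ℂ), ∀ n, n0 ≤ n →
      eval x (Φ n) = eval x f ^ n * Q.eval (n : ℂ) := by
  obtain ⟨m, n0, G, h⟩ := h
  refine ⟨n0, Polynomial.C (eval x f ^ m)⁻¹ * G.map (eval x), fun n hn => ?_⟩
  have h1 := congrArg (eval x) (h n hn)
  rw [map_mul, map_mul, map_pow, map_pow] at h1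
  have h2 : eval x (G.eval (n : MvPolynomial σ ℂ)) = (G.map (eval x)).eval (n : ℂ) := by
    rw [Polynomial.eval_map, ← map_natCast (eval x) n]
    exact Polynomial.hom_eval₂ G (RingHom.id _) (eval x) (n : MvPolynomial σ ℂ)
  rw [h2] at h1
  have h3 : eval x f ^ m ≠ 0 := pow_ne_zero _ hx
  rw [Polynomial.eval_mul, Polynomial.eval_C]
  field_simp
  linear_combination h1

end cl

section rep

variable {σ ι : Type} [Fintype ι] [DecidableEq ι]

theorem evN_single (j0 : ι) (p : MvPolynomial ι ℂ) : ∃ P : Polynomial ℂ, ∀ n : ℕ,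
    evN (Finsupp.single j0 n) p = P.eval (n : ℂ) := by
  refine ⟨aeval (fun j => if j = j0 then Polynomial.X else 0) p, fun n => ?_⟩
  induction p using MvPolynomial.induction_on with
  | C r => simp [evN]
  | add p q hp hq =>
    rw [map_add, Polynomial.eval_add, ← hp, ← hq, evN, map_add]
    rfl
  | mul_X p k hp =>
    rw [map_mul, Polynomial.eval_mul, ← hp, evN, map_mul, aeval_X, eval_X]
    congr 1
    by_cases hk : k = j0
    · subst hk
      rw [Finsupp.single_eq_same, if_pos rfl, Polynomial.eval_X]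
    · rw [Finsupp.single_eq_of_ne hk, if_neg hk, Nat.cast_zero, Polynomial.eval_zero]

theorem fall_single (j0 : ι) (c : ι → ℤ) : ∃ P : Polynomial ℂ, ∀ n : ℕ,
    (fall c (Finsupp.single j0 n) : ℂ) = P.eval (n : ℂ) := by
  refine ⟨∏ j, if j = j0 then descPochhammer ℂ (-c j).toNat else
    Polynomial.C ((Nat.descFactorial 0 (-c j).toNat : ℕ) : ℂ), fun n => ?_⟩
  unfold fall
  rw [Polynomial.eval_prod, Nat.cast_prod]
  refine Finset.prod_congr rfl fun j _ => ?_
  by_cases hj : j = j0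
  · subst hj
    rw [Finsupp.single_eq_same, if_pos rfl, descPochhammer_eval_eq_descFactorial]
  · rw [Finsupp.single_eq_of_ne hj, if_neg hj, Polynomial.eval_C]

/-- **The right hand side for a power of one function.** -/
theorem cl_rep (f : ι → MvPolynomial σ ℂ) (j0 : ι)
    (E : ((ι →₀ ℕ) → MvPolynomial σ ℂ) → (ι →₀ ℕ) → MvPolynomial σ ℂ) (hE : Rep E) :
    Cl (f j0) fun n => E (fun β => if ∑ j, β j = ∑ j, (Finsupp.single j0 n) j + 1 then
      ∏ j, f j ^ β j else 0) (Finsupp.single j0 n) := by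
  classical
  obtain ⟨κ, hκ, c, p, R, hR⟩ := hE
  simp only [hR]
  refine cl_sum Finset.univ _ fun k _ => ?_
  obtain ⟨P1, hP1⟩ := evN_single j0 (p k)
  obtain ⟨P2, hP2⟩ := fall_single j0 (c k)
  by_cases hneg : ∃ j, j ≠ j0 ∧ c k j < 0
  · obtain ⟨j, hj, hjc⟩ := hneg
    refine (cl_zero (f j0)).congr 0 fun n _ => ?_
    have h1 : fall (c k) (Finsupp.single j0 n) = 0 := by
      unfold fall
      refine Finset.prod_eq_zero (Finset.mem_univ j) ?_
      rw [Finsupp.single_eq_of_ne hj]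
      exact Nat.descFactorial_of_lt (by omega)
    rw [h1, Nat.cast_zero, mul_zero, zero_smul]
  · push Not at hneg
    have h2 : ∀ n, evN (Finsupp.single j0 n) (p k) * (fall (c k) (Finsupp.single j0 n) : ℂ) =
        (P1 * P2).eval (n : ℂ) := by
      intro n
      rw [hP1, hP2, Polynomial.eval_mul]
    simp only [h2]
    refine cl_poly ?_ _
    refine cl_weyl (R k) ?_
    set g : MvPolynomial σ ℂ := ∏ j ∈ Finset.univ.erase j0, f j ^ (c k j).toNat with hg
    have hsh : ∀ n j, j ≠ j0 → sh (Finsupp.single j0 n) (c k) j = (c k j).toNat := by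
      intro n j hj
      rw [sh_apply, Finsupp.single_eq_of_ne hj, Nat.cast_zero, zero_add]
    have hsh0 : ∀ n, sh (Finsupp.single j0 n) (c k) j0 = ((n : ℤ) + c k j0).toNat := by
      intro n
      rw [sh_apply, Finsupp.single_eq_same]
    have hsum : ∀ n, (-c k j0).toNat ≤ n →
        ((∑ j, sh (Finsupp.single j0 n) (c k) j = ∑ j, (Finsupp.single j0 n) j + 1) ↔
          ∑ j, c k j = 1) := by
      intro n hn
      have h3 : ((∑ j, sh (Finsupp.single j0 n) (c k) j : ℕ) : ℤ) = n + ∑ j, c k j := by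
        rw [← Finset.add_sum_erase _ _ (Finset.mem_univ j0), hsh0,
          ← Finset.add_sum_erase _ (c k) (Finset.mem_univ j0)]
        push_cast
        have h4 : ∑ j ∈ Finset.univ.erase j0, ((sh (Finsupp.single j0 n) (c k) j : ℕ) : ℤ) =
            ∑ j ∈ Finset.univ.erase j0, c k j := by
          refine Finset.sum_congr rfl fun j hj => ?_
          rw [hsh n j (Finset.ne_of_mem_erase hj)]
          exact Int.toNat_of_nonneg (hneg j (Finset.ne_of_mem_erase hj))
        rw [h4]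
        omega
      have h5 : ∑ j, (Finsupp.single j0 n) j = n := by
        rw [Finset.sum_eq_single j0]
        · exact Finsupp.single_eq_same
        · intro j _ hj
          exact Finsupp.single_eq_of_ne hj
        · intro h
          exact absurd (Finset.mem_univ _) h
      rw [h5]
      constructor
      · intro h
        have h6 : ((∑ j, sh (Finsupp.single j0 n) (c k) j : ℕ) : ℤ) = n + 1 := by
          rw [h]; push_cast; rfl
        omega
      · intro h
        rw [h] at h3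
        exact_mod_cast h3
    have hprod : ∀ n, ∏ j, f j ^ sh (Finsupp.single j0 n) (c k) j =
        f j0 ^ ((n : ℤ) + c k j0).toNat * g := by
      intro n
      rw [← Finset.mul_prod_erase _ _ (Finset.mem_univ j0), hsh0]
      congr 1
      exact Finset.prod_congr rfl fun j hj => by rw [hsh n j (Finset.ne_of_mem_erase hj)]
    by_cases hc : ∑ j, c k j = 1
    · refine ⟨(-c k j0).toNat, (-c k j0).toNat, Polynomial.C (f j0 ^ (c k j0).toNat * g),
        fun n hn => ?_⟩
      beta_reduce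
      rw [if_pos ((hsum n hn).2 hc), hprod, Polynomial.eval_C, ← mul_assoc, ← mul_assoc,
        ← pow_add, ← pow_add]
      congr 2
      omega
    · refine (cl_zero (f j0)).congr (-c k j0).toNat fun n hn => ?_
      rw [if_neg fun h => hc ((hsum n hn).1 h)]

end rep

end Pool.Agent.Q282.PA.Mu
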