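import Pool.Agent.Q282.PA.Mult

set_option autoImplicit false
set_option linter.unusedSectionVars false
set_option linter.unusedVariables false

/-! # The functional equation of a product of powers of forms is divisible by the factor of the
strict transforms, and the quotient satisfies a functional equation of the product of the ideals -/

namespace Pool.Agent.Q282.PA.Mu

open MvPolynomial Pool.Agent.W574.SM Pool.Agent.W574.HS Pool.Agent.W574.LM Pool.Agent.TH192.DT
  Pool.Agent.H628R4.TP Pool.Agent.Y228.RR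

variable {σ τ : Type} [Fintype τ] [DecidableEq τ] {κ : τ → Type} [∀ t, Fintype (κ t)]
  [∀ t, DecidableEq (κ t)]

/-- The relation between the functional equation of the product of powers of forms and the product of
the ideals, with the factor. -/
theorem pow_rel [DecidableEq σ] (a : τ → ℕ) (f : (t : τ) → κ t → MvPolynomial σ ℂ) (t0 : τ)
    (ht0 : a t0 ≠ 0) (b : Polynomial ℂ) (H : MvPolynomial ((Σ t, κ t) ⊕ σ) ℂ)
    (P : ℕ →₀ Pool.Agent.H628R4.TP.weylS ((Σ t, κ t) ⊕ σ))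
    (hP : ∀ s : ℕ, H * (C (b.eval (s : ℂ)) * powProd a f ^ s) = P.sum fun m Q =>
      ((s : ℂ) ^ m) • (Q : Module.End ℂ (MvPolynomial ((Σ t, κ t) ⊕ σ) ℂ))
        (powProd a f ^ (s + 1))) :
    ∃ E : ((Ch κ a →₀ ℕ) → MvPolynomial σ ℂ) → (Ch κ a →₀ ℕ) → MvPolynomial σ ℂ, Rep E ∧
      ∀ s : Ch κ a →₀ ℕ, (b.eval ((∑ J, s J : ℕ) : ℂ)) •
        (hat H 0 * ∏ J, prodFam (fun q : Σ t, Fin (a t) => f q.1) J ^ s J) =
        evN s (facQ a) • E (fun β => if ∑ J, β J = ∑ J, s J + 1 then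
          ∏ J, prodFam (fun q : Σ t, Fin (a t) => f q.1) J ^ β J else 0) s := by
  obtain ⟨E, hE, hEP⟩ := exists_op (σ := σ) a t0 ht0 P
  obtain ⟨κ0, hκ, c, p, R, hR⟩ := hE
  choose E' hE'1 hE'2 using fun k : κ0 => term_rep a f (c k) (p k) (R k)
  refine ⟨fun G s => ∑ k, E' k G s, rep_sum Finset.univ _ fun k _ => hE'1 k, fun s => ?_⟩
  have h1 := congrArg (fun G => hat G (tot a s)) (hP (∑ J, s J))
  beta_reduce at h1
  rw [hEP, hR] at h1
  have hn : ∀ γ : (Σ t, κ t) →₀ ℕ, γ ≤ tot a s → γ ≠ tot a s →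
      hat (C (b.eval ((∑ J, s J : ℕ) : ℂ)) * powProd a f ^ (∑ J, s J)) γ = 0 := by
    intro γ hγ hne
    rw [hat_C_mul, hat_powProd_pow, if_neg, smul_zero]
    intro h
    apply hne
    apply eq_of_le_of_sum_eq hγ
    rw [Fintype.sum_sigma, Fintype.sum_sigma]
    exact Finset.sum_congr rfl fun t _ => by rw [h t, tot_sum]
  rw [hat_mul_top H _ _ hn, hat_C_mul, hat_powProd_pow, if_pos (fun t => tot_sum a s t),
    mul_smul_comm, mul_smul_comm, prod_tot] at h1
  simp only [hat_powProd_pow] at h1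
  rw [Finset.sum_congr rfl fun k _ => hE'2 k s _, ← Finset.smul_sum, smul_comm] at h1
  have hfact : ((∏ t, ((∑ J, s J) * a t).factorial : ℕ) : ℂ) ≠ 0 :=
    Nat.cast_ne_zero.2 (Finset.prod_ne_zero_iff.2 fun t _ => Nat.factorial_ne_zero _)
  apply smul_right_injective (MvPolynomial σ ℂ) hfact
  beta_reduce
  rw [h1, smul_smul, evN_facQ]

/-- The factor of the strict transforms: `∏ t, ∏_{i < a t} (a t * s + i + 1)`. -/
noncomputable def facP (a : τ → ℕ) : Polynomial ℂ :=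
  ∏ t, ∏ i ∈ Finset.range (a t), (Polynomial.C (a t : ℂ) * Polynomial.X +
    Polynomial.C ((i + 1 : ℕ) : ℂ))

theorem evN_facP (a : τ → ℕ) (s : Ch κ a →₀ ℕ) :
    evN s (facQ a) = (facP a).eval ((∑ J, s J : ℕ) : ℂ) := by
  rw [evN, facQ, facP, map_prod, Polynomial.eval_prod]
  refine Finset.prod_congr rfl fun t _ => ?_
  rw [map_prod, Polynomial.eval_prod]
  refine Finset.prod_congr rfl fun i _ => ?_
  rw [map_add, map_mul, eval_C, eval_C, map_sum, Polynomial.eval_add, Polynomial.eval_mul,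
    Polynomial.eval_C, Polynomial.eval_C, Polynomial.eval_X, Nat.cast_sum]
  simp only [eval_X]

theorem facP_nat (a : τ → ℕ) (n : ℕ) : (facP a).eval (n : ℂ) ≠ 0 := by
  rw [facP, Polynomial.eval_prod]
  refine Finset.prod_ne_zero_iff.2 fun t _ => ?_
  rw [Polynomial.eval_prod]
  refine Finset.prod_ne_zero_iff.2 fun i _ => ?_
  rw [Polynomial.eval_add, Polynomial.eval_mul, Polynomial.eval_C, Polynomial.eval_C,
    Polynomial.eval_X]
  have h : ((a t * n + (i + 1) : ℕ) : ℂ) ≠ 0 := Nat.cast_ne_zero.2 (by omega)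
  intro h0
  apply h
  push_cast
  push_cast at h0
  exact h0

/-- **Divisibility and the quotient.** -/
theorem pow_quot [DecidableEq σ] (a : τ → ℕ) (f : (t : τ) → κ t → MvPolynomial σ ℂ)
    (hf : ∀ t, ∃ j, f t j ≠ 0) (t0 : τ)
    (ht0 : a t0 ≠ 0) (b : Polynomial ℂ) (H : MvPolynomial ((Σ t, κ t) ⊕ σ) ℂ)
    (hH : hat H 0 ≠ 0)
    (P : ℕ →₀ Pool.Agent.H628R4.TP.weylS ((Σ t, κ t) ⊕ σ))
    (hP : ∀ s : ℕ, H * (C (b.eval (s : ℂ)) * powProd a f ^ s) = P.sum fun m Q =>
      ((s : ℂ) ^ m) • (Q : Module.End ℂ (MvPolynomial ((Σ t, κ t) ⊕ σ) ℂ))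
        (powProd a f ^ (s + 1))) :
    ∃ b' : Polynomial ℂ, b = facP a * b' ∧
      IsLocEq (hat H 0) (prodFam fun q : Σ t, Fin (a t) => f q.1) b' := by
  classical
  obtain ⟨E, hE, hrel⟩ := pow_rel a f t0 ht0 b H P hP
  choose jt hjt using hf
  let J0 : Ch κ a := fun q => jt q.1
  set F := prodFam (fun q : Σ t, Fin (a t) => f q.1) with hF
  have hF0 : F J0 ≠ 0 := by
    rw [hF, prodFam]
    exact Finset.prod_ne_zero_iff.2 fun q _ => hjt q.1
  obtain ⟨x, hx⟩ : ∃ x : σ → ℂ, eval x (hat H 0 * F J0) ≠ 0 := by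
    by_contra hcon
    push Not at hcon
    exact mul_ne_zero hH hF0 (MvPolynomial.funext fun v => by rw [hcon v, map_zero])
  rw [map_mul] at hx
  have hx1 := left_ne_zero_of_mul hx
  have hx2 := right_ne_zero_of_mul hx
  obtain ⟨n0, Q, hQ⟩ := cl_eval (cl_rep F J0 E hE) x hx2
  have hsum : ∀ n : ℕ, ∑ J, (Finsupp.single J0 n) J = n := by
    intro n
    rw [Finset.sum_eq_single J0]
    · exact Finsupp.single_eq_same
    · intro j _ hj
      exact Finsupp.single_eq_of_ne hj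
    · intro h
      exact absurd (Finset.mem_univ _) h
  have hprod : ∀ n : ℕ, ∏ J, F J ^ (Finsupp.single J0 n) J = F J0 ^ n := by
    intro n
    rw [Finset.prod_eq_single J0]
    · rw [Finsupp.single_eq_same]
    · intro j _ hj
      rw [Finsupp.single_eq_of_ne hj, pow_zero]
    · intro h
      exact absurd (Finset.mem_univ _) h
  have hval : ∀ n, n0 ≤ n → b.eval (n : ℂ) * eval x (hat H 0) =
      (facP a).eval (n : ℂ) * Q.eval (n : ℂ) := by
    intro n hn
    have h1 := congrArg (eval x) (hrel (Finsupp.single J0 n))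
    rw [smul_eval, smul_eval, evN_facP, hprod, hQ n hn, hsum, map_mul, map_pow] at h1
    have h2 : eval x (F J0) ^ n ≠ 0 := pow_ne_zero _ hx2
    apply mul_right_cancel₀ h2
    linear_combination h1
  have hpoly : b * Polynomial.C (eval x (hat H 0)) = facP a * Q := by
    refine Polynomial.eq_of_infinite_eval_eq _ _ ?_
    refine Set.Infinite.mono (s := (fun n : ℕ => (n : ℂ)) '' Set.Ici n0) ?_ ?_
    · rintro _ ⟨n, hn, rfl⟩
      change Polynomial.eval _ _ = Polynomial.eval _ _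
      rw [Polynomial.eval_mul, Polynomial.eval_mul, Polynomial.eval_C]
      exact hval n hn
    · exact (Set.Ici_infinite n0).image Nat.cast_injective.injOn
  have hb : b = facP a * (Q * Polynomial.C (eval x (hat H 0))⁻¹) := by
    rw [← mul_assoc, ← hpoly, mul_assoc, ← Polynomial.C_mul, mul_inv_cancel₀ hx1, Polynomial.C_1,
      mul_one]
  refine ⟨Q * Polynomial.C (eval x (hat H 0))⁻¹, hb, ?_⟩
  refine isLocEq_of_rep _ _ _ E hE fun s => ?_
  have h1 := hrel s
  rw [evN_facP] at h1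
  have h2 := facP_nat a (∑ J, s J)
  apply smul_right_injective (MvPolynomial σ ℂ) h2
  beta_reduce
  rw [← h1, smul_smul]
  congr 1
  rw [← Polynomial.eval_mul, ← hb]

/-- **Global functional equations.** -/
theorem quot_global [Fintype σ] [DecidableEq σ] (a : τ → ℕ)
    (f : (t : τ) → κ t → MvPolynomial σ ℂ) (hf : ∀ t, ∃ j, f t j ≠ 0) (b : Polynomial ℂ)
    (hb : IsBFunction (powProd a f) b) (ha : ∃ t, a t ≠ 0) :
    ∃ (b' : Polynomial ℂ) (H : MvPolynomial σ ℂ), b = facP a * b' ∧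
      (∀ ξ : σ → MvPowerSeries σ ℂ, MvPowerSeries.constantCoeff (MvPolynomial.aeval ξ H) ≠ 0) ∧
      IsLocEq H (prodFam fun q : Σ t, Fin (a t) => f q.1) b' := by
  obtain ⟨t0, ht0⟩ := ha
  obtain ⟨P, hP⟩ := hb
  have h2 : hat (1 : MvPolynomial ((Σ t, κ t) ⊕ σ) ℂ) 0 = 1 := by
    rw [hat_one, if_pos rfl]
  obtain ⟨b', h1, h3⟩ := pow_quot a f hf t0 ht0 b 1 (by rw [h2]; exact one_ne_zero) P
    (fun s => by rw [one_mul]; exact hP s)
  refine ⟨b', _, h1, fun ξ => ?_, h3⟩
  rw [h2, map_one, map_one]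
  exact one_ne_zero

end Pool.Agent.Q282.PA.Mu
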