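import Pool.Agent.Q282.PA.Gen

set_option autoImplicit false
set_option linter.unusedSectionVars false
set_option linter.unusedVariables false

/-! # The exact orders of the poles of the zeta function of a form over ideals -/

namespace Pool.Agent.Q282.PA

open MeasureTheory Pool.Agent.W427.SMC Pool.Agent.TH192.PA Pool.Agent.TH187.SA
  Pool.Agent.TH192.DT MvPolynomial Pool.Agent.H628R4.TP Pool.Agent.Y228.RR
open Filter Topology

/-- `Z` is a meromorphic continuation to `ℂ` of the function `F`, given for `Re s > 0`. -/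
def IsContinuation (Z F : ℂ → ℂ) : Prop :=
  MeromorphicOn Z Set.univ ∧ ∀ s : ℂ, 0 < s.re → Z s = F s

variable (q : ℕ) [Fact q.Prime]

/-- Two meromorphic functions which satisfy a relation on the positive real axis. -/
theorem mero_exact (R : Polynomial ℂ) (hR : R ≠ 0) (c : ℂ) (hc : c ≠ 0) (Z W : ℂ → ℂ)
    (hZ : MeromorphicOn Z Set.univ) (hW : MeromorphicOn W Set.univ)
    (h : ∀ s : ℝ, 0 < s → R.eval (pw q s) * Z s = c * W s) (s0 : ℂ) :
    meromorphicOrderAt W s0 =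
      meromorphicOrderAt Z s0 + ((R.rootMultiplicity (pw q s0) : ℤ) : WithTop ℤ) := by
  set F1 : ℂ → ℂ := (fun s => R.eval (pw q s)) * Z with hF1
  set F2 : ℂ → ℂ := (fun _ => c) * W with hF2
  have hRa : ∀ s, AnalyticAt ℂ (fun s => R.eval (pw q s)) s := fun s =>
    (R.differentiable.analyticAt (pw q s)).comp (pw_analytic q s)
  have hca : ∀ s : ℂ, AnalyticAt ℂ (fun _ : ℂ => c) s := fun s => analyticAt_const
  have hm : MeromorphicOn (F1 - F2) Set.univ := fun s hs =>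
    ((hRa s).meromorphicAt.mul (hZ s hs)).sub ((hca s).meromorphicAt.mul (hW s hs))
  have h1 : meromorphicOrderAt (F1 - F2) 1 = ⊤ := by
    by_contra hne
    have h2 := (meromorphicOrderAt_ne_top_iff_eventually_ne_zero (hm 1 (Set.mem_univ _))).1 hne
    rw [eventually_nhdsWithin_iff, Metric.eventually_nhds_iff] at h2
    obtain ⟨ε, hε, h3⟩ := h2
    have h4 := h3 (y := ((1 + ε / 2 : ℝ) : ℂ)) (by
      rw [dist_eq_norm]
      have : ((1 + ε / 2 : ℝ) : ℂ) - 1 = ((ε / 2 : ℝ) : ℂ) := by push_cast; ring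
      rw [this, Complex.norm_real, Real.norm_of_nonneg (by positivity)]
      linarith) (by
      intro h5
      have h6 : ((1 + ε / 2 : ℝ) : ℂ) = ((1 : ℝ) : ℂ) := by simpa using h5
      have h7 := Complex.ofReal_injective h6
      linarith)
    apply h4
    simp only [Pi.sub_apply, hF1, hF2, Pi.mul_apply]
    rw [h (1 + ε / 2) (by positivity), sub_self]
  have h2 : meromorphicOrderAt (F1 - F2) s0 = ⊤ := by
    by_contra hne
    exact hm.meromorphicOrderAt_ne_top_of_isPreconnected isPreconnected_univ (Set.mem_univ s0)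
      (Set.mem_univ 1) hne h1
  have h3 : F1 =ᶠ[𝓝[≠] s0] F2 := by
    rw [meromorphicOrderAt_eq_top_iff] at h2
    filter_upwards [h2] with z hz
    exact sub_eq_zero.1 hz
  have h4 : meromorphicOrderAt F1 s0 = meromorphicOrderAt F2 s0 := meromorphicOrderAt_congr h3
  have h6 : meromorphicOrderAt (fun s => R.eval (pw q s)) s0 =
      (R.rootMultiplicity (pw q s0) : ℤ) := by
    have := meromorphicOrderAt_comp_of_deriv_ne_zero (f := fun z => R.eval z) (pw_analytic q s0)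
      (pw_deriv q s0)
    rw [order_poly R hR] at this
    exact this
  rw [hF1, hF2, meromorphicOrderAt_mul (hRa s0).meromorphicAt (hZ s0 (Set.mem_univ _)),
    meromorphicOrderAt_mul_of_ne_zero (hca s0) hc, h6] at h4
  rw [← h4, add_comm]

theorem fac_rm_eq (q' ν N : ℕ) (hq : 1 < q') (hν : 0 < ν) (x : ℂ) :
    (Polynomial.C ((q' ^ ν : ℕ) : ℂ) - Polynomial.X ^ N : Polynomial ℂ).rootMultiplicity x =
      if 0 < N ∧ x ^ N = ((q' ^ ν : ℕ) : ℂ) then 1 else 0 := by
  have h1 := fac_rm q' ν N hq hν x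
  by_cases h : 0 < N ∧ x ^ N = ((q' ^ ν : ℕ) : ℂ)
  · rw [if_pos h] at h1 ⊢
    have h2 : 0 < (Polynomial.C ((q' ^ ν : ℕ) : ℂ) - Polynomial.X ^ N :
        Polynomial ℂ).rootMultiplicity x := by
      rw [Polynomial.rootMultiplicity_pos (fac_ne q' ν N hq hν)]
      rw [Polynomial.IsRoot.def, Polynomial.eval_sub, Polynomial.eval_C, Polynomial.eval_pow,
        Polynomial.eval_X, h.2, sub_self]
    omega
  · rw [if_neg h] at h1 ⊢
    omega

theorem pw_pow (n : ℕ) (s : ℂ) : pw q s ^ n = (q : ℂ) ^ (-((n : ℂ) * s)) := by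
  have hq0 : (q : ℂ) ≠ 0 := by exact_mod_cast (Fact.out : q.Prime).ne_zero
  unfold pw
  rw [← Complex.exp_nat_mul, Complex.cpow_def_of_ne_zero hq0, Complex.natCast_log]
  congr 1
  ring

variable {σ T : Type} [Fintype σ] [DecidableEq σ] [Fintype T] [DecidableEq T] {κ : T → Type}
  [∀ t, Fintype (κ t)] [∀ t, DecidableEq (κ t)]

theorem Dp_ne (a : T → ℕ) : Dp q a ≠ 0 :=
  Finset.prod_ne_zero_iff.2 fun t _ =>
    fac_ne q 1 (a t) (Fact.out : q.Prime).one_lt one_pos

theorem Dp_rm (a : T → ℕ) (s : ℂ) : (Dp q a).rootMultiplicity (pw q s) =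
    Nat.card {t // 0 < a t ∧ (q : ℂ) ^ (-((a t : ℂ) * s)) = q} := by
  classical
  have hq1 : 1 < q := (Fact.out : q.Prime).one_lt
  unfold Dp
  rw [rm_prod _ _ (fun t _ => fac_ne q 1 (a t) hq1 one_pos)]
  rw [Nat.card_eq_fintype_card, Fintype.card_subtype, Finset.card_filter]
  refine Finset.sum_congr rfl fun t _ => ?_
  rw [fac_rm_eq q 1 (a t) hq1 one_pos, pw_pow, pow_one]

/-- **Exact orders.** -/
theorem order_rel (g : (t : T) → κ t → MvPolynomial σ ℤ) (hκ : ∀ t, Nonempty (κ t)) (a : T → ℕ)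
    (Z W : ℂ → ℂ) (hZ : IsContinuation Z (igusaZeta q (formG g a)))
    (hW : IsContinuation W (idealsZeta q g a)) (s0 : ℂ) :
    meromorphicOrderAt W s0 = meromorphicOrderAt Z s0 +
      ((Nat.card {t // 0 < a t ∧ (q : ℂ) ^ (-((a t : ℂ) * s0)) = q} : ℤ) : WithTop ℤ) := by
  have hq1 : 1 < q := (Fact.out : q.Prime).one_lt
  have hc : (∏ _t : T, ((q : ℂ) - 1)) ≠ 0 := by
    refine Finset.prod_ne_zero_iff.2 fun t _ => ?_
    intro h
    have h1 : (q : ℂ) = 1 := sub_eq_zero.1 h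
    have h2 : q = 1 := by exact_mod_cast h1
    omega
  have h1 := mero_exact q (Dp q a) (Dp_ne q a) _ hc Z W hZ.1 hW.1 (fun s hs => by
    rw [hZ.2 s (by simpa using hs), hW.2 s (by simpa using hs)]
    exact real_rel q g hκ a s hs) s0
  rw [Dp_rm] at h1
  exact h1

theorem re_of_pow (n : ℕ) (hn : 0 < n) (s : ℂ) (h : (q : ℂ) ^ (-((n : ℂ) * s)) = q) :
    s.re = -(1 / (n : ℝ)) := by
  have hq1 : 1 < q := (Fact.out : q.Prime).one_lt
  rw [← pw_pow] at h
  have h1 := norm_of_pow q 1 n hq1 hn (pw q s) (by rw [h, pow_one])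
  rw [pw_norm] at h1
  rw [h1]
  norm_num

theorem strict_eval (g : (t : T) → κ t → MvPolynomial σ ℤ) (hg : ∀ t, ∃ j, g t j ≠ 0) (a : T → ℕ)
    (b : Polynomial ℂ) (hb : IsBFunction (map (Int.castRingHom ℂ) (formG g a)) b) (t : T)
    (ht : 0 < a t) : b.eval (((-(1 / (a t : ℝ)) : ℝ)) : ℂ) = 0 := by
  rw [map_formG] at hb
  have hg' : ∀ t, ∃ j, gC g t j ≠ 0 := by
    intro t
    obtain ⟨j, hj⟩ := hg t
    refine ⟨j, fun h => hj ?_⟩
    have h1 : map (Int.castRingHom ℂ) (g t j) = map (Int.castRingHom ℂ) 0 := by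
      rw [map_zero]
      exact h
    exact map_injective (Int.castRingHom ℂ) (RingHom.injective_int _) h1
  have h := (powData_global a (gC g) hg' b hb).strict t 0 ht
  rw [Nat.cast_zero, add_zero] at h
  push_cast
  rw [← neg_div]
  exact h

/-- **The poles of the two zeta functions.** -/
theorem poles_iff (g : (t : T) → κ t → MvPolynomial σ ℤ) (hg : ∀ t, ∃ j, g t j ≠ 0) (a : T → ℕ)
    (Z W : ℂ → ℂ) (hZ : IsContinuation Z (igusaZeta q (formG g a)))
    (hW : IsContinuation W (idealsZeta q g a)) (b : Polynomial ℂ)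
    (hb : IsBFunction (map (Int.castRingHom ℂ) (formG g a)) b) :
    (∀ s₀ : ℂ, meromorphicOrderAt Z s₀ < 0 → b.eval (s₀.re : ℂ) = 0) ↔
      ∀ s₀ : ℂ, meromorphicOrderAt W s₀ < 0 → b.eval (s₀.re : ℂ) = 0 := by
  have hκ : ∀ t, Nonempty (κ t) := fun t => ⟨(hg t).choose⟩
  constructor
  · intro h s₀ hs₀
    refine h s₀ ?_
    rw [order_rel q g hκ a Z W hZ hW s₀] at hs₀
    by_contra hcon
    rw [not_lt] at hcon
    refine absurd hs₀ (not_lt.2 ?_)
    have h1 : (0 : WithTop ℤ) ≤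
        ((Nat.card {t // 0 < a t ∧ (q : ℂ) ^ (-((a t : ℂ) * s₀)) = q} : ℤ) : WithTop ℤ) := by
      rw [← WithTop.coe_zero, WithTop.coe_le_coe]
      exact Int.natCast_nonneg _
    exact add_nonneg hcon h1
  · intro h s₀ hs₀
    by_cases hc : 0 < Nat.card {t // 0 < a t ∧ (q : ℂ) ^ (-((a t : ℂ) * s₀)) = q}
    · obtain ⟨⟨t, ht, ht'⟩⟩ := (Nat.card_pos_iff.1 hc).1
      rw [re_of_pow q (a t) ht s₀ ht']
      exact strict_eval g hg a b hb t ht
    · have h0 : Nat.card {t // 0 < a t ∧ (q : ℂ) ^ (-((a t : ℂ) * s₀)) = q} = 0 := by omega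
      refine h s₀ ?_
      rw [order_rel q g hκ a Z W hZ hW s₀, h0]
      simpa using hs₀

theorem rees_eval (g : (t : T) → κ t → MvPolynomial σ ℤ) (a : T → ℕ)
    (b : Polynomial ℂ) (hb : IsBFunction (map (Int.castRingHom ℂ) (formG g a)) b) (ν N : ℕ)
    (hN : 0 < N) (h : FromRees (gC g) a 1 ν N) : b.eval (((-((ν : ℝ) / N) : ℝ)) : ℂ) = 0 := by
  rw [map_formG] at hb
  have ha : ∃ t, a t ≠ 0 := by
    obtain ⟨E, hE, _, l, p, hl, _⟩ := h
    by_contra hcon
    push Not at hcon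
    have : E.mul a = 0 := by
      unfold Pool.Agent.Y231.RF.Chart.mul
      exact Finset.sum_eq_zero fun t _ => by rw [hcon t, zero_mul]
    omega
  obtain ⟨H, hH, hHb⟩ := locEq_global a (gC g) b hb ha
  have h1 := root_of_from a (gC g) b H hHb ν N hN (h.congr hH)
  push_cast
  rw [← neg_div]
  exact h1

end Pool.Agent.Q282.PA
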