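import Pool.Agent.Q282.PA.Mult2

set_option autoImplicit false
set_option linter.unusedSectionVars false
set_option linter.unusedVariables false

/-! # Orders of poles and multiplicities of roots -/

namespace Pool.Agent.Q282.PA

open MeasureTheory Pool.Agent.W427.SMC Pool.Agent.TH192.PA Pool.Agent.TH187.SA
  Pool.Agent.TH192.DT MvPolynomial Pool.Agent.H628R4.TP Pool.Agent.Y228.RR
open scoped ENNReal NNReal

variable {σ T : Type} [Fintype σ] [DecidableEq σ] [Fintype T] [DecidableEq T] {κ : T → Type}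
  [∀ t, Fintype (κ t)] [∀ t, DecidableEq (κ t)]

theorem facP_ne (a : T → ℕ) : Mu.facP a ≠ 0 := by
  intro h
  have := Mu.facP_nat a 0
  rw [h, Polynomial.eval_zero] at this
  exact this rfl

/-- the multiplicity of the factor of the strict transforms -/
theorem facP_rm (a : T → ℕ) (r : ℝ) :
    Nat.card {t // 0 < a t ∧ r = -(1 / (a t : ℝ))} ≤ (Mu.facP a).rootMultiplicity (r : ℂ) := by
  classical
  have hne : ∀ t, (∏ i ∈ Finset.range (a t), (Polynomial.C (a t : ℂ) * Polynomial.X +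
      Polynomial.C ((i + 1 : ℕ) : ℂ))) ≠ 0 := fun t => by
    have h := facP_ne a
    unfold Mu.facP at h
    exact Finset.prod_ne_zero_iff.1 h t (Finset.mem_univ t)
  unfold Mu.facP
  rw [rm_prod _ _ (fun t _ => hne t), Nat.card_eq_fintype_card, Fintype.card_subtype,
    Finset.card_filter]
  refine Finset.sum_le_sum fun t _ => ?_
  split_ifs with h
  · have h1 : 0 < (∏ i ∈ Finset.range (a t), (Polynomial.C (a t : ℂ) * Polynomial.X +
        Polynomial.C ((i + 1 : ℕ) : ℂ))).rootMultiplicity (r : ℂ) := by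
      rw [Polynomial.rootMultiplicity_pos (hne t), Polynomial.IsRoot.def, Polynomial.eval_prod]
      refine Finset.prod_eq_zero (Finset.mem_range.2 h.1) ?_
      rw [Polynomial.eval_add, Polynomial.eval_mul, Polynomial.eval_C, Polynomial.eval_C,
        Polynomial.eval_X, h.2]
      have h2 : (a t : ℂ) ≠ 0 := Nat.cast_ne_zero.2 h.1.ne'
      push_cast
      field_simp
      ring
    exact h1
  · exact Nat.zero_le _

/-- **Multiplicities of the roots.** -/
theorem mult_strict (g : (t : T) → κ t → MvPolynomial σ ℤ) (hg : ∀ t, ∃ j, g t j ≠ 0) (a : T → ℕ)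
    (b : Polynomial ℂ) (hb : IsBFunction (map (Int.castRingHom ℂ) (formG g a)) b) (hb0 : b ≠ 0)
    (r : ℝ) : Nat.card {t // 0 < a t ∧ r = -(1 / (a t : ℝ))} ≤ b.rootMultiplicity (r : ℂ) := by
  rw [map_formG] at hb
  by_cases ha : ∃ t, a t ≠ 0
  · obtain ⟨b', H, h1, _, _⟩ := Mu.quot_global a (gC g) (gC_ne g hg) b hb ha
    have hb'0 : b' ≠ 0 := by
      intro h
      apply hb0
      rw [h1, h, mul_zero]
    rw [h1, Polynomial.rootMultiplicity_mul (mul_ne_zero (facP_ne a) hb'0)]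
    exact (facP_rm a r).trans (Nat.le_add_right _ _)
  · push Not at ha
    have h1 : IsEmpty {t // 0 < a t ∧ r = -(1 / (a t : ℝ))} :=
      ⟨fun x => absurd x.2.1 (by rw [ha]; exact lt_irrefl _)⟩
    rw [Nat.card_of_isEmpty]
    exact Nat.zero_le _

/-- **A Rees divisor adds one to the multiplicity.** -/
theorem mult_rees (g : (t : T) → κ t → MvPolynomial σ ℤ) (hg : ∀ t, ∃ j, g t j ≠ 0) (a : T → ℕ)
    (b : Polynomial ℂ) (hb : IsBFunction (map (Int.castRingHom ℂ) (formG g a)) b) (hb0 : b ≠ 0)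
    (ν N : ℕ) (hN : 0 < N) (h : FromRees (gC g) a 1 ν N) (r : ℝ) (hr : r = -((ν : ℝ) / N)) :
    Nat.card {t // 0 < a t ∧ r = -(1 / (a t : ℝ))} + 1 ≤ b.rootMultiplicity (r : ℂ) := by
  rw [map_formG] at hb
  have ha : ∃ t, a t ≠ 0 := by
    obtain ⟨E, hE, _, l, p, hl, _⟩ := h
    by_contra hcon
    push Not at hcon
    have : E.mul a = 0 := by
      unfold Pool.Agent.Y231.RF.Chart.mul
      exact Finset.sum_eq_zero fun t _ => by rw [hcon t, zero_mul]
    omega
  obtain ⟨b', H, h1, hH, hb'⟩ := Mu.quot_global a (gC g) (gC_ne g hg) b hb ha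
  have hb'0 : b' ≠ 0 := by
    intro h
    apply hb0
    rw [h1, h, mul_zero]
  have h2 := root_of_from a (gC g) b' H hb' ν N hN (h.congr hH)
  have h3 : b'.eval (r : ℂ) = 0 := by
    rw [hr]
    push_cast
    rw [← neg_div]
    exact h2
  have h4 : 0 < b'.rootMultiplicity (r : ℂ) := (Polynomial.rootMultiplicity_pos hb'0).2 h3
  rw [h1, Polynomial.rootMultiplicity_mul (mul_ne_zero (facP_ne a) hb'0)]
  have h5 := facP_rm a r
  omega

/-- **Orders.** If at `s₀` the zeta function `W` of the ideals has no pole, or a simple pole whose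
real part comes from a Rees divisor, then the order of the pole of the Igusa zeta function at `s₀` is
at most the multiplicity of the root. -/
theorem order_main (q : ℕ) [Fact q.Prime] (g : (t : T) → κ t → MvPolynomial σ ℤ)
    (hg : ∀ t, ∃ j, g t j ≠ 0) (a : T → ℕ)
    (Z W : ℂ → ℂ) (hZ : IsContinuation Z (igusaZeta q (formG g a)))
    (hW : IsContinuation W (idealsZeta q g a)) (b : Polynomial ℂ)
    (hb : IsBFunction (map (Int.castRingHom ℂ) (formG g a)) b) (hb0 : b ≠ 0) (s₀ : ℂ)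
    (h : 0 ≤ meromorphicOrderAt W s₀ ∨ -1 ≤ meromorphicOrderAt W s₀ ∧
      ∃ ν N : ℕ, 0 < N ∧ s₀.re = -((ν : ℝ) / N) ∧ FromRees (gC g) a 1 ν N) :
    ((-(b.rootMultiplicity ((s₀.re : ℝ) : ℂ) : ℤ) : ℤ) : WithTop ℤ) ≤ meromorphicOrderAt Z s₀ := by
  have hκ : ∀ t, Nonempty (κ t) := fun t => ⟨(hg t).choose⟩
  have h1 := order_rel q g hκ a Z W hZ hW s₀
  have h2 : Nat.card {t // 0 < a t ∧ (q : ℂ) ^ (-((a t : ℂ) * s₀)) = q} ≤
      Nat.card {t // 0 < a t ∧ s₀.re = -(1 / (a t : ℝ))} := by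
    refine Nat.card_le_card_of_injective (fun x => ⟨x.1, x.2.1, re_of_pow q _ x.2.1 s₀ x.2.2⟩) ?_
    intro x y hxy
    exact Subtype.ext (congrArg (fun z => z.1) hxy)
  rcases hzo : meromorphicOrderAt Z s₀ with _ | n
  · exact le_top
  · rw [hzo] at h1
    change meromorphicOrderAt W s₀ = ((n : ℤ) : WithTop ℤ) + _ at h1
    rw [← WithTop.coe_add] at h1
    change ((-(b.rootMultiplicity ((s₀.re : ℝ) : ℂ) : ℤ) : ℤ) : WithTop ℤ) ≤ ((n : ℤ) : WithTop ℤ)
    rw [WithTop.coe_le_coe]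
    rcases h with h | ⟨h, ν, N, hN, hr, hR⟩
    · rw [h1, ← WithTop.coe_zero, WithTop.coe_le_coe] at h
      have h3 := mult_strict g hg a b hb hb0 s₀.re
      omega
    · have h4 : ((-1 : ℤ) : WithTop ℤ) ≤ meromorphicOrderAt W s₀ := h
      rw [h1, WithTop.coe_le_coe] at h4
      have h3 := mult_rees g hg a b hb hb0 ν N hN hR s₀.re hr
      omega

/-- **Both parts of the conjecture** for forms over ideals generated by forms without common zeros. -/
theorem cone_orders [Nonempty σ] (g : (t : T) → κ t → MvPolynomial σ ℤ)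
    (hg : ∀ t, ∃ j, g t j ≠ 0) (d : T → ℕ) (hd : ∀ t j, (g t j).IsHomogeneous (d t)) (a : T → ℕ)
    (h : Primary g a) :
    ∃ N : ℕ, ∀ (q : ℕ) [Fact q.Prime], N < q → ∀ Z : ℂ → ℂ,
      IsContinuation Z (igusaZeta q (formG g a)) →
      ∀ s₀ : ℂ, ∀ b : Polynomial ℂ,
        IsBFunction (MvPolynomial.map (Int.castRingHom ℂ) (formG g a)) b → b ≠ 0 →
        ((-(b.rootMultiplicity ((s₀.re : ℝ) : ℂ) : ℤ) : ℤ) : WithTop ℤ) ≤
          meromorphicOrderAt Z s₀ := by
  classical
  obtain ⟨N0, hN0⟩ := large g a h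
  refine ⟨N0, fun q _ hq Z hZ s₀ b hb hb0 => ?_⟩
  refine le_trans ?_
    (cone_poles q g (fun t => ⟨(hg t).choose⟩) d hd a (hN0 q hq) Z hZ s₀)
  rw [WithTop.coe_le_coe, neg_le_neg_iff, Nat.cast_le]
  by_cases hn : 0 < mulO a d none ∧ s₀.re = -((nuO σ T none : ℝ) / mulO a d none)
  · have h1 := mult_rees g hg a b hb hb0 (Fintype.card σ) (∑ t, a t * d t) hn.1
      (cone_rees g hg d hd a h hn.1) s₀.re hn.2
    refine le_trans ?_ h1
    have h2 : Nat.card (Option {t // 0 < a t ∧ s₀.re = -(1 / (a t : ℝ))}) =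
        Nat.card {t // 0 < a t ∧ s₀.re = -(1 / (a t : ℝ))} + 1 := by
      rw [Nat.card_eq_fintype_card, Nat.card_eq_fintype_card, Fintype.card_option]
    rw [← h2]
    refine Nat.card_le_card_of_injective (fun x => match x with
      | ⟨none, _⟩ => none
      | ⟨some t, ht⟩ => some ⟨t, ht.1, by
          have h5 := ht.2
          change s₀.re = -(((1 : ℕ) : ℝ) / ((a t : ℕ) : ℝ)) at h5
          rw [Nat.cast_one] at h5
          exact h5⟩) ?_
    rintro ⟨_ | x, hx⟩ ⟨_ | y, hy⟩ hxy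
    · rfl
    · exact absurd hxy (by simp)
    · exact absurd hxy (by simp)
    · apply Subtype.ext
      simpa using hxy
  · have h1 := mult_strict g hg a b hb hb0 s₀.re
    refine le_trans ?_ h1
    refine Nat.card_le_card_of_injective (fun x => match x with
      | ⟨none, hx⟩ => absurd hx hn
      | ⟨some t, ht⟩ => ⟨t, ht.1, by
          have h5 := ht.2
          change s₀.re = -(((1 : ℕ) : ℝ) / ((a t : ℕ) : ℝ)) at h5
          rw [Nat.cast_one] at h5
          exact h5⟩) ?_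
    rintro ⟨_ | x, hx⟩ ⟨_ | y, hy⟩ hxy
    · rfl
    · exact absurd hx hn
    · exact absurd hy hn
    · apply Subtype.ext
      simpa using hxy

end Pool.Agent.Q282.PA
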