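import Pool.Agent.Q282.PA.Int

set_option autoImplicit false
set_option linter.unusedSectionVars false
set_option linter.unusedVariables false

/-! # Rationality of the integrals, with one factor for each irreducible flat -/

namespace Pool.Agent.Q282.PA

open MeasureTheory Pool.Agent.W427.SMC Pool.Agent.TH192.PA Polynomial
open scoped ENNReal NNReal

attribute [local instance] msZ bsZ

variable {σ : Type} [Fintype σ] [DecidableEq σ] {S : Type} [Fintype S] [DecidableEq S]
  {κ : S → Type} [∀ s, Fintype (κ s)]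

/-- `B` consists of all the indices in `A` of families which vanish on the common zeros of the families
of index in `B`. -/
def Closed (c : (s : S) → Matrix (κ s) σ ℤ) (A B : Finset S) : Prop :=
  B ⊆ A ∧ ∀ s ∈ A, ker ℂ (rows c B) ≤ ker ℂ (c s) → s ∈ B

/-- closed, not empty, and not the disjoint union of two non-empty sets with transversal zeros -/
def Irr (c : (s : S) → Matrix (κ s) σ ℤ) (A B : Finset S) : Prop :=
  Closed c A B ∧ B.Nonempty ∧ ∀ C1 C2 : Finset S, Disjoint C1 C2 → C1 ∪ C2 = B →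
    ker ℂ (rows c C1) ⊔ ker ℂ (rows c C2) = ⊤ → C1 = ∅ ∨ C2 = ∅

/-- the conditions on the prime -/
structure Good (q : ℕ) (c : (s : S) → Matrix (κ s) σ ℤ) : Prop where
  card : Fintype.card σ < q
  inv : ∀ C : Finset S, ∃ (D : ℤ) (Q : Matrix σ (Σ s : {s // s ∈ C}, κ s.1) ℤ),
    D ≠ 0 ∧ rows c C * Q * rows c C = D • rows c C ∧ ¬ (q : ℤ) ∣ D
  split : ∀ C1 C2 : Finset S, ker ℂ (rows c C1) ⊔ ker ℂ (rows c C2) = ⊤ →
    ∃ (D : ℤ) (P : Matrix σ σ ℤ), rows c C2 * P = 0 ∧ rows c C1 * P = D • rows c C1 ∧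
      ¬ (q : ℤ) ∣ D

theorem not_dvd_of_lt (q : ℕ) (D : ℤ) (hD : D ≠ 0) (h : D.natAbs < q) : ¬ (q : ℤ) ∣ D := by
  intro h1
  have h2 := Int.natAbs_dvd_natAbs.2 h1
  rw [Int.natAbs_natCast] at h2
  have h3 := Nat.le_of_dvd (Int.natAbs_pos.2 hD) h2
  omega

/-- **Almost all primes are good.** -/
theorem good_of_large (c : (s : S) → Matrix (κ s) σ ℤ) : ∃ N : ℕ, ∀ q : ℕ, N < q → Good q c := by
  classical
  have h1 : ∀ C : Finset S, ∃ (D : ℤ) (Q : Matrix σ (Σ s : {s // s ∈ C}, κ s.1) ℤ),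
      D ≠ 0 ∧ rows c C * Q * rows c C = D • rows c C := by
    intro C
    obtain ⟨D, hD, Q, hQ⟩ := ginv (rows c C)
    exact ⟨D, Q, hD, hQ⟩
  choose D1 Q1 hD1 hQ1 using h1
  have h2 : ∀ p : Finset S × Finset S, ∃ (D : ℤ) (P : Matrix σ σ ℤ), D ≠ 0 ∧
      (ker ℂ (rows c p.1) ⊔ ker ℂ (rows c p.2) = ⊤ → rows c p.2 * P = 0 ∧
        rows c p.1 * P = D • rows c p.1) := by
    intro p
    by_cases h : ker ℂ (rows c p.1) ⊔ ker ℂ (rows c p.2) = ⊤
    · obtain ⟨D, hD, P, h3, h4⟩ := split (rows c p.1) (rows c p.2) h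
      exact ⟨D, P, hD, fun _ => ⟨h3, h4⟩⟩
    · exact ⟨1, 0, one_ne_zero, fun h' => absurd h' h⟩
  choose D2 P2 hD2 hP2 using h2
  refine ⟨Fintype.card σ + ∑ C, (D1 C).natAbs + ∑ p, (D2 p).natAbs, fun q hq => ⟨by omega, ?_, ?_⟩⟩
  · intro C
    refine ⟨D1 C, Q1 C, hD1 C, hQ1 C, not_dvd_of_lt q _ (hD1 C) ?_⟩
    have := Finset.single_le_sum (f := fun C => (D1 C).natAbs) (fun _ _ => Nat.zero_le _)
      (Finset.mem_univ C)
    omega
  · intro C1 C2 h
    obtain ⟨h3, h4⟩ := hP2 (C1, C2) h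
    refine ⟨D2 (C1, C2), P2 (C1, C2), h3, h4, not_dvd_of_lt q _ (hD2 _) ?_⟩
    have := Finset.single_le_sum (f := fun p => (D2 p).natAbs) (fun _ _ => Nat.zero_le _)
      (Finset.mem_univ (C1, C2))
    omega

theorem ker_rows_anti (c : (s : S) → Matrix (κ s) σ ℤ) (K : Type) [CommRing K] {B C : Finset S}
    (h : B ⊆ C) : ker K (rows c C) ≤ ker K (rows c B) := by
  intro x hx
  rw [mem_ker', mv_rows] at hx ⊢
  exact fun s hs => hx s (h hs)

theorem ker_rows_le (c : (s : S) → Matrix (κ s) σ ℤ) (K : Type) [CommRing K] {B : Finset S}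
    {s : S} (h : s ∈ B) : ker K (rows c B) ≤ ker K (c s) := by
  intro x hx
  rw [mem_ker', mv_rows] at hx
  exact (mem_ker' K _ _).2 (hx s h)

variable (q : ℕ) [Fact q.Prime] (c : (s : S) → Matrix (κ s) σ ℤ) (n : S → ℕ)

theorem closed_cl (hg : Good q c) {A B : Finset S} (hB : Closed c A B) (w : σ → ZMod q) :
    Closed c A (cl q c B w) := by
  refine ⟨(cl_sub q c B w).trans hB.1, fun s hs h => ?_⟩
  have hsB : s ∈ B := hB.2 s hs ((ker_rows_anti c ℂ (cl_sub q c B w)).trans h)
  refine Finset.mem_filter.2 ⟨hsB, ?_⟩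
  obtain ⟨D, Q, _, hQ, hD⟩ := hg.inv (cl q c B w)
  have h1 := vanish (rows c (cl q c B w)) hQ (c s) h
  have h2 : mv (ZMod q) (rows c (cl q c B w)) w = 0 :=
    (mv_rows c _ _ w).2 fun s hs => (Finset.mem_filter.1 hs).2
  have h3 : (D : ZMod q) • mv (ZMod q) (c s) w = 0 := by
    rw [← mv_smul, ← h1, mv_mul, h2, mv_zero]
  have hDq : (D : ZMod q) ≠ 0 := by
    intro h
    exact hD ((ZMod.intCast_zmod_eq_zero_iff_dvd D q).1 h)
  exact (smul_eq_zero.1 h3).resolve_left hDq

open Classical in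
/-- the irreducible sets contained in `B` -/
noncomputable def irrs (A B : Finset S) : Finset (Finset S) :=
  A.powerset.filter fun C => Irr c A C ∧ C ⊆ B

theorem mem_irrs (A B C : Finset S) : C ∈ irrs c A B ↔ Irr c A C ∧ C ⊆ B := by
  classical
  unfold irrs
  rw [Finset.mem_filter, Finset.mem_powerset]
  exact ⟨fun h => h.2, fun h => ⟨h.1.1.1, h⟩⟩

/-- the codimension of the common zeros -/
noncomputable def cod (B : Finset S) : ℕ :=
  Fintype.card σ - Module.finrank ℂ (ker ℂ (rows c B))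

/-- the factor of `B` -/
noncomputable def fac (B : Finset S) : ℝ[X] :=
  1 - C (((q : ℝ)⁻¹) ^ cod c B) * X ^ (∑ s ∈ B, n s)

/-- the denominator -/
noncomputable def den (A B : Finset S) : ℝ[X] := ∏ C ∈ irrs c A B, fac q c n C

/-- the statement of rationality -/
def Rat (E : ℝ[X]) (B : Finset S) : Prop :=
  ∃ P : ℝ[X], ∀ t : ℝ, 0 < t → E.eval (tr' q t) * (GB q c n t B).toReal = P.eval (tr' q t)

theorem Rat.of_dvd {E E' : ℝ[X]} {B : Finset S} (h : Rat q c n E B) (hd : E ∣ E') :
    Rat q c n E' B := by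
  obtain ⟨P, hP⟩ := h
  obtain ⟨F, rfl⟩ := hd
  refine ⟨F * P, fun t ht => ?_⟩
  rw [eval_mul, eval_mul, ← hP t ht]
  ring

theorem GB_ne_top (t : ℝ) (ht : 0 ≤ t) (B : Finset S) : GB q c n t B ≠ ⊤ :=
  ne_top_of_le_ne_top ENNReal.one_ne_top (GB_le q c n t ht B)

/-- the recursion for real numbers -/
theorem GB_real (hg : Good q c) (t : ℝ) (ht : 0 < t) (B : Finset S) :
    (GB q c n t B).toReal = ∑ w : σ → ZMod q, ((q : ℝ)⁻¹) ^ Fintype.card σ *
      (tr' q t ^ (∑ s ∈ cl q c B w, n s) * (GB q c n t (cl q c B w)).toReal) := by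
  rw [GB_step q c n t ht.le B (fun C => by
    obtain ⟨D, Q, _, hQ, hD⟩ := hg.inv C
    exact ⟨D, Q, hQ, hD⟩)]
  have hq0 : (q : ℝ≥0∞) ≠ 0 := by exact_mod_cast (Fact.out : q.Prime).ne_zero
  have hT : Tt q t ≠ ⊤ := ENNReal.ofReal_ne_top
  rw [ENNReal.toReal_sum]
  · refine Finset.sum_congr rfl fun w _ => ?_
    rw [ENNReal.toReal_mul, ENNReal.toReal_mul, ENNReal.toReal_pow, ENNReal.toReal_pow,
      Tt_toReal, ENNReal.toReal_inv, ENNReal.toReal_natCast]
  · intro w _
    exact ENNReal.mul_ne_top (ENNReal.pow_ne_top (ENNReal.inv_ne_top.2 hq0))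
      (ENNReal.mul_ne_top (ENNReal.pow_ne_top hT) (GB_ne_top q c n t ht.le _))

/-- the number of the residue classes in all the subspaces -/
theorem card_all (hg : Good q c) (B : Finset S) :
    ((Finset.univ.filter fun w : σ → ZMod q => cl q c B w = B).card : ℝ) *
      ((q : ℝ)⁻¹) ^ Fintype.card σ = ((q : ℝ)⁻¹) ^ cod c B := by
  obtain ⟨D, Q, hD0, hQ, hD⟩ := hg.inv B
  have h1 := card_ker (rows c B) hQ hD0 q hD hg.card
  have h2 : Nat.card {w : σ → ZMod q // mv (ZMod q) (rows c B) w = 0} =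
      (Finset.univ.filter fun w : σ → ZMod q => cl q c B w = B).card := by
    rw [Nat.card_eq_fintype_card, Fintype.card_subtype]
    congr 1
    ext w
    simp only [Finset.mem_filter, Finset.mem_univ, true_and]
    rw [mv_rows, cl, Finset.filter_eq_self]
  rw [h2] at h1
  rw [h1]
  have hq0 : (q : ℝ) ≠ 0 := by exact_mod_cast (Fact.out : q.Prime).ne_zero
  have h3 : Module.finrank ℂ (ker ℂ (rows c B)) ≤ Fintype.card σ := by
    have := (ker ℂ (rows c B)).finrank_le
    rwa [Module.finrank_fintype_fun_eq_card] at this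
  have h4 : Fintype.card σ = Module.finrank ℂ (ker ℂ (rows c B)) + cod c B := by
    unfold cod
    omega
  conv_lhs => rw [h4]
  rw [pow_add, Nat.cast_pow, ← mul_assoc, ← mul_pow, mul_inv_cancel₀ hq0, one_pow, one_mul]

/-- **Rationality.** -/
theorem rat_main (hg : Good q c) (A : Finset S) (hA : ∀ s ∈ A, ker ℂ (c s) ≠ ⊤) (B : Finset S) :
    Closed c A B → Rat q c n (den q c n A B) B := by
  classical
  induction B using Finset.strongInduction with
  | H B ih =>
    intro hB
    rcases B.eq_empty_or_nonempty with rfl | hne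
    · refine ⟨den q c n A ∅, fun t _ => ?_⟩
      have h1 : GB q c n t ∅ = 1 := by
        unfold GB FB
        simp
      rw [h1, ENNReal.toReal_one, mul_one]
    by_cases hirr : Irr c A B
    · -- irreducible
      have hmem : B ∈ irrs c A B := (mem_irrs c A B B).2 ⟨hirr, Finset.Subset.refl B⟩
      set E : ℝ[X] := ∏ C ∈ (irrs c A B).erase B, fac q c n C with hE
      have hden : den q c n A B = fac q c n B * E := by
        rw [den, hE, Finset.mul_prod_erase _ _ hmem]
      have h1 : ∀ w : σ → ZMod q, cl q c B w ≠ B → Rat q c n E (cl q c B w) := by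
        intro w hw
        have hss : cl q c B w ⊂ B := (cl_sub q c B w).ssubset_of_ne hw
        refine (ih _ hss (closed_cl q c hg hB w)).of_dvd q c n ?_
        refine Finset.prod_dvd_prod_of_subset _ _ _ fun C hC => ?_
        rw [mem_irrs] at hC
        refine Finset.mem_erase.2 ⟨?_, (mem_irrs c A B C).2 ⟨hC.1, hC.2.trans hss.1⟩⟩
        rintro rfl
        exact hss.2 hC.2
      choose P hP using h1
      refine ⟨∑ w : σ → ZMod q, if h : cl q c B w = B then 0 else
        C (((q : ℝ)⁻¹) ^ Fintype.card σ) * X ^ (∑ s ∈ cl q c B w, n s) * P w h, fun t ht => ?_⟩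
      have h2 := GB_real q c n hg t ht B
      rw [← Finset.sum_filter_add_sum_filter_not Finset.univ
        (fun w : σ → ZMod q => cl q c B w = B)] at h2
      have h3 : ∑ w ∈ Finset.univ.filter (fun w : σ → ZMod q => cl q c B w = B),
          ((q : ℝ)⁻¹) ^ Fintype.card σ *
          (tr' q t ^ (∑ s ∈ cl q c B w, n s) * (GB q c n t (cl q c B w)).toReal) =
          ((q : ℝ)⁻¹) ^ cod c B * (tr' q t ^ (∑ s ∈ B, n s) * (GB q c n t B).toReal) := by
        rw [Finset.sum_congr rfl (g := fun _ => ((q : ℝ)⁻¹) ^ Fintype.card σ *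
          (tr' q t ^ (∑ s ∈ B, n s) * (GB q c n t B).toReal)) (fun w hw => by
            rw [(Finset.mem_filter.1 hw).2])]
        rw [Finset.sum_const, nsmul_eq_mul, ← card_all q c hg B]
        ring
      rw [h3] at h2
      have h4 : (fac q c n B).eval (tr' q t) * (GB q c n t B).toReal =
          ∑ w ∈ Finset.univ.filter (fun w : σ → ZMod q => ¬ cl q c B w = B),
          ((q : ℝ)⁻¹) ^ Fintype.card σ *
          (tr' q t ^ (∑ s ∈ cl q c B w, n s) * (GB q c n t (cl q c B w)).toReal) := by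
        unfold fac
        rw [eval_sub, eval_one, eval_mul, eval_C, eval_pow, eval_X]
        linear_combination h2
      rw [hden, eval_mul, mul_comm (eval _ (fac q c n B)), mul_assoc, h4, Finset.mul_sum,
        eval_finsetSum, Finset.sum_filter]
      refine Finset.sum_congr rfl fun w _ => ?_
      by_cases hw : cl q c B w = B
      · rw [if_neg (not_not.2 hw), dif_pos hw, eval_zero]
      · rw [if_pos hw, dif_neg hw, eval_mul, eval_mul, eval_C, eval_pow, eval_X, ← hP w hw t ht]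
        ring
    · -- reducible
      obtain ⟨C1, C2, hd, hu, htop, hn1, hn2⟩ : ∃ C1 C2 : Finset S, Disjoint C1 C2 ∧
          C1 ∪ C2 = B ∧ ker ℂ (rows c C1) ⊔ ker ℂ (rows c C2) = ⊤ ∧ C1.Nonempty ∧
          C2.Nonempty := by
        by_contra hcon
        apply hirr
        refine ⟨hB, hne, fun C1 C2 hd hu htop => ?_⟩
        by_contra h
        push Not at h
        exact hcon ⟨C1, C2, hd, hu, htop, h.1, h.2⟩
      have hs1 : C1 ⊆ B := hu ▸ Finset.subset_union_left
      have hs2 : C2 ⊆ B := hu ▸ Finset.subset_union_right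
      have hcl1 : Closed c A C1 := by
        refine ⟨hs1.trans hB.1, fun s hs h => ?_⟩
        have h1 : s ∈ B := hB.2 s hs ((ker_rows_anti c ℂ hs1).trans h)
        rw [← hu, Finset.mem_union] at h1
        refine h1.resolve_right fun h2 => hA s hs ?_
        rw [eq_top_iff, ← htop]
        exact sup_le h (ker_rows_le c ℂ h2)
      have hcl2 : Closed c A C2 := by
        refine ⟨hs2.trans hB.1, fun s hs h => ?_⟩
        have h1 : s ∈ B := hB.2 s hs ((ker_rows_anti c ℂ hs2).trans h)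
        rw [← hu, Finset.mem_union] at h1
        refine h1.resolve_left fun h2 => hA s hs ?_
        rw [eq_top_iff, ← htop]
        exact sup_le (ker_rows_le c ℂ h2) h
      have hss1 : C1 ⊂ B := by
        refine hs1.ssubset_of_ne fun h => ?_
        obtain ⟨s, hs⟩ := hn2
        exact Finset.disjoint_left.1 hd (h ▸ hs2 hs) hs
      have hss2 : C2 ⊂ B := by
        refine hs2.ssubset_of_ne fun h => ?_
        obtain ⟨s, hs⟩ := hn1
        exact Finset.disjoint_left.1 hd hs (h ▸ hs1 hs)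
      obtain ⟨P1, hP1⟩ := ih C1 hss1 hcl1
      obtain ⟨P2, hP2⟩ := ih C2 hss2 hcl2
      obtain ⟨D, P, h2, h1, hD⟩ := hg.split C1 C2 htop
      have key : Rat q c n (den q c n A C1 * den q c n A C2) B := by
        refine ⟨P1 * P2, fun t ht => ?_⟩
        rw [← hu, GB_split q c n t ht.le C1 C2 hd h2 h1 hD, ENNReal.toReal_mul, eval_mul,
          eval_mul, ← hP1 t ht, ← hP2 t ht]
        ring
      refine key.of_dvd q c n ?_
      have hdis : Disjoint (irrs c A C1) (irrs c A C2) := by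
        rw [Finset.disjoint_left]
        intro C h1 h2
        rw [mem_irrs] at h1 h2
        obtain ⟨s, hs⟩ := h1.1.2.1
        exact Finset.disjoint_left.1 hd (h1.2 hs) (h2.2 hs)
      unfold den
      rw [← Finset.prod_union hdis]
      refine Finset.prod_dvd_prod_of_subset _ _ _ fun C hC => ?_
      rcases Finset.mem_union.1 hC with hC | hC
      · rw [mem_irrs] at hC
        exact (mem_irrs c A B C).2 ⟨hC.1, hC.2.trans hs1⟩
      · rw [mem_irrs] at hC
        exact (mem_irrs c A B C).2 ⟨hC.1, hC.2.trans hs2⟩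

end Pool.Agent.Q282.PA
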