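import Pool.Agent.Q282.PA.TopOrd

set_option autoImplicit false
set_option linter.unusedSectionVars false
set_option linter.unusedVariables false

/-! # Forms without common zeros: a factor of the Bernstein-Sato polynomial and the topological zeta
function -/

namespace Pool.Agent.Q282.PA

open Pool.Agent.TH192.DT MvPolynomial Pool.Agent.H628R4.TP Pool.Agent.Y228.RR
  Pool.Agent.Y231.RF Pool.Agent.W574.HS Pool.Agent.W574.LM

variable {σ T : Type} [Fintype σ] [DecidableEq σ] [Fintype T] [DecidableEq T] {κ : T → Type}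
  [∀ t, Fintype (κ t)] [∀ t, DecidableEq (κ t)]

/-- The polynomial `(N s + n) ∏ t, ∏_{i < a t} (a t s + i + 1)`, `N = ∑ t, a t d t`. -/
noncomputable def coneFactor (n : ℕ) (a d : T → ℕ) : Polynomial ℂ :=
  (Polynomial.C ((∑ t, a t * d t : ℕ) : ℂ) * Polynomial.X + Polynomial.C (n : ℂ)) *
    ∏ t, ∏ i ∈ Finset.range (a t), (Polynomial.C (a t : ℂ) * Polynomial.X +
      Polynomial.C ((i + 1 : ℕ) : ℂ))

theorem lin_dvd (N n : ℕ) (hn : 0 < n) (b : Polynomial ℂ)
    (h : 0 < N → b.eval (-(n : ℂ) / N) = 0) :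
    (Polynomial.C (N : ℂ) * Polynomial.X + Polynomial.C (n : ℂ)) ∣ b := by
  rcases Nat.eq_zero_or_pos N with h0 | h0
  · rw [h0, Nat.cast_zero, Polynomial.C_0, zero_mul, zero_add]
    have h1 : IsUnit (Polynomial.C (n : ℂ)) := by
      rw [Polynomial.isUnit_C]
      exact isUnit_iff_ne_zero.2 (Nat.cast_ne_zero.2 hn.ne')
    exact h1.dvd
  · have hN : (N : ℂ) ≠ 0 := Nat.cast_ne_zero.2 h0.ne'
    have h1 := Polynomial.dvd_iff_isRoot.2 (h h0)
    have h2 : (Polynomial.C (N : ℂ) * Polynomial.X + Polynomial.C (n : ℂ)) =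
        Polynomial.C (N : ℂ) * (Polynomial.X - Polynomial.C (-(n : ℂ) / N)) := by
      rw [mul_sub, ← Polynomial.C_mul, sub_eq_add_neg, ← Polynomial.C_neg]
      congr 2
      field_simp
    rw [h2]
    have h3 : IsUnit (Polynomial.C (N : ℂ)) := by
      rw [Polynomial.isUnit_C]
      exact isUnit_iff_ne_zero.2 hN
    exact (h3.mul_left_dvd).2 h1

theorem factor_dvd (n : ℕ) (hn : 0 < n) (a d : T → ℕ) (b b' : Polynomial ℂ)
    (hb : b = Mu.facP a * b')
    (h : 0 < ∑ t, a t * d t → b'.eval (-(n : ℂ) / (∑ t, a t * d t : ℕ)) = 0) :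
    coneFactor n a d ∣ b := by
  rw [hb]
  unfold coneFactor
  rw [mul_comm]
  exact mul_dvd_mul_left _ (lin_dvd _ n hn b' h)

/-- The topological zeta function: `n / (N s + n) ∏ t, 1 / (a t s + 1)`. -/
noncomputable def coneZ (n : ℕ) (a d : T → ℕ) : RatFunc ℂ :=
  (n : RatFunc ℂ) * (((∑ t, a t * d t : ℕ) : RatFunc ℂ) * RatFunc.X + (n : RatFunc ℂ))⁻¹ *
    ∏ t, ((a t : RatFunc ℂ) * RatFunc.X + 1)⁻¹

theorem alg_lin (N n : ℕ) : algebraMap (Polynomial ℂ) (RatFunc ℂ)
    (Polynomial.C (N : ℂ) * Polynomial.X + Polynomial.C (n : ℂ)) =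
    (N : RatFunc ℂ) * RatFunc.X + (n : RatFunc ℂ) := by
  simp

theorem poly_of_dvd (n : ℕ) (hn : 0 < n) (a d : T → ℕ) (b : Polynomial ℂ)
    (h : coneFactor n a d ∣ b) : ∃ p : Polynomial ℂ,
      algebraMap (Polynomial ℂ) (RatFunc ℂ) b * coneZ n a d =
        algebraMap (Polynomial ℂ) (RatFunc ℂ) p := by
  obtain ⟨c, rfl⟩ := h
  have h1 : ∀ t : T, (Polynomial.C (a t : ℂ) * Polynomial.X + Polynomial.C ((1 : ℕ) : ℂ)) ∣
      ∏ i ∈ Finset.range (a t), (Polynomial.C (a t : ℂ) * Polynomial.X +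
        Polynomial.C ((i + 1 : ℕ) : ℂ)) := by
    intro t
    rcases Nat.eq_zero_or_pos (a t) with h0 | h0
    · rw [h0, Nat.cast_zero, Polynomial.C_0, zero_mul, zero_add, Nat.cast_one, Polynomial.C_1]
      exact one_dvd _
    · have h2 := Finset.dvd_prod_of_mem (fun i => (Polynomial.C (a t : ℂ) * Polynomial.X +
        Polynomial.C ((i + 1 : ℕ) : ℂ))) (Finset.mem_range.2 h0)
      exact h2
  choose q hq using h1
  refine ⟨Polynomial.C (n : ℂ) * (∏ t, q t) * c, ?_⟩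
  have h3 : ∀ N m : ℕ, 0 < m → ((N : RatFunc ℂ) * RatFunc.X + (m : RatFunc ℂ)) ≠ 0 := by
    intro N m hm
    rw [← alg_lin, Ne, map_eq_zero_iff _ (RatFunc.algebraMap_injective ℂ)]
    intro h0
    have h4 := congrArg (Polynomial.eval 0) h0
    rw [Polynomial.eval_add, Polynomial.eval_mul, Polynomial.eval_C, Polynomial.eval_C,
      Polynomial.eval_X, mul_zero, zero_add, Polynomial.eval_zero] at h4
    exact hm.ne' (by exact_mod_cast h4)
  have h5 : ∀ t, algebraMap (Polynomial ℂ) (RatFunc ℂ) (∏ i ∈ Finset.range (a t),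
      (Polynomial.C (a t : ℂ) * Polynomial.X + Polynomial.C ((i + 1 : ℕ) : ℂ))) *
      ((a t : RatFunc ℂ) * RatFunc.X + 1)⁻¹ = algebraMap (Polynomial ℂ) (RatFunc ℂ) (q t) := by
    intro t
    rw [hq t, map_mul, alg_lin, Nat.cast_one, mul_comm _ (algebraMap _ _ (q t)), mul_assoc,
      mul_inv_cancel₀, mul_one]
    have := h3 (a t) 1 one_pos
    rwa [Nat.cast_one] at this
  have h6 : (algebraMap (Polynomial ℂ) (RatFunc ℂ)) (∏ t, ∏ i ∈ Finset.range (a t),
      (Polynomial.C (a t : ℂ) * Polynomial.X + Polynomial.C ((i + 1 : ℕ) : ℂ))) *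
      ∏ t, ((a t : RatFunc ℂ) * RatFunc.X + 1)⁻¹ =
      ∏ t, algebraMap (Polynomial ℂ) (RatFunc ℂ) (q t) := by
    rw [map_prod, ← Finset.prod_mul_distrib]
    exact Finset.prod_congr rfl fun t _ => h5 t
  have h7 : ((∑ t, a t * d t : ℕ) : RatFunc ℂ) * RatFunc.X + (n : RatFunc ℂ) ≠ 0 := h3 _ n hn
  unfold coneFactor coneZ
  have h8 : algebraMap (Polynomial ℂ) (RatFunc ℂ) (Polynomial.C (n : ℂ)) = (n : RatFunc ℂ) := by
    simp
  have h9 : algebraMap (Polynomial ℂ) (RatFunc ℂ) (∏ t, q t) =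
      ∏ t, algebraMap (Polynomial ℂ) (RatFunc ℂ) (q t) := map_prod _ _ _
  rw [← h9] at h6
  rw [map_mul, map_mul, alg_lin, map_mul, map_mul, ← h6, h8]
  set L := ((∑ t, a t * d t : ℕ) : RatFunc ℂ) * RatFunc.X + (n : RatFunc ℂ) with hL
  have h10 : L * L⁻¹ = 1 := mul_inv_cancel₀ h7
  set P := (algebraMap (Polynomial ℂ) (RatFunc ℂ)) (∏ t, ∏ i ∈ Finset.range (a t),
      (Polynomial.C (a t : ℂ) * Polynomial.X + Polynomial.C ((i + 1 : ℕ) : ℂ))) with hP
  set R := ∏ t, ((a t : RatFunc ℂ) * RatFunc.X + 1)⁻¹ with hR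
  linear_combination ((n : RatFunc ℂ) * P * R * algebraMap (Polynomial ℂ) (RatFunc ℂ) c) * h10

/-- **Global.** -/
theorem cone_global [Nonempty σ] (g : (t : T) → κ t → MvPolynomial σ ℂ)
    (hg : ∀ t, ∃ j, g t j ≠ 0) (d : T → ℕ) (hd : ∀ t j, (g t j).IsHomogeneous (d t)) (a : T → ℕ)
    (h : PrimaryC g a) (b : Polynomial ℂ) (hb : IsBFunction (powProd a g) b) :
    coneFactor (Fintype.card σ) a d ∣ b := by
  have hn : 0 < Fintype.card σ := Fintype.card_pos
  by_cases ha : ∃ t, a t ≠ 0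
  · obtain ⟨b', H, h1, hH, hHb⟩ := Mu.quot_global a g hg b hb ha
    exact factor_dvd _ hn a d b b' h1 fun hN => root_of_from a g b' H hHb _ _ hN
      ((cone_reesH g hg d hd a h hN 1 (by rw [map_one]; exact one_ne_zero)).congr hH)
  · push Not at ha
    refine factor_dvd _ hn a d b b ?_ fun hN => ?_
    · have h2 : Mu.facP a = 1 := by
        unfold Mu.facP
        refine Finset.prod_eq_one fun t _ => ?_
        rw [ha t, Finset.range_zero, Finset.prod_empty]
      rw [h2, one_mul]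
    · exfalso
      rw [Finset.sum_eq_zero fun t _ => by rw [ha t, zero_mul]] at hN
      exact lt_irrefl _ hN

/-- **Local.** -/
theorem cone_local [Nonempty σ] (g : (t : T) → κ t → MvPolynomial σ ℂ)
    (hg : ∀ t, ∃ j, g t j ≠ 0) (d : T → ℕ) (hd : ∀ t j, (g t j).IsHomogeneous (d t)) (a : T → ℕ)
    (h : PrimaryC g a) (b : Polynomial ℂ) (hb : IsLocalBFunction (powProd a g) b) :
    coneFactor (Fintype.card σ) a d ∣ b := by
  have hn : 0 < Fintype.card σ := Fintype.card_pos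
  by_cases ha : ∃ t, a t ≠ 0
  · obtain ⟨t0, ht0⟩ := ha
    obtain ⟨H, P, hH, hP⟩ := algebraic_of_local (powProd a g) (powProd_ne a g hg) b hb
    have hH0 : constantCoeff (hat H 0) ≠ 0 := by
      rw [cc_hat]
      exact hH
    have hH1 : hat H 0 ≠ 0 := by
      intro h
      rw [h, map_zero] at hH0
      exact hH0 rfl
    obtain ⟨b', h1, h3⟩ := Mu.pow_quot a g hg t0 ht0 b H hH1 P hP
    exact factor_dvd _ hn a d b b' h1 fun hN => root_of_from a g b' (hat H 0) h3 _ _ hN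
      (cone_reesH g hg d hd a h hN _ hH0)
  · push Not at ha
    refine factor_dvd _ hn a d b b ?_ fun hN => ?_
    · have h2 : Mu.facP a = 1 := by
        unfold Mu.facP
        refine Finset.prod_eq_one fun t _ => ?_
        rw [ha t, Finset.range_zero, Finset.prod_empty]
      rw [h2, one_mul]
    · exfalso
      rw [Finset.sum_eq_zero fun t _ => by rw [ha t, zero_mul]] at hN
      exact lt_irrefl _ hN

end Pool.Agent.Q282.PA
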