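import Pool.Agent.Q282.PA.Orders

set_option autoImplicit false
set_option linter.unusedSectionVars false
set_option linter.unusedVariables false

/-! # Orders of the poles of topological zeta functions of products of powers of forms over ideals -/

namespace Pool.Agent.Q282.PA

open Pool.Agent.TH192.DT MvPolynomial Pool.Agent.H628R4.TP Pool.Agent.Y228.RR
  Pool.Agent.Y231.RF Pool.Agent.W574.HS Pool.Agent.W574.LM

variable {σ T : Type} [Fintype σ] [DecidableEq σ] [Fintype T] [DecidableEq T] {κ : T → Type}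
  [∀ t, Fintype (κ t)] [∀ t, DecidableEq (κ t)]

/-- **The exceptional divisor of the origin.** -/
theorem fromRees_coneH [Nonempty σ] (g : (t : T) → κ t → MvPolynomial σ ℂ) (d : T → ℕ)
    (hd : ∀ t j, (g t j).IsHomogeneous (d t)) (hg : ∀ t, ∃ j, g t j ≠ 0) (a : T → ℕ) (t0 : T)
    (ht0 : a t0 ≠ 0) (hd0 : 0 < d t0) (e : σ → κ t0)
    (hJ : (Matrix.of fun i k => pderiv k (g t0 (e i))).det ≠ 0) (H : MvPolynomial σ ℂ)
    (hH : constantCoeff H ≠ 0) :
    FromRees g a H (Fintype.card σ) (∑ t, a t * d t) := by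
  classical
  choose jt hjt using hg
  set J : MvPolynomial σ ℂ := (Matrix.of fun i k => pderiv k (g t0 (e i))).det with hJd
  obtain ⟨v, hv⟩ : ∃ v : σ → ℂ, eval v ((∏ i, X i) * J * ∏ t, g t (jt t)) ≠ 0 := by
    by_contra hcon
    push Not at hcon
    have h1 : (∏ i, (X i : MvPolynomial σ ℂ)) * J * ∏ t, g t (jt t) = 0 :=
      MvPolynomial.funext fun v => by rw [hcon v, map_zero]
    refine absurd h1 (mul_ne_zero (mul_ne_zero ?_ hJ) ?_)
    · exact Finset.prod_ne_zero_iff.2 fun i _ => X_ne_zero i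
    · exact Finset.prod_ne_zero_iff.2 fun t _ => hjt t
  rw [map_mul, map_mul, map_prod, map_prod] at hv
  have hv1 : ∀ i, v i ≠ 0 := by
    intro i
    have := Finset.prod_ne_zero_iff.1 (left_ne_zero_of_mul (left_ne_zero_of_mul hv)) i
      (Finset.mem_univ i)
    rwa [eval_X] at this
  have hv2 : eval v J ≠ 0 := right_ne_zero_of_mul (left_ne_zero_of_mul hv)
  have hv3 : ∀ t, eval v (g t (jt t)) ≠ 0 := fun t =>
    Finset.prod_ne_zero_iff.1 (right_ne_zero_of_mul hv) t (Finset.mem_univ t)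
  have hv2' : (Matrix.of fun i k => eval v (pderiv k (g t0 (e i)))).det ≠ 0 := by
    intro h
    apply hv2
    rw [hJd, RingHom.map_det]
    exact h
  have heuler : ∀ i, ∑ k, v k * eval v (pderiv k (g t0 (e i))) =
      d t0 * eval v (g t0 (e i)) := by
    intro i
    have h1 := congrArg (MvPolynomial.eval v) (hd t0 (e i)).sum_X_mul_pderiv
    rw [map_sum] at h1
    simp only [map_mul, MvPolynomial.eval_X, nsmul_eq_mul, map_natCast] at h1
    exact h1
  obtain ⟨z, hz⟩ : ∃ z, eval v (g t0 (e z)) ≠ 0 := by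
    by_contra hcon
    push Not at hcon
    apply hv2'
    refine Matrix.exists_mulVec_eq_zero_iff.1 ⟨v, ?_, ?_⟩
    · intro h
      exact hv1 (Classical.arbitrary σ) (congrFun h _)
    · funext i
      change ∑ k, eval v (pderiv k (g t0 (e i))) * v k = 0
      have h1 := heuler i
      rw [hcon i, mul_zero] at h1
      rw [← h1]
      exact Finset.sum_congr rfl fun k _ => mul_comm _ _
  have hc : (v z)⁻¹ ≠ 0 := inv_ne_zero (hv1 z)
  set v' : σ → ℂ := fun i => (v z)⁻¹ * v i with hv'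
  have hv'z : v' z = 1 := inv_mul_cancel₀ (hv1 z)
  have hj : ∀ t, eval v' (g t (Function.update jt t0 (e z) t)) ≠ 0 := by
    intro t
    by_cases ht : t = t0
    · subst ht
      rw [Function.update_self, hv', eval_scale _ _ (hd t (e z))]
      exact mul_ne_zero (pow_ne_zero _ hc) hz
    · rw [Function.update_of_ne ht, hv', eval_scale _ _ (hd t (jt t))]
      exact mul_ne_zero (pow_ne_zero _ hc) (hv3 t)
  have hJ' : (Matrix.of fun i k => eval v' (pderiv k (g t0 (e i)))).det ≠ 0 := by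
    have h1 : (Matrix.of fun i k => eval v' (pderiv k (g t0 (e i)))) =
        ((v z)⁻¹ ^ (d t0 - 1)) • (Matrix.of fun i k => eval v (pderiv k (g t0 (e i)))) := by
      ext i k
      rw [Matrix.smul_apply, Matrix.of_apply, Matrix.of_apply, hv',
        eval_scale _ _ ((hd t0 (e i)).pderiv), smul_eq_mul]
    rw [h1, Matrix.det_smul]
    exact mul_ne_zero (pow_ne_zero _ (pow_ne_zero _ hc)) hv2'
  have hE := coneChart_rees g d hd z v' hv'z (Function.update jt t0 (e z)) hj
    (fun t => a t ≠ 0) t0 ht0 hd0 e (Function.update_self t0 (e z) jt) hJ'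
  have hmul : (coneChart g d hd z v' hv'z (Function.update jt t0 (e z)) hj).mul a =
      ∑ t, a t * d t := rfl
  have hpos : 0 < ∑ t, a t * d t :=
    Finset.sum_pos' (fun t _ => Nat.zero_le _) ⟨t0, Finset.mem_univ t0,
      Nat.mul_pos (Nat.pos_of_ne_zero ht0) hd0⟩
  have hcc : MvPowerSeries.constantCoeff (aeval (bl z v') H) = constantCoeff H := by
    rw [cc_aeval (bl z v') (fun _ => 0) (fun i => by simp [bl])]
    exact congrFun (congrArg DFunLike.coe (eval_zero' : eval (fun _ : σ => (0 : ℂ)) = _)) H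
  have h1 := fromRees_self (a := a) (H := H)
    (coneChart g d hd z v' hv'z (Function.update jt t0 (e z)) hj) hE
    (by
      change MvPowerSeries.constantCoeff (aeval (bl z v') H) ≠ 0
      rw [hcc]
      exact hH) (by rw [hmul]; exact hpos)
  rw [hmul] at h1
  have h2 : (coneChart g d hd z v' hv'z (Function.update jt t0 (e z)) hj).k + 1 =
      Fintype.card σ := by
    change Fintype.card σ - 1 + 1 = _
    have := Fintype.card_pos (α := σ)
    omega
  rwa [h2] at h1


/-- forms without common zeros but the origin, over the complex numbers -/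
def PrimaryC (g : (t : T) → κ t → MvPolynomial σ ℂ) (a : T → ℕ) : Prop :=
  ∀ t, 0 < a t → ∀ i, ∃ M, (X i : MvPolynomial σ ℂ) ^ M ∈ Ideal.span (Set.range (g t))

theorem cone_reesH [Nonempty σ] (g : (t : T) → κ t → MvPolynomial σ ℂ)
    (hg : ∀ t, ∃ j, g t j ≠ 0) (d : T → ℕ) (hd : ∀ t j, (g t j).IsHomogeneous (d t)) (a : T → ℕ)
    (h : PrimaryC g a) (hN : 0 < ∑ t, a t * d t) (H : MvPolynomial σ ℂ)
    (hH : constantCoeff H ≠ 0) :
    FromRees g a H (Fintype.card σ) (∑ t, a t * d t) := by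
  obtain ⟨t0, _, ht0⟩ := Finset.exists_ne_zero_of_sum_ne_zero hN.ne'
  have ha : a t0 ≠ 0 := left_ne_zero_of_mul ht0
  have hd0 : 0 < d t0 := Nat.pos_of_ne_zero (right_ne_zero_of_mul ht0)
  obtain ⟨e, he⟩ := Jac.jac (g t0) (d t0) hd0 (hd t0) (h t0 (Nat.pos_of_ne_zero ha))
  exact fromRees_coneH g d hd hg a t0 ha hd0 e he H hH

section reg

variable {ι : Type} [Fintype ι] [DecidableEq ι]

theorem reg_alg (s : ℂ) (p : Polynomial ℂ) :
    Reg s (algebraMap (Polynomial ℂ) (RatFunc ℂ) p) :=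
  ⟨p, 1, by simp, by rw [map_one, mul_one]⟩

theorem lin_factor (s : ℂ) (N ν : ℕ) (hν : 0 < ν) (h : (N : ℂ) * s + ν = 0) :
    algebraMap (Polynomial ℂ) (RatFunc ℂ) (Polynomial.X - Polynomial.C s) *
      ((N : RatFunc ℂ) * RatFunc.X + (ν : RatFunc ℂ))⁻¹ = RatFunc.C ((N : ℂ)⁻¹) := by
  have hN : (N : ℂ) ≠ 0 := by
    intro h0
    rw [h0, zero_mul, zero_add] at h
    exact hν.ne' (by exact_mod_cast h)
  have h1 : algebraMap (Polynomial ℂ) (RatFunc ℂ)
      (Polynomial.C (N : ℂ) * (Polynomial.X - Polynomial.C s)) =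
      (N : RatFunc ℂ) * RatFunc.X + (ν : RatFunc ℂ) := by
    have h2 : Polynomial.C (N : ℂ) * (Polynomial.X - Polynomial.C s) =
        Polynomial.C (N : ℂ) * Polynomial.X + Polynomial.C (ν : ℂ) := by
      rw [mul_sub, ← Polynomial.C_mul, sub_eq_add_neg, ← Polynomial.C_neg]
      congr 2
      linear_combination -h
    rw [h2]
    simp
  have h3 : (Polynomial.X - Polynomial.C s : Polynomial ℂ) ≠ 0 := Polynomial.X_sub_C_ne_zero s
  have h4 : algebraMap (Polynomial ℂ) (RatFunc ℂ) (Polynomial.X - Polynomial.C s) ≠ 0 := by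
    rw [Ne, map_eq_zero_iff _ (RatFunc.algebraMap_injective ℂ)]
    exact h3
  have h5 : algebraMap (Polynomial ℂ) (RatFunc ℂ) (Polynomial.C (N : ℂ)) = RatFunc.C (N : ℂ) :=
    RatFunc.algebraMap_C _
  rw [← h1, map_mul, h5, mul_inv, mul_comm _ (algebraMap (Polynomial ℂ) (RatFunc ℂ)
    (Polynomial.X - Polynomial.C s))⁻¹, ← mul_assoc, mul_inv_cancel₀ h4, one_mul, map_inv₀]

theorem reg_b_prod (ν N : ι → ℕ) (hν : ∀ i, 0 < ν i) (s : ℂ) (b : Polynomial ℂ)
    (J : Finset ι) (h : (J.filter fun x => (N x : ℂ) * s + ν x = 0).card ≤ b.rootMultiplicity s) :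
    Reg s (algebraMap (Polynomial ℂ) (RatFunc ℂ) b *
      ∏ i ∈ J, ((N i : RatFunc ℂ) * RatFunc.X + (ν i : RatFunc ℂ))⁻¹) := by
  classical
  obtain ⟨c, hc⟩ := (pow_dvd_pow (Polynomial.X - Polynomial.C s) h).trans
    (Polynomial.pow_rootMultiplicity_dvd b s)
  rw [← Finset.prod_filter_mul_prod_filter_not J (fun x => (N x : ℂ) * s + ν x = 0), hc, map_mul,
    map_pow]
  set B := J.filter fun x => (N x : ℂ) * s + ν x = 0 with hB
  have h1 : (algebraMap (Polynomial ℂ) (RatFunc ℂ) (Polynomial.X - Polynomial.C s)) ^ B.card *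
      ∏ i ∈ B, ((N i : RatFunc ℂ) * RatFunc.X + (ν i : RatFunc ℂ))⁻¹ =
      ∏ i ∈ B, RatFunc.C ((N i : ℂ)⁻¹) := by
    rw [← Finset.prod_const, ← Finset.prod_mul_distrib]
    refine Finset.prod_congr rfl fun i hi => ?_
    exact lin_factor s (N i) (ν i) (hν i) (Finset.mem_filter.1 hi).2
  have h2 : (algebraMap (Polynomial ℂ) (RatFunc ℂ) (Polynomial.X - Polynomial.C s)) ^ B.card *
      algebraMap (Polynomial ℂ) (RatFunc ℂ) c *
      ((∏ i ∈ B, ((N i : RatFunc ℂ) * RatFunc.X + (ν i : RatFunc ℂ))⁻¹) *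
        ∏ i ∈ J with ¬ (N i : ℂ) * s + ν i = 0,
          ((N i : RatFunc ℂ) * RatFunc.X + (ν i : RatFunc ℂ))⁻¹) =
      algebraMap (Polynomial ℂ) (RatFunc ℂ) c * (∏ i ∈ B, RatFunc.C ((N i : ℂ)⁻¹)) *
        ∏ i ∈ J with ¬ (N i : ℂ) * s + ν i = 0,
          ((N i : RatFunc ℂ) * RatFunc.X + (ν i : RatFunc ℂ))⁻¹ := by
    rw [← h1]
    ring
  rw [h2]
  refine reg_mul (reg_mul (reg_alg s c) (reg_prod s _ _ fun i _ => reg_C s _))
    (reg_prod s _ _ fun i hi => reg_lin s (N i) (ν i) (Finset.mem_filter.1 hi).2)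

/-- **Everywhere regular functions are polynomials.** -/
theorem poly_of_reg (f : RatFunc ℂ) (h : ∀ s, Reg s f) :
    ∃ p : Polynomial ℂ, f = algebraMap (Polynomial ℂ) (RatFunc ℂ) p := by
  have h1 : f.denom.natDegree = 0 := by
    by_contra hne
    obtain ⟨s, hs⟩ := IsAlgClosed.exists_root f.denom (fun h0 => hne
      (Polynomial.natDegree_eq_of_degree_eq_some h0))
    exact reg_denom (h s) hs
  have h2 : f.denom = 1 := Polynomial.eq_one_of_monic_natDegree_zero (RatFunc.monic_denom f) h1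
  refine ⟨f.num, ?_⟩
  have h3 := RatFunc.num_div_denom f
  rw [h2, map_one, div_one] at h3
  exact h3.symm

end reg

theorem facP_rmC (a : T → ℕ) (s : ℂ) :
    (Finset.univ.filter fun t => 0 < a t ∧ (a t : ℂ) * s + 1 = 0).card ≤
      (Mu.facP a).rootMultiplicity s := by
  classical
  have hne : ∀ t, (∏ i ∈ Finset.range (a t), (Polynomial.C (a t : ℂ) * Polynomial.X +
      Polynomial.C ((i + 1 : ℕ) : ℂ))) ≠ 0 := fun t => by
    have h := facP_ne a
    unfold Mu.facP at h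
    exact Finset.prod_ne_zero_iff.1 h t (Finset.mem_univ t)
  unfold Mu.facP
  rw [Pool.Agent.W427.SMC.rm_prod _ _ (fun t _ => hne t), Finset.card_filter]
  refine Finset.sum_le_sum fun t _ => ?_
  split_ifs with h
  · have h1 : 0 < (∏ i ∈ Finset.range (a t), (Polynomial.C (a t : ℂ) * Polynomial.X +
        Polynomial.C ((i + 1 : ℕ) : ℂ))).rootMultiplicity s := by
      rw [Polynomial.rootMultiplicity_pos (hne t), Polynomial.IsRoot.def, Polynomial.eval_prod]
      refine Finset.prod_eq_zero (Finset.mem_range.2 h.1) ?_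
      rw [Polynomial.eval_add, Polynomial.eval_mul, Polynomial.eval_C, Polynomial.eval_C,
        Polynomial.eval_X, zero_add, Nat.cast_one]
      exact h.2
    exact h1
  · exact Nat.zero_le _

/-- No two exceptional components with the same number `ν / N` occur in one stratum with `χ ≠ 0`. -/
def Distinct {I : Type} (a : T → ℕ) (k : I → ℕ) (m : I → T → ℕ) (χ : Finset (I ⊕ T) → ℤ) : Prop :=
  ∀ J, χ J ≠ 0 → ∀ i i' : I, Sum.inl i ∈ J → Sum.inl i' ∈ J → 0 < ∑ t, a t * m i t →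
    0 < ∑ t, a t * m i' t → (k i + 1) * ∑ t, a t * m i' t = (k i' + 1) * ∑ t, a t * m i t → i = i'

/-- **The core.** -/
theorem top_core {I : Type} [Fintype I] (a : T → ℕ) (k : I → ℕ) (m : I → T → ℕ)
    (χ : Finset (I ⊕ T) → ℤ) (hd : Distinct a k m χ) (b b' : Polynomial ℂ) (hb0 : b ≠ 0)
    (hb : b = Mu.facP a * b')
    (hroot : ∀ i, 0 < ∑ t, a t * m i t → (∃ J, χ J ≠ 0 ∧ Sum.inl i ∈ J) →
      b'.eval (-((k i + 1 : ℕ) : ℂ) / (∑ t, a t * m i t : ℕ)) = 0) :
    ∃ p : Polynomial ℂ, algebraMap (Polynomial ℂ) (RatFunc ℂ) b * topZ (nuR k T) (mulR a m) χ =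
      algebraMap (Polynomial ℂ) (RatFunc ℂ) p := by
  classical
  refine poly_of_reg _ fun s => ?_
  unfold topZ
  rw [Finset.mul_sum]
  refine reg_sum s _ _ fun J _ => ?_
  by_cases hχ : χ J = 0
  · rw [hχ, Int.cast_zero, map_zero, zero_mul, mul_zero]
    have := reg_C s 0
    rwa [map_zero] at this
  rw [mul_left_comm]
  refine reg_mul (reg_C s _) (reg_b_prod _ _ (nuR_pos k) s b J ?_)
  have hb'0 : b' ≠ 0 := by
    intro h
    apply hb0
    rw [hb, h, mul_zero]
  have hmult : b.rootMultiplicity s = (Mu.facP a).rootMultiplicity s + b'.rootMultiplicity s := by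
    rw [hb, Polynomial.rootMultiplicity_mul (mul_ne_zero (facP_ne a) hb'0)]
  have hsplit : (J.filter fun x => (mulR a m x : ℂ) * s + nuR k T x = 0).card ≤
      ((Finset.univ : Finset I).filter fun i => Sum.inl i ∈ J ∧
        ((∑ t, a t * m i t : ℕ) : ℂ) * s + ((k i + 1 : ℕ) : ℂ) = 0).card +
      (Finset.univ.filter fun t => 0 < a t ∧ (a t : ℂ) * s + 1 = 0).card := by
    rw [← Finset.card_disjSum]
    refine Finset.card_le_card fun x hx => ?_
    obtain ⟨hxJ, hx⟩ := Finset.mem_filter.1 hx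
    rcases x with i | t
    · exact Finset.inl_mem_disjSum.2 (Finset.mem_filter.2 ⟨Finset.mem_univ _, hxJ, hx⟩)
    · refine Finset.inr_mem_disjSum.2 (Finset.mem_filter.2 ⟨Finset.mem_univ _, ?_, ?_⟩)
      · rcases Nat.eq_zero_or_pos (a t) with h0 | h0
        · change ((a t : ℕ) : ℂ) * s + ((1 : ℕ) : ℂ) = 0 at hx
          rw [h0] at hx
          simp at hx
        · exact h0
      · change ((a t : ℕ) : ℂ) * s + ((1 : ℕ) : ℂ) = 0 at hx
        rw [Nat.cast_one] at hx
        exact hx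
  have hcard := facP_rmC a s
  by_cases hne : ((Finset.univ : Finset I).filter fun i => Sum.inl i ∈ J ∧
      ((∑ t, a t * m i t : ℕ) : ℂ) * s + ((k i + 1 : ℕ) : ℂ) = 0).card = 0
  · omega
  · obtain ⟨i, hi⟩ := Finset.card_pos.1 (Nat.pos_of_ne_zero hne)
    obtain ⟨_, hiJ, his⟩ := Finset.mem_filter.1 hi
    have hpos : ∀ i : I, ((∑ t, a t * m i t : ℕ) : ℂ) * s + ((k i + 1 : ℕ) : ℂ) = 0 →
        0 < ∑ t, a t * m i t := by
      intro i h
      rcases Nat.eq_zero_or_pos (∑ t, a t * m i t) with h0 | h0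
      · rw [h0, Nat.cast_zero, zero_mul, zero_add] at h
        have h1 : k i + 1 = 0 := by exact_mod_cast h
        omega
      · exact h0
    have hone : ((Finset.univ : Finset I).filter fun i => Sum.inl i ∈ J ∧
        ((∑ t, a t * m i t : ℕ) : ℂ) * s + ((k i + 1 : ℕ) : ℂ) = 0).card ≤ 1 := by
      rw [Finset.card_le_one]
      intro i1 h1 i2 h2
      obtain ⟨_, h1J, h1s⟩ := Finset.mem_filter.1 h1
      obtain ⟨_, h2J, h2s⟩ := Finset.mem_filter.1 h2
      refine hd J hχ i1 i2 h1J h2J (hpos i1 h1s) (hpos i2 h2s) ?_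
      have h3 : (((k i1 + 1) * ∑ t, a t * m i2 t : ℕ) : ℂ) =
          (((k i2 + 1) * ∑ t, a t * m i1 t : ℕ) : ℂ) := by
        rw [Nat.cast_mul, Nat.cast_mul]
        linear_combination ((∑ t, a t * m i2 t : ℕ) : ℂ) * h1s -
          ((∑ t, a t * m i1 t : ℕ) : ℂ) * h2s
      exact_mod_cast h3
    have hs : s = -((k i + 1 : ℕ) : ℂ) / (∑ t, a t * m i t : ℕ) := by
      have hN0 : ((∑ t, a t * m i t : ℕ) : ℂ) ≠ 0 := Nat.cast_ne_zero.2 (hpos i his).ne'
      field_simp
      linear_combination his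
    have h4 : 0 < b'.rootMultiplicity s := by
      rw [Polynomial.rootMultiplicity_pos hb'0, Polynomial.IsRoot.def, hs]
      exact hroot i (hpos i his) ⟨J, hχ, hiJ⟩
    omega

/-- **Global.** -/
theorem top_global_order {I : Type} [Fintype I] (g : (t : T) → κ t → MvPolynomial σ ℂ)
    (hg : ∀ t, ∃ j, g t j ≠ 0) (a : T → ℕ) (k : I → ℕ) (m : I → T → ℕ)
    (χ : Finset (I ⊕ T) → ℤ) (hd : Distinct a k m χ)
    (hE : ∀ i, 0 < ∑ t, a t * m i t → (∃ J, χ J ≠ 0 ∧ Sum.inl i ∈ J) →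
      FromRees g a 1 (k i + 1) (∑ t, a t * m i t))
    (b : Polynomial ℂ) (hb : IsBFunction (powProd a g) b) :
    ∃ p : Polynomial ℂ, algebraMap (Polynomial ℂ) (RatFunc ℂ) b * topZ (nuR k T) (mulR a m) χ =
      algebraMap (Polynomial ℂ) (RatFunc ℂ) p := by
  by_cases hb0 : b = 0
  · exact ⟨0, by rw [hb0, map_zero, zero_mul]⟩
  by_cases ha : ∃ t, a t ≠ 0
  · obtain ⟨b', H, h1, hH, hHb⟩ := Mu.quot_global a g hg b hb ha
    exact top_core a k m χ hd b b' hb0 h1 fun i hN hJ =>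
      root_of_from a g b' H hHb _ _ hN ((hE i hN hJ).congr hH)
  · push Not at ha
    refine top_core a k m χ hd b b hb0 ?_ fun i hN _ => ?_
    · have h2 : Mu.facP a = 1 := by
        unfold Mu.facP
        refine Finset.prod_eq_one fun t _ => ?_
        rw [ha t, Finset.range_zero, Finset.prod_empty]
      rw [h2, one_mul]
    · exfalso
      rw [Finset.sum_eq_zero fun t _ => by rw [ha t, zero_mul]] at hN
      exact lt_irrefl _ hN

/-- **Local.** -/
theorem top_local_order {I : Type} [Fintype I] (g : (t : T) → κ t → MvPolynomial σ ℂ)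
    (hg : ∀ t, ∃ j, g t j ≠ 0) (a : T → ℕ) (k : I → ℕ) (m : I → T → ℕ)
    (χ : Finset (I ⊕ T) → ℤ) (hd : Distinct a k m χ)
    (hE : ∀ i, 0 < ∑ t, a t * m i t → (∃ J, χ J ≠ 0 ∧ Sum.inl i ∈ J) →
      ∀ H : MvPolynomial σ ℂ, MvPolynomial.constantCoeff H ≠ 0 →
        FromRees g a H (k i + 1) (∑ t, a t * m i t))
    (b : Polynomial ℂ) (hb : IsLocalBFunction (powProd a g) b) :
    ∃ p : Polynomial ℂ, algebraMap (Polynomial ℂ) (RatFunc ℂ) b * topZ (nuR k T) (mulR a m) χ =
      algebraMap (Polynomial ℂ) (RatFunc ℂ) p := by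
  by_cases hb0 : b = 0
  · exact ⟨0, by rw [hb0, map_zero, zero_mul]⟩
  by_cases ha : ∃ t, a t ≠ 0
  · obtain ⟨t0, ht0⟩ := ha
    obtain ⟨H, P, hH, hP⟩ := algebraic_of_local (powProd a g) (powProd_ne a g hg) b hb
    have hH0 : constantCoeff (hat H 0) ≠ 0 := by
      rw [cc_hat]
      exact hH
    have hH1 : hat H 0 ≠ 0 := by
      intro h
      rw [h, map_zero] at hH0
      exact hH0 rfl
    obtain ⟨b', h1, h3⟩ := Mu.pow_quot a g hg t0 ht0 b H hH1 P hP
    exact top_core a k m χ hd b b' hb0 h1 fun i hN hJ =>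
      root_of_from a g b' (hat H 0) h3 _ _ hN (hE i hN hJ _ hH0)
  · push Not at ha
    refine top_core a k m χ hd b b hb0 ?_ fun i hN _ => ?_
    · have h2 : Mu.facP a = 1 := by
        unfold Mu.facP
        refine Finset.prod_eq_one fun t _ => ?_
        rw [ha t, Finset.range_zero, Finset.prod_empty]
      rw [h2, one_mul]
    · exfalso
      rw [Finset.sum_eq_zero fun t _ => by rw [ha t, zero_mul]] at hN
      exact lt_irrefl _ hN

end Pool.Agent.Q282.PA
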